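import Mathlib

/-!
# Projective-metric planes and the circle identity: definitions

Everything used in the statement of the result on problem `MP_7a5b4a_gt` is defined here.
-/

open scoped Real LinearAlgebra.Projectivization

namespace Pool.Agent.MP_7a5b4a_gt

/-- The affine plane `ℝ²`. -/
abbrev E2 := EuclideanSpace ℝ (Fin 2)

/-- The space `ℝ³` of homogeneous coordinates. -/
abbrev E3 := EuclideanSpace ℝ (Fin 3)

/-- Homogeneous coordinates `(x₀, x₁, 1)` of the point `x` of the affine plane. -/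
noncomputable def hat (x : E2) : E3 := !₂[x 0, x 1, 1]

/-- The point of the affine plane with homogeneous coordinates `v` (meaningful for `v 2 ≠ 0`). -/
noncomputable def dehom (v : E3) : E2 := !₂[v 0 / v 2, v 1 / v 2]

/-- `d` is a metric on the set `M`. -/
structure IsMetric {X : Type*} (M : Set X) (d : X → X → ℝ) : Prop where
  eq_zero_iff : ∀ x ∈ M, ∀ y ∈ M, (d x y = 0 ↔ x = y)
  symm : ∀ x ∈ M, ∀ y ∈ M, d x y = d y x
  triangle : ∀ x ∈ M, ∀ y ∈ M, ∀ z ∈ M, d x z ≤ d x y + d y z

/-- The metric `d` on `M` is complete: every Cauchy sequence converges. -/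
def IsCompleteMetric {X : Type*} (M : Set X) (d : X → X → ℝ) : Prop :=
  ∀ u : ℕ → X, (∀ n, u n ∈ M) →
    (∀ ε : ℝ, 0 < ε → ∃ N, ∀ m, N ≤ m → ∀ n, N ≤ n → d (u m) (u n) < ε) →
    ∃ x ∈ M, ∀ ε : ℝ, 0 < ε → ∃ N, ∀ n, N ≤ n → d (u n) x < ε

/-! ### Planes of parabolic and hyperbolic type -/

/-- `ℓ` is a geodesic line of the metric `d` on `M`: the image of an isometric embedding of the
real line. -/
def IsGeodesicLine (M : Set E2) (d : E2 → E2 → ℝ) (ℓ : Set E2) : Prop :=
  ℓ ⊆ M ∧ ∃ γ : ℝ → E2, Set.range γ = ℓ ∧ ∀ s t, d (γ s) (γ t) = |s - t|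

/-- `ℓ` is a non-empty intersection of `M` with a straight line of the plane. -/
def IsLineSection (M : Set E2) (ℓ : Set E2) : Prop :=
  ℓ.Nonempty ∧ ∃ p q : E2, p ≠ q ∧ ℓ = M ∩ (line[ℝ, p, q] : Set E2)

/-- Projective-metric planes `(M, d)` with `M` a non-empty open convex subset of `ℝ²`. The plane is
of parabolic type if `M = ℝ²`, and of hyperbolic type otherwise. -/
structure IsStraightPlane (M : Set E2) (d : E2 → E2 → ℝ) : Prop where
  nonempty : M.Nonempty
  isOpen : IsOpen M
  convex : Convex ℝ M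
  metric : IsMetric M d
  complete : IsCompleteMetric M d
  continuous : ContinuousOn (fun x : E2 × E2 => d x.1 x.2) (M ×ˢ M)
  geodesic_iff : ∀ ℓ : Set E2, IsGeodesicLine M d ℓ ↔ IsLineSection M ℓ

/-- The circle identity `(∗)` with size function `σ`, for every circle: a line through the centre
`O` meets the circle of radius `r` in the two points `A ≠ B`, and `P` is a point of the circle off
the line `AB`. -/
def CircleIdentity (σ : ℝ → ℝ) (M : Set E2) (d : E2 → E2 → ℝ) : Prop :=
  ∀ O ∈ M, ∀ r : ℝ, 0 < r → ∀ A ∈ M, ∀ B ∈ M, ∀ P ∈ M,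
    d O A = r → d O B = r → A ≠ B → Collinear ℝ {A, O, B} →
    d O P = r → ¬ Collinear ℝ {A, B, P} →
    σ (d A P / 2) ^ 2 + σ (d B P / 2) ^ 2 = σ r ^ 2

/-- `(ℝ², d)` is a model of the Euclidean plane: `d` is the Euclidean metric up to an affine
bijection. -/
def IsEuclideanModel (d : E2 → E2 → ℝ) : Prop :=
  ∃ T : E2 ≃ᵃ[ℝ] E2, ∀ x y, d x y = dist (T x) (T y)

/-- The metric of the Beltrami–Cayley–Klein model of the hyperbolic plane (curvature `-1`) in the
open unit disc. -/
noncomputable def kleinDist (a b : E2) : ℝ :=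
  Real.arcosh ((1 - inner ℝ a b) / (√(1 - ‖a‖ ^ 2) * √(1 - ‖b‖ ^ 2)))

/-- `(M, d)` is a model of the hyperbolic plane: some projective map, given in homogeneous
coordinates by the invertible linear map `T`, is defined on `M`, maps `M` onto the open unit disc
and `d` to the metric of the Beltrami–Cayley–Klein model. -/
def IsHyperbolicModel (M : Set E2) (d : E2 → E2 → ℝ) : Prop :=
  ∃ T : E3 ≃ₗ[ℝ] E3, (∀ x ∈ M, T (hat x) 2 ≠ 0) ∧
    (fun x => dehom (T (hat x))) '' M = Metric.ball 0 1 ∧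
    ∀ x ∈ M, ∀ y ∈ M, d x y = kleinDist (dehom (T (hat x))) (dehom (T (hat y)))

/-! ### Planes of elliptic type -/

/-- `ℓ` is a geodesic line of length `π` of the metric `d` on the projective plane: the image of an
isometric embedding of the circle of length `π` (with its arc length metric). -/
def IsGeodesicCircle (d : ℙ ℝ E3 → ℙ ℝ E3 → ℝ) (ℓ : Set (ℙ ℝ E3)) : Prop :=
  ∃ γ : AddCircle π → ℙ ℝ E3, Set.range γ = ℓ ∧ ∀ s t, d (γ s) (γ t) = ‖s - t‖

/-- `ℓ` is a projective line. -/
def IsProjectiveLine (ℓ : Set (ℙ ℝ E3)) : Prop :=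
  ∃ W : Submodule ℝ E3, Module.finrank ℝ W = 2 ∧ ℓ = {p | p.submodule ≤ W}

/-- Projective-metric planes of elliptic type; the metric is scaled so that the geodesic lines have
length `π`. Continuity is with respect to the standard (quotient) topology of the projective
plane. -/
structure IsEllipticPlane (d : ℙ ℝ E3 → ℙ ℝ E3 → ℝ) : Prop where
  metric : IsMetric Set.univ d
  complete : IsCompleteMetric Set.univ d
  continuous : Continuous fun x : {v : E3 // v ≠ 0} × {v : E3 // v ≠ 0} =>
    d (Projectivization.mk' ℝ x.1) (Projectivization.mk' ℝ x.2)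
  geodesic_iff : ∀ ℓ : Set (ℙ ℝ E3), IsGeodesicCircle d ℓ ↔ IsProjectiveLine ℓ

/-- The circle with centre `O` and radius `r` is strictly convex: the disc `d O · ≤ r` misses some
projective line `f = 0`, and it is strictly convex in the affine plane `f = 1` which is the
complement of this line. -/
def IsStrictlyConvexCircle (d : ℙ ℝ E3 → ℙ ℝ E3 → ℝ) (O : ℙ ℝ E3) (r : ℝ) : Prop :=
  ∃ f : E3 →ₗ[ℝ] ℝ,
    (∀ (v : E3) (hv : v ≠ 0), d O (Projectivization.mk ℝ v hv) ≤ r → f v ≠ 0) ∧
    ∀ (v w : E3) (hv : v ≠ 0) (hw : w ≠ 0), f v = 1 → f w = 1 → v ≠ w →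
      d O (Projectivization.mk ℝ v hv) ≤ r → d O (Projectivization.mk ℝ w hw) ≤ r →
      ∀ a b : ℝ, 0 < a → 0 < b → a + b = 1 → ∀ h : a • v + b • w ≠ 0,
        d O (Projectivization.mk ℝ (a • v + b • w) h) < r

/-- `d` is a model of the elliptic plane (curvature `1`): up to a projective map, given by the
invertible linear map `T`, the distance of two points is the angle between the corresponding lines
of `ℝ³`. -/
def IsEllipticModel (d : ℙ ℝ E3 → ℙ ℝ E3 → ℝ) : Prop :=
  ∃ T : E3 ≃ₗ[ℝ] E3, ∀ (v w : E3) (hv : v ≠ 0) (hw : w ≠ 0),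
    d (Projectivization.mk ℝ v hv) (Projectivization.mk ℝ w hw) =
      Real.arccos (|inner ℝ (T v) (T w)| / (‖T v‖ * ‖T w‖))

end Pool.Agent.MP_7a5b4a_gt
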