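import Pool.Agent.MP_7a5b4a_gt.FT

/-!
# Planes of elliptic type: the metric as a function of pairs of vectors
-/

open Filter Topology Set
open scoped Real LinearAlgebra.Projectivization

namespace Pool.Agent.MP_7a5b4a_gt

/-- Elliptic-type metrics as functions on pairs of non-zero vectors. -/
structure Ell (D : E3 → E3 → ℝ) : Prop where
  symm : ∀ {v w}, v ≠ 0 → w ≠ 0 → D v w = D w v
  tri : ∀ {u v w}, u ≠ 0 → v ≠ 0 → w ≠ 0 → D u w ≤ D u v + D v w
  zero_iff : ∀ {v w}, v ≠ 0 → w ≠ 0 → (D v w = 0 ↔ ∃ c : ℝ, w = c • v)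
  cont : ContinuousOn (fun x : E3 × E3 => D x.1 x.2) ({0}ᶜ ×ˢ {0}ᶜ)
  circ : ∀ {x y : E3}, x ≠ 0 → (¬ ∃ c : ℝ, y = c • x) → ∃ c : ℝ → E3, (∀ t, c t ≠ 0) ∧
    D (c 0) x = 0 ∧ (∀ s t, |s - t| ≤ π / 2 → D (c s) (c t) = |s - t|) ∧
    (∀ t, D (c (t + π)) (c t) = 0) ∧
    (∀ z, z ≠ 0 → z ∈ Submodule.span ℝ {x, y} → ∃ u, |u| ≤ π / 2 ∧ D (c u) z = 0) ∧
    ∀ t, c t ∈ Submodule.span ℝ {x, y}

/-- The function on pairs of vectors attached to a metric on the projective plane. -/
noncomputable def vecDist (d : ℙ ℝ E3 → ℙ ℝ E3 → ℝ) (v w : E3) : ℝ :=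
  if h : v ≠ 0 ∧ w ≠ 0 then d (Projectivization.mk ℝ v h.1) (Projectivization.mk ℝ w h.2) else 0

theorem vecDist_of_ne {d : ℙ ℝ E3 → ℙ ℝ E3 → ℝ} {v w : E3} (hv : v ≠ 0) (hw : w ≠ 0) :
    vecDist d v w = d (Projectivization.mk ℝ v hv) (Projectivization.mk ℝ w hw) := by
  rw [vecDist, dif_pos ⟨hv, hw⟩]

theorem norm_coe_addCircle {u : ℝ} (hu : |u| ≤ π / 2) : ‖(u : AddCircle π)‖ = |u| := by
  rw [AddCircle.norm_coe_eq_abs_iff π Real.pi_ne_zero, abs_of_pos Real.pi_pos]
  exact hu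

theorem exists_rep_addCircle (a : AddCircle π) : ∃ u : ℝ, |u| ≤ π / 2 ∧ (u : AddCircle π) = a := by
  induction a using QuotientAddGroup.induction_on with
  | H x =>
    refine ⟨x - round (π⁻¹ * x) * π, ?_, ?_⟩
    · have h1 := AddCircle.norm_eq π (x := x)
      have h2 := AddCircle.norm_le_half_period π (x := (x : AddCircle π)) Real.pi_ne_zero
      rw [h1, abs_of_pos Real.pi_pos] at h2
      exact h2
    · have : ((round (π⁻¹ * x) * π : ℝ) : AddCircle π) = 0 := by
        rw [← zsmul_eq_mul, AddCircle.coe_zsmul, AddCircle.coe_period, smul_zero]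
      rw [AddCircle.coe_sub, this, sub_zero]

theorem IsEllipticPlane.ell {d : ℙ ℝ E3 → ℙ ℝ E3 → ℝ} (h : IsEllipticPlane d) :
    Ell (vecDist d) := by
  refine ⟨?_, ?_, ?_, ?_, ?_⟩
  · intro v w hv hw
    rw [vecDist_of_ne hv hw, vecDist_of_ne hw hv]
    exact h.metric.symm _ (mem_univ _) _ (mem_univ _)
  · intro u v w hu hv hw
    rw [vecDist_of_ne hu hw, vecDist_of_ne hu hv, vecDist_of_ne hv hw]
    exact h.metric.triangle _ (mem_univ _) _ (mem_univ _) _ (mem_univ _)
  · intro v w hv hw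
    rw [vecDist_of_ne hv hw, h.metric.eq_zero_iff _ (mem_univ _) _ (mem_univ _),
      eq_comm, Projectivization.mk_eq_mk_iff']
    constructor
    · rintro ⟨a, ha⟩; exact ⟨a, ha.symm⟩
    · rintro ⟨a, ha⟩; exact ⟨a, ha.symm⟩
  · rw [continuousOn_iff_continuous_domRestrict]
    let F : ({0}ᶜ ×ˢ {0}ᶜ : Set (E3 × E3)) → {v : E3 // v ≠ 0} × {v : E3 // v ≠ 0} :=
      fun x => (⟨x.1.1, x.2.1⟩, ⟨x.1.2, x.2.2⟩)
    have hF : Continuous F := by fun_prop
    refine (h.continuous.comp hF).congr ?_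
    rintro ⟨⟨v, w⟩, hv, hw⟩
    simp only [Set.domRestrict_apply, Function.comp]
    rw [vecDist_of_ne hv hw]
    rfl
  · intro x y hx hxy
    set W : Submodule ℝ E3 := Submodule.span ℝ {x, y} with hW
    have hli : LinearIndependent ℝ ![x, y] := by
      rw [LinearIndependent.pair_iff' hx]
      intro a ha
      exact hxy ⟨a, ha.symm⟩
    have hfin : Module.finrank ℝ W = 2 := by
      have h1 := finrank_span_eq_card hli
      have hrange : Set.range ![x, y] = {x, y} := by
        ext z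
        simp [eq_comm, or_comm]
      rw [hrange, Fintype.card_fin] at h1
      exact h1
    obtain ⟨γ, hr, hiso⟩ := (h.geodesic_iff {p | p.submodule ≤ W}).2 ⟨W, hfin, rfl⟩
    have hmem : ∀ b, (γ b).submodule ≤ W := by
      intro b
      have : γ b ∈ range γ := ⟨b, rfl⟩
      rw [hr] at this
      exact this
    have hxW : Projectivization.mk ℝ x hx ∈ range γ := by
      rw [hr]
      show (Projectivization.mk ℝ x hx).submodule ≤ W
      rw [Projectivization.submodule_mk, Submodule.span_singleton_le_iff_mem]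
      exact Submodule.subset_span (by simp)
    obtain ⟨a, ha⟩ := hxW
    have hrep : ∀ (p q : ℙ ℝ E3), vecDist d p.rep q.rep = d p q := by
      intro p q
      rw [vecDist_of_ne p.rep_nonzero q.rep_nonzero, Projectivization.mk_rep,
        Projectivization.mk_rep]
    refine ⟨fun t => (γ (a + (t : ℝ))).rep, fun t => Projectivization.rep_nonzero _, ?_, ?_, ?_,
      ?_, ?_⟩
    · simp only [AddCircle.coe_zero, add_zero]
      rw [vecDist_of_ne (Projectivization.rep_nonzero _) hx, Projectivization.mk_rep, ha]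
      exact (h.metric.eq_zero_iff _ (mem_univ _) _ (mem_univ _)).2 rfl
    · intro s t hst
      simp only
      rw [hrep, hiso, add_sub_add_left_eq_sub, ← AddCircle.coe_sub, norm_coe_addCircle hst]
    · intro t
      simp only
      rw [hrep, AddCircle.coe_add, AddCircle.coe_period, add_zero]
      exact (h.metric.eq_zero_iff _ (mem_univ _) _ (mem_univ _)).2 rfl
    · intro z hz hzW
      have hzW' : Projectivization.mk ℝ z hz ∈ range γ := by
        rw [hr]
        show (Projectivization.mk ℝ z hz).submodule ≤ W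
        rw [Projectivization.submodule_mk, Submodule.span_singleton_le_iff_mem]
        exact hzW
      obtain ⟨b, hb⟩ := hzW'
      obtain ⟨u, hu, hu'⟩ := exists_rep_addCircle (b - a)
      refine ⟨u, hu, ?_⟩
      simp only
      rw [hu', add_sub_cancel, vecDist_of_ne (Projectivization.rep_nonzero _) hz,
        Projectivization.mk_rep, hb]
      exact (h.metric.eq_zero_iff _ (mem_univ _) _ (mem_univ _)).2 rfl
    · intro t
      have := hmem (a + (t : ℝ))
      rw [Projectivization.submodule_eq, Submodule.span_singleton_le_iff_mem] at this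
      exact this

namespace Ell

variable {D : E3 → E3 → ℝ} (h : Ell D)

include h

theorem self {v : E3} (hv : v ≠ 0) : D v v = 0 := (h.zero_iff hv hv).2 ⟨1, by simp⟩

theorem nonneg {v w : E3} (hv : v ≠ 0) (hw : w ≠ 0) : 0 ≤ D v w := by
  have h1 := h.tri hv hw hv
  rw [h.self hv, h.symm hw hv] at h1
  linarith

/-- points at distance zero are interchangeable -/
theorem congr_left {v v' w : E3} (hv : v ≠ 0) (hv' : v' ≠ 0) (hw : w ≠ 0) (h0 : D v v' = 0) :
    D v w = D v' w := by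
  have h1 := h.tri hv hv' hw
  have h2 := h.tri hv' hv hw
  rw [h.symm hv' hv] at h2
  linarith

theorem congr_right {v w w' : E3} (hv : v ≠ 0) (hw : w ≠ 0) (hw' : w' ≠ 0) (h0 : D w w' = 0) :
    D v w = D v w' := by
  rw [h.symm hv hw, h.symm hv hw', h.congr_left hw hw' hv h0]

theorem smul_left {v w : E3} (hv : v ≠ 0) (hw : w ≠ 0) {c : ℝ} (hc : c ≠ 0) :
    D (c • v) w = D v w :=
  (h.congr_left hv (smul_ne_zero hc hv) hw ((h.zero_iff hv (smul_ne_zero hc hv)).2 ⟨c, rfl⟩)).symm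

theorem smul_right {v w : E3} (hv : v ≠ 0) (hw : w ≠ 0) {c : ℝ} (hc : c ≠ 0) :
    D v (c • w) = D v w := by
  rw [h.symm hv (smul_ne_zero hc hw), h.smul_left hw hv hc, h.symm hw hv]

theorem le_half_pi {v w : E3} (hv : v ≠ 0) (hw : w ≠ 0) : D v w ≤ π / 2 := by
  by_cases hvw : ∃ c : ℝ, w = c • v
  · rw [(h.zero_iff hv hw).2 hvw]; positivity
  · obtain ⟨c, hc0, hcx, hiso, -, hsurj, -⟩ := h.circ hv hvw
    obtain ⟨u, hu, hu'⟩ := hsurj w hw (Submodule.subset_span (by simp))
    rw [h.symm hv hw, ← h.congr_left (hc0 u) hw hv hu', ← h.congr_right (hc0 u) (hc0 0) hv hcx,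
      hiso u 0 (by simpa using hu), sub_zero]
    exact hu

theorem not_smul_of_ne {v w : E3} (hv : v ≠ 0) (hw : w ≠ 0) (hvw : D v w ≠ 0) :
    ¬ ∃ c : ℝ, w = c • v := fun hc => hvw ((h.zero_iff hv hw).2 hc)

/-- On a line, the distances to two points at distance `π/2` add up to `π/2`. -/
theorem add_antipode {x y z : E3} (hx : x ≠ 0) (hy : y ≠ 0) (hz : z ≠ 0) (hxy : D x y = π / 2)
    (hzs : z ∈ Submodule.span ℝ {x, y}) : D x z + D z y = π / 2 := by
  have hpi := Real.pi_pos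
  obtain ⟨c, hc0, hcx, hiso, hper, hsurj, -⟩ :=
    h.circ hx (h.not_smul_of_ne hx hy (by rw [hxy]; positivity))
  obtain ⟨u, hu, hu'⟩ := hsurj y hy (Submodule.subset_span (by simp))
  obtain ⟨t, ht, ht'⟩ := hsurj z hz hzs
  have hy1 : ∀ p, p ≠ 0 → D p y = D p (c (π/2)) := by
    intro p hp
    have h1 : |u| = π / 2 := by
      have := h.congr_right hx (hc0 u) hy hu'
      rw [hxy, ← h.congr_left (hc0 0) hx (hc0 u) hcx, hiso 0 u (by simpa using hu), zero_sub,
        abs_neg] at this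
      exact this
    rcases abs_eq (by positivity : (0:ℝ) ≤ π / 2) |>.1 h1 with h2 | h2
    · rw [← h.congr_right hp (hc0 u) hy hu', h2]
    · rw [← h.congr_right hp (hc0 u) hy hu', h2]
      have := hper (-(π/2))
      rw [show -(π / 2) + π = π / 2 by ring] at this
      exact (h.congr_right hp (hc0 _) (hc0 _) this).symm
  have e1 : D x z = |t| := by
    rw [← h.congr_right hx (hc0 t) hz ht', ← h.congr_left (hc0 0) hx (hc0 t) hcx,
      hiso 0 t (by simpa using ht), zero_sub, abs_neg]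
  have e2 : D z y = π / 2 - |t| := by
    rw [hy1 z hz, ← h.congr_left (hc0 t) hz (hc0 _) ht']
    have ht1 := (abs_le.1 ht)
    rcases le_total 0 t with h0 | h0
    · rw [hiso t (π/2) (by rw [abs_le]; constructor <;> linarith), abs_of_nonpos (by linarith),
        abs_of_nonneg h0]; ring
    · have := hper (-(π/2))
      rw [show -(π / 2) + π = π / 2 by ring] at this
      rw [h.congr_right (hc0 t) (hc0 _) (hc0 _) this,
        hiso t (-(π/2)) (by rw [abs_le]; constructor <;> linarith), abs_of_nonneg (by linarith),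
        abs_of_nonpos h0]; ring
  rw [e1, e2]; ring

/-- the antipode on a line is unique -/
theorem antipode_unique {x y z : E3} (hx : x ≠ 0) (hy : y ≠ 0) (hz : z ≠ 0) (hxy : D x y = π / 2)
    (hxz : D x z = π / 2) (hzs : z ∈ Submodule.span ℝ {x, y}) : D z y = 0 := by
  have := h.add_antipode hx hy hz hxy hzs
  linarith

theorem exists_antipode {x y : E3} (hx : x ≠ 0) (hxy : ¬ ∃ c : ℝ, y = c • x) :
    ∃ e, e ≠ 0 ∧ e ∈ Submodule.span ℝ {x, y} ∧ D x e = π / 2 := by
  obtain ⟨c, hc0, hcx, hiso, -, -, hmem⟩ := h.circ hx hxy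
  refine ⟨c (π/2), hc0 _, hmem _, ?_⟩
  have hpi := Real.pi_pos
  rw [← h.congr_left (hc0 0) hx (hc0 _) hcx, hiso 0 (π/2) (by rw [zero_sub, abs_neg,
    abs_of_pos (by positivity)]), zero_sub, abs_neg, abs_of_pos (by positivity)]

/-- Points of a line at a given distance of `x`. -/
theorem two_points {x y : E3} (hx : x ≠ 0) (hxy : ¬ ∃ c : ℝ, y = c • x) :
    ∃ c : ℝ → E3, (∀ t, c t ≠ 0) ∧ (∀ s t, |s - t| ≤ π / 2 → D (c s) (c t) = |s - t|) ∧
      (∀ t, D (c (t + π)) (c t) = 0) ∧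
      ∀ z, z ≠ 0 → z ∈ Submodule.span ℝ {x, y} → D (c (D x z)) z = 0 ∨ D (c (-D x z)) z = 0 := by
  obtain ⟨c, hc0, hcx, hiso, hper, hsurj, -⟩ := h.circ hx hxy
  refine ⟨c, hc0, hiso, hper, ?_⟩
  intro z hz hzs
  obtain ⟨u, hu, hu'⟩ := hsurj z hz hzs
  have e1 : D x z = |u| := by
    rw [← h.congr_right hx (hc0 u) hz hu', ← h.congr_left (hc0 0) hx (hc0 u) hcx,
      hiso 0 u (by simpa using hu), zero_sub, abs_neg]
  rw [e1]
  rcases le_total 0 u with h0 | h0
  · left; rwa [abs_of_nonneg h0]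
  · right; rwa [abs_of_nonpos h0, neg_neg]

theorem three_points {x y p q r : E3} (hx : x ≠ 0) (hxy : ¬ ∃ c : ℝ, y = c • x) (hp : p ≠ 0)
    (hq : q ≠ 0) (hr : r ≠ 0) (hps : p ∈ Submodule.span ℝ {x, y})
    (hqs : q ∈ Submodule.span ℝ {x, y}) (hrs : r ∈ Submodule.span ℝ {x, y})
    (h1 : D x p = D x q) (h2 : D x p = D x r) : D p q = 0 ∨ D q r = 0 ∨ D p r = 0 := by
  obtain ⟨c, hc0, hiso, hper, hc⟩ := h.two_points hx hxy
  have comb : ∀ {s t w : E3}, s ≠ 0 → t ≠ 0 → w ≠ 0 → D w s = 0 → D w t = 0 → D s t = 0 := by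
    intro s t w hs ht hw h3 h4
    rw [← h.congr_left hw hs ht h3, h4]
  have kp := hc p hp hps
  have kq := hc q hq hqs
  have kr := hc r hr hrs
  rw [← h1] at kq
  rw [← h2] at kr
  rcases kp with kp | kp <;> rcases kq with kq | kq
  · left; exact comb hp hq (hc0 _) kp kq
  · rcases kr with kr | kr
    · right; right; exact comb hp hr (hc0 _) kp kr
    · right; left; exact comb hq hr (hc0 _) kq kr
  · rcases kr with kr | kr
    · right; left; exact comb hq hr (hc0 _) kq kr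
    · right; right; exact comb hp hr (hc0 _) kp kr
  · left; exact comb hp hq (hc0 _) kp kq

theorem two_points_dist {x y p q : E3} (hx : x ≠ 0) (hxy : ¬ ∃ c : ℝ, y = c • x) (hp : p ≠ 0)
    (hq : q ≠ 0) (hps : p ∈ Submodule.span ℝ {x, y})
    (hqs : q ∈ Submodule.span ℝ {x, y}) (h1 : D x p = D x q) (hpq : D p q ≠ 0) :
    (D x p ≤ π / 4 → D p q = 2 * D x p) ∧ (π / 4 ≤ D x p → D p q = π - 2 * D x p) := by
  have hpi := Real.pi_pos
  obtain ⟨c, hc0, hiso, hper, hc⟩ := h.two_points hx hxy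
  have kp := hc p hp hps
  have kq := hc q hq hqs
  rw [← h1] at kq
  set a := D x p with ha
  have ha0 : 0 ≤ a := h.nonneg hx hp
  have ha1 : a ≤ π / 2 := h.le_half_pi hx hp
  have comb : ∀ {s t w : E3}, s ≠ 0 → t ≠ 0 → w ≠ 0 → D w s = 0 → D w t = 0 → D s t = 0 := by
    intro s t w hs ht hw h3 h4
    rw [← h.congr_left hw hs ht h3, h4]
  have key : D p q = D (c a) (c (-a)) := by
    rcases kp with kp | kp <;> rcases kq with kq | kq
    · exact absurd (comb hp hq (hc0 _) kp kq) hpq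
    · rw [h.congr_left (hc0 a) hp (hc0 _) kp, h.congr_right hp (hc0 _) hq kq]
    · rw [h.symm hp hq, h.congr_left (hc0 a) hq (hc0 _) kq, h.congr_right hq (hc0 _) hp kp]
    · exact absurd (comb hp hq (hc0 _) kp kq) hpq
  constructor
  · intro h4
    rw [key, hiso a (-a) (by rw [abs_le]; constructor <;> linarith), abs_of_nonneg (by linarith)]
    ring
  · intro h4
    rw [key, ← h.congr_right (hc0 a) (hc0 _) (hc0 _) (hper (-a)),
      hiso a (-a + π) (by rw [abs_le]; constructor <;> linarith), abs_of_nonpos (by linarith)]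
    ring

end Ell

end Pool.Agent.MP_7a5b4a_gt
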