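import Pool.Agent.MP_7a5b4a_gt.EllBasic

/-!
# An elliptic-type metric with the standard polarity is the standard metric
-/

open Filter Topology Set
open scoped Real

namespace Pool.Agent.MP_7a5b4a_gt

theorem tendsto_cos_pow (θ : ℝ) :
    Tendsto (fun n : ℕ => Real.cos (θ / (n + 1)) ^ (n + 1)) atTop (𝓝 1) := by
  have hlow : Tendsto (fun n : ℕ => 1 - θ ^ 2 / 2 * (1 / ((n : ℝ) + 1))) atTop (𝓝 1) := by
    have := (tendsto_one_div_add_atTop_nhds_zero_nat (𝕜 := ℝ)).const_mul (θ ^ 2 / 2)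
    have := this.const_sub 1
    simpa using this
  have hbig : ∀ᶠ n : ℕ in atTop, |θ| ≤ (n : ℝ) + 1 := by
    filter_upwards [eventually_ge_atTop ⌈|θ|⌉₊] with n hn
    have := Nat.le_ceil |θ|
    have h2 : ((⌈|θ|⌉₊ : ℕ) : ℝ) ≤ n := by exact_mod_cast hn
    linarith
  refine tendsto_of_tendsto_of_tendsto_of_le_of_le' hlow tendsto_const_nhds ?_ ?_
  · filter_upwards [hbig] with n hn
    have hn0 : (0:ℝ) < (n : ℝ) + 1 := by positivity
    set ε := θ / ((n : ℝ) + 1) with hε
    have h1 : 1 - ε ^ 2 / 2 ≤ Real.cos ε := Real.one_sub_sq_div_two_le_cos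
    have hε1 : ε ^ 2 ≤ 1 := by
      rw [hε, div_pow, div_le_one (by positivity)]
      have := abs_nonneg θ
      rw [← sq_abs θ]
      nlinarith
    have h2 : (0:ℝ) ≤ 1 - ε ^ 2 / 2 := by linarith
    have h3 : (1 + (-(ε ^ 2 / 2))) ^ (n + 1) ≤ Real.cos ε ^ (n + 1) := by
      refine pow_le_pow_left₀ (by linarith) (by linarith) _
    have h4 : 1 + ((n + 1 : ℕ) : ℝ) * (-(ε ^ 2 / 2)) ≤ (1 + (-(ε ^ 2 / 2))) ^ (n + 1) :=
      one_add_mul_le_pow (by linarith) _
    have h5 : 1 + ((n + 1 : ℕ) : ℝ) * (-(ε ^ 2 / 2)) = 1 - θ ^ 2 / 2 * (1 / ((n : ℝ) + 1)) := by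
      rw [hε]; push_cast; field_simp; ring
    linarith
  · filter_upwards [hbig] with n hn
    have hn0 : (0:ℝ) < (n : ℝ) + 1 := by positivity
    have h0 : |θ / ((n : ℝ) + 1)| ≤ 1 := by
      rw [abs_div, abs_of_pos hn0, div_le_one hn0]; exact hn
    refine pow_le_one₀ ?_ (Real.cos_le_one _)
    apply Real.cos_nonneg_of_neg_pi_div_two_le_of_le
    · have := (abs_le.1 h0).1; linarith [Real.pi_gt_three]
    · have := (abs_le.1 h0).2; linarith [Real.pi_gt_three]

namespace Ell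

variable {D : E3 → E3 → ℝ} (h : Ell D)

/-- an orthonormal triple -/
structure Ortho (x z w : E3) : Prop where
  xx : inner ℝ x x = (1 : ℝ)
  zz : inner ℝ z z = (1 : ℝ)
  ww : inner ℝ w w = (1 : ℝ)
  xz : inner ℝ x z = (0 : ℝ)
  xw : inner ℝ x w = (0 : ℝ)
  zw : inner ℝ z w = (0 : ℝ)

theorem Ortho.zx {x z w : E3} (ho : Ortho x z w) : inner ℝ z x = (0 : ℝ) := by
  rw [real_inner_comm]; exact ho.xz
theorem Ortho.wx {x z w : E3} (ho : Ortho x z w) : inner ℝ w x = (0 : ℝ) := by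
  rw [real_inner_comm]; exact ho.xw
theorem Ortho.wz {x z w : E3} (ho : Ortho x z w) : inner ℝ w z = (0 : ℝ) := by
  rw [real_inner_comm]; exact ho.zw

theorem Ortho.rot {x z w : E3} (ho : Ortho x z w) (θ : ℝ) :
    Ortho x (Real.cos θ • z + Real.sin θ • w) (-Real.sin θ • z + Real.cos θ • w) := by
  have hcs := Real.sin_sq_add_cos_sq θ
  constructor
  · exact ho.xx
  · simp only [inner_add_left, inner_add_right, real_inner_smul_left, real_inner_smul_right, ho.zz,
      ho.ww, ho.zw, ho.wz]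
    linear_combination hcs
  · simp only [inner_add_left, inner_add_right, real_inner_smul_left, real_inner_smul_right, ho.zz,
      ho.ww, ho.zw, ho.wz]
    linear_combination hcs
  · simp only [inner_add_right, real_inner_smul_right, ho.xz, ho.xw]; ring
  · simp only [inner_add_right, real_inner_smul_right, ho.xz, ho.xw]; ring
  · simp only [inner_add_left, inner_add_right, real_inner_smul_left, real_inner_smul_right, ho.zz,
      ho.ww, ho.zw, ho.wz]
    ring

theorem ne_zero_of_inner {x y : E3} (hxy : inner ℝ x y ≠ (0 : ℝ)) : x ≠ 0 := by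
  rintro rfl; simp at hxy

include h

/-- The key inequality. -/
theorem key_ineq (hpol : ∀ v w, v ≠ 0 → w ≠ 0 → (D v w = π / 2 ↔ inner ℝ v w = (0 : ℝ)))
    {x z w : E3} (ho : Ortho x z w) {τ ε : ℝ} (hε : Real.cos ε ≠ 0) :
    D x (x + τ • z) ≤ D x (x + (τ / Real.cos ε) • (Real.cos ε • z + Real.sin ε • w)) := by
  set y' := -τ • x + z with hy'
  set y := x + τ • z with hy
  set Y := x + (τ / Real.cos ε) • (Real.cos ε • z + Real.sin ε • w) with hY
  have hx0 : x ≠ 0 := ne_zero_of_inner (y := x) (by rw [ho.xx]; norm_num)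
  have hy0 : y ≠ 0 := ne_zero_of_inner (y := x) (by
    simp only [hy, inner_add_left, real_inner_smul_left, ho.xx, ho.zx]; norm_num)
  have hY0 : Y ≠ 0 := ne_zero_of_inner (y := x) (by
    simp only [hY, inner_add_left, real_inner_smul_left, ho.xx, ho.zx, ho.wx]; norm_num)
  have hy'0 : y' ≠ 0 := ne_zero_of_inner (y := z) (by
    simp only [hy', inner_add_left, real_inner_smul_left, ho.zz, ho.xz]; norm_num)
  have e1 : D y y' = π / 2 := by
    rw [hpol y y' hy0 hy'0]
    simp only [hy, hy', inner_add_left, inner_add_right, real_inner_smul_left,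
      real_inner_smul_right, ho.xx, ho.zx, ho.xz, ho.zz]
    ring
  have e2 : D Y y' = π / 2 := by
    rw [hpol Y y' hY0 hy'0]
    simp only [hY, hy', inner_add_left, inner_add_right, real_inner_smul_left,
      real_inner_smul_right, ho.xx, ho.zx, ho.xz, ho.zz, ho.wx, ho.wz]
    field_simp
    ring
  have hmem : x ∈ Submodule.span ℝ {y, y'} := by
    rw [Submodule.mem_span_pair]
    refine ⟨1 / (1 + τ ^ 2), -τ / (1 + τ ^ 2), ?_⟩
    have h2 : (1 + τ ^ 2) ≠ 0 := by positivity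
    rw [hy, hy', smul_add, smul_add, smul_smul, smul_smul]
    have e3 : (1 / (1 + τ ^ 2)) • x + (1 / (1 + τ ^ 2) * τ) • z +
        ((-τ / (1 + τ ^ 2) * -τ) • x + (-τ / (1 + τ ^ 2)) • z) =
        (1 / (1 + τ ^ 2) + -τ / (1 + τ ^ 2) * -τ) • x +
        (1 / (1 + τ ^ 2) * τ + -τ / (1 + τ ^ 2)) • z := by module
    rw [e3]
    have e4 : 1 / (1 + τ ^ 2) + -τ / (1 + τ ^ 2) * -τ = 1 := by field_simp
    have e5 : 1 / (1 + τ ^ 2) * τ + -τ / (1 + τ ^ 2) = 0 := by field_simp; ring
    rw [e4, e5]; simp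
  have e3 := h.add_antipode hy0 hy'0 hx0 e1 hmem
  have e4 := h.tri hY0 hx0 hy'0
  rw [e2] at e4
  rw [h.symm hx0 hy0, h.symm hx0 hY0]
  linarith

theorem ray_ineq (hpol : ∀ v w, v ≠ 0 → w ≠ 0 → (D v w = π / 2 ↔ inner ℝ v w = (0 : ℝ)))
    {x z w : E3} (ho : Ortho x z w) (τ ε : ℝ) (hε : 0 < Real.cos ε) (n : ℕ) :
    D x (x + τ • z) ≤
      D x (x + (τ / Real.cos ε ^ n) • (Real.cos (n * ε) • z + Real.sin (n * ε) • w)) := by
  induction n with
  | zero => simp
  | succ n ih =>
    refine ih.trans ?_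
    have h1 := h.key_ineq hpol (ho.rot (n * ε)) (τ := τ / Real.cos ε ^ n) (ε := ε) hε.ne'
    refine h1.trans (le_of_eq ?_)
    congr 2
    have e1 : τ / Real.cos ε ^ n / Real.cos ε = τ / Real.cos ε ^ (n + 1) := by
      rw [div_div, pow_succ]
    rw [e1]
    congr 1
    push_cast
    rw [add_mul, one_mul, Real.cos_add, Real.sin_add]
    module

/-- rotational symmetry (half turn) -/
theorem half_turn_le (hpol : ∀ v w, v ≠ 0 → w ≠ 0 → (D v w = π / 2 ↔ inner ℝ v w = (0 : ℝ)))
    {x z w : E3} (ho : Ortho x z w) (τ : ℝ) : D x (x + τ • z) ≤ D x (x + τ • (-z)) := by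
  have hx0 : x ≠ 0 := ne_zero_of_inner (y := x) (by rw [ho.xx]; norm_num)
  have hne : ∀ s : ℝ, x + s • (-z) ≠ 0 := fun s => ne_zero_of_inner (y := x) (by
    simp only [inner_add_left, real_inner_smul_left, inner_neg_left, ho.xx, ho.zx]; norm_num)
  have hev : ∀ᶠ n : ℕ in atTop, D x (x + τ • z) ≤
      D x (x + (τ / Real.cos (π / (n + 1)) ^ (n + 1)) • (-z)) := by
    filter_upwards [eventually_ge_atTop 2] with n hn
    have hn' : (2:ℝ) ≤ n := by exact_mod_cast hn
    have hcos : 0 < Real.cos (π / (n + 1)) := by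
      apply Real.cos_pos_of_mem_Ioo
      constructor
      · have : 0 < π / ((n:ℝ) + 1) := by positivity
        linarith [Real.pi_pos]
      · rw [div_lt_div_iff₀ (by positivity) (by norm_num)]
        nlinarith [Real.pi_pos]
    have h1 := h.ray_ineq hpol ho τ (π / (n + 1)) hcos (n + 1)
    have h2 : ((n + 1 : ℕ) : ℝ) * (π / (n + 1)) = π := by push_cast; field_simp
    rw [h2, Real.cos_pi, Real.sin_pi] at h1
    simpa using h1
  have hlim : Tendsto (fun n : ℕ => D x (x + (τ / Real.cos (π / (n + 1)) ^ (n + 1)) • (-z))) atTop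
      (𝓝 (D x (x + τ • (-z)))) := by
    have h1 : Tendsto (fun n : ℕ => τ / Real.cos (π / (n + 1)) ^ (n + 1)) atTop (𝓝 (τ / 1)) :=
      tendsto_const_nhds.div (tendsto_cos_pow π) one_ne_zero
    rw [div_one] at h1
    have h2 : Tendsto (fun n : ℕ => x + (τ / Real.cos (π / (n + 1)) ^ (n + 1)) • (-z)) atTop
        (𝓝 (x + τ • (-z))) := (h1.smul_const _).const_add x
    have h3 := h.cont (x, x + τ • (-z)) ⟨hx0, hne τ⟩
    have h4 : Tendsto (fun n : ℕ => ((x, x + (τ / Real.cos (π / (n + 1)) ^ (n + 1)) • (-z)) :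
        E3 × E3)) atTop (𝓝[{0}ᶜ ×ˢ {0}ᶜ] (x, x + τ • (-z))) := by
      rw [tendsto_nhdsWithin_iff]
      exact ⟨tendsto_const_nhds.prodMk_nhds h2, Eventually.of_forall fun n => ⟨hx0, hne _⟩⟩
    exact h3.tendsto.comp h4
  exact ge_of_tendsto hlim hev

theorem half_turn (hpol : ∀ v w, v ≠ 0 → w ≠ 0 → (D v w = π / 2 ↔ inner ℝ v w = (0 : ℝ)))
    {x z w : E3} (ho : Ortho x z w) (τ : ℝ) : D x (x + τ • z) = D x (x + τ • (-z)) := by
  apply le_antisymm (h.half_turn_le hpol ho τ)
  have ho' : Ortho x (-z) w := by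
    have := ho
    constructor
    · exact ho.xx
    · rw [inner_neg_neg]; exact ho.zz
    · exact ho.ww
    · simp [ho.xz]
    · exact ho.xw
    · simp [ho.zw]
  have := h.half_turn_le hpol ho' τ
  rwa [neg_neg] at this

omit h in
theorem inner_eq3 (v w : E3) : inner ℝ v w = v 0 * w 0 + v 1 * w 1 + v 2 * w 2 := by
  simp only [PiLp.inner_apply, Fin.sum_univ_three]
  show w 0 * v 0 + w 1 * v 1 + w 2 * v 2 = _
  ring

omit h in
theorem exists_ortho {x z : E3} (xx : inner ℝ x x = (1 : ℝ)) (zz : inner ℝ z z = (1 : ℝ))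
    (xz : inner ℝ x z = (0 : ℝ)) : ∃ w, Ortho x z w := by
  refine ⟨!₂[x 1 * z 2 - x 2 * z 1, x 2 * z 0 - x 0 * z 2, x 0 * z 1 - x 1 * z 0],
    xx, zz, ?_, xz, ?_, ?_⟩
  · rw [inner_eq3] at *
    show (x 1 * z 2 - x 2 * z 1) * (x 1 * z 2 - x 2 * z 1) +
      (x 2 * z 0 - x 0 * z 2) * (x 2 * z 0 - x 0 * z 2) +
      (x 0 * z 1 - x 1 * z 0) * (x 0 * z 1 - x 1 * z 0) = 1
    have : (x 1 * z 2 - x 2 * z 1) * (x 1 * z 2 - x 2 * z 1) +
      (x 2 * z 0 - x 0 * z 2) * (x 2 * z 0 - x 0 * z 2) +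
      (x 0 * z 1 - x 1 * z 0) * (x 0 * z 1 - x 1 * z 0) =
      (x 0 * x 0 + x 1 * x 1 + x 2 * x 2) * (z 0 * z 0 + z 1 * z 1 + z 2 * z 2) -
      (x 0 * z 0 + x 1 * z 1 + x 2 * z 2) ^ 2 := by ring
    rw [this, xx, zz, xz]; norm_num
  · rw [inner_eq3]
    show x 0 * (x 1 * z 2 - x 2 * z 1) + x 1 * (x 2 * z 0 - x 0 * z 2) +
      x 2 * (x 0 * z 1 - x 1 * z 0) = 0
    ring
  · rw [inner_eq3]
    show z 0 * (x 1 * z 2 - x 2 * z 1) + z 1 * (x 2 * z 0 - x 0 * z 2) +
      z 2 * (x 0 * z 1 - x 1 * z 0) = 0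
    ring

/-- the point at angle `s` of `x` on the great circle through `x` and `z` -/
noncomputable def pt (x z : E3) (s : ℝ) : E3 := Real.cos s • x + Real.sin s • z

omit h in
theorem pt_zero (x z : E3) : pt x z 0 = x := by simp [pt]

omit h in
theorem pt_continuous (x z : E3) : Continuous (pt x z) := by
  unfold pt; fun_prop

/-- orthonormal pair -/
structure Pair (x z : E3) : Prop where
  xx : inner ℝ x x = (1 : ℝ)
  zz : inner ℝ z z = (1 : ℝ)
  xz : inner ℝ x z = (0 : ℝ)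

omit h in
theorem Pair.zx {x z : E3} (hp : Pair x z) : inner ℝ z x = (0 : ℝ) := by
  rw [real_inner_comm]; exact hp.xz

omit h in
theorem Pair.pt {x z : E3} (hp : Pair x z) (s : ℝ) : Pair (pt x z s) (pt z (-x) s) := by
  have hcs := Real.sin_sq_add_cos_sq s
  constructor
  · simp only [Ell.pt, inner_add_left, inner_add_right, real_inner_smul_left,
      real_inner_smul_right, hp.xx, hp.zz, hp.xz, hp.zx]
    linear_combination hcs
  · simp only [Ell.pt, inner_add_left, inner_add_right, real_inner_smul_left,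
      real_inner_smul_right, inner_neg_left, inner_neg_right, hp.xx, hp.zz, hp.xz, hp.zx]
    linear_combination hcs
  · simp only [Ell.pt, inner_add_left, inner_add_right, real_inner_smul_left,
      real_inner_smul_right, inner_neg_left, inner_neg_right, hp.xx, hp.zz, hp.xz, hp.zx]
    ring

omit h in
theorem Pair.flip {x z : E3} (hp : Pair x z) : Pair x (-z) := by
  refine ⟨hp.xx, ?_, ?_⟩
  · rw [inner_neg_neg]; exact hp.zz
  · rw [inner_neg_right, hp.xz, neg_zero]

omit h in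
theorem pt_add (x z : E3) (s t : ℝ) : pt x z (s + t) = pt (pt x z s) (pt z (-x) s) t := by
  simp only [pt, Real.cos_add, Real.sin_add]
  module

omit h in
theorem Pair.ne_zero {x z : E3} (hp : Pair x z) : x ≠ 0 :=
  ne_zero_of_inner (y := x) (by rw [hp.xx]; norm_num)

omit h in
theorem Pair.not_smul {x z : E3} (hp : Pair x z) : ¬ ∃ c : ℝ, z = c • x := by
  rintro ⟨c, hc⟩
  have h1 := hp.xz
  rw [hc, real_inner_smul_right, hp.xx, mul_one] at h1
  rw [h1, zero_smul] at hc
  have := hp.zz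
  rw [hc] at this
  simp at this

omit h in
theorem pt_mem (x z : E3) (s : ℝ) : pt x z s ∈ Submodule.span ℝ {x, z} :=
  Submodule.mem_span_pair.2 ⟨_, _, rfl⟩

omit h in
theorem pt_neg (x z : E3) (s : ℝ) : pt x z (-s) = pt x (-z) s := by
  simp [pt]

theorem pt_ne {x z : E3} (hp : Pair x z) {s t : ℝ} (hst : s ≠ t) (h1 : |t - s| < π) :
    D (pt x z s) (pt x z t) ≠ 0 := by
  intro h0
  obtain ⟨c, hc⟩ := (h.zero_iff (hp.pt s).ne_zero (hp.pt t).ne_zero).1 h0
  have e1 : Real.cos t = c * Real.cos s := by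
    have := congrArg (fun v => inner ℝ x v) hc
    simpa only [pt, inner_add_right, real_inner_smul_right, hp.xx, hp.xz, mul_one, mul_zero,
      add_zero, smul_add, smul_smul] using this
  have e2 : Real.sin t = c * Real.sin s := by
    have := congrArg (fun v => inner ℝ z v) hc
    simpa only [pt, inner_add_right, real_inner_smul_right, hp.zz, hp.zx, mul_one, mul_zero,
      zero_add, smul_add, smul_smul] using this
  have e3 : Real.sin (t - s) = 0 := by
    rw [Real.sin_sub, e1, e2]; ring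
  rw [abs_lt] at h1
  exact hst (by linarith [(Real.sin_eq_zero_iff_of_lt_of_lt h1.1 h1.2).1 e3])

theorem dist_flip (hpol : ∀ v w, v ≠ 0 → w ≠ 0 → (D v w = π / 2 ↔ inner ℝ v w = (0 : ℝ)))
    {x z : E3} (hp : Pair x z) {s : ℝ} (hs : 0 < Real.cos s) :
    D x (pt x z s) = D x (pt x (-z) s) := by
  obtain ⟨w, ho⟩ := exists_ortho hp.xx hp.zz hp.xz
  have h1 : ∀ z', Real.cos s • (x + Real.tan s • z') = pt x z' s := by
    intro z'
    rw [pt, smul_add, smul_smul, Real.tan_eq_sin_div_cos, mul_div_cancel₀ _ hs.ne']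
  have hne : ∀ z', inner ℝ z' x = (0:ℝ) → x + Real.tan s • z' ≠ 0 := fun z' hz' =>
    ne_zero_of_inner (y := x) (by
      simp only [inner_add_left, real_inner_smul_left, ho.xx, hz']; norm_num)
  rw [← h1, ← h1, h.smul_right hp.ne_zero (hne z hp.zx) hs.ne',
    h.smul_right hp.ne_zero (hne (-z) (by simp [hp.zx])) hs.ne']
  exact h.half_turn hpol ho _

theorem dist_cont {x z : E3} (hp : Pair x z) : Continuous (fun s => D x (pt x z s)) := by
  rw [continuous_iff_continuousAt]
  intro s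
  have h3 := h.cont (x, pt x z s) ⟨hp.ne_zero, (hp.pt s).ne_zero⟩
  have h4 : Tendsto (fun s => ((x, pt x z s) : E3 × E3)) (𝓝 s)
      (𝓝[{0}ᶜ ×ˢ {0}ᶜ] (x, pt x z s)) := by
    rw [tendsto_nhdsWithin_iff]
    exact ⟨tendsto_const_nhds.prodMk_nhds ((pt_continuous x z).tendsto s),
      Eventually.of_forall fun t => ⟨hp.ne_zero, (hp.pt t).ne_zero⟩⟩
  exact h3.tendsto.comp h4

/-- halving step -/
theorem halving (hpol : ∀ v w, v ≠ 0 → w ≠ 0 → (D v w = π / 2 ↔ inner ℝ v w = (0 : ℝ)))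
    {δ : ℝ} (hδ : 0 < δ) (hδ4 : δ ≤ π / 4)
    (ih : ∀ x z, Pair x z → D x (pt x z (2 * δ)) = 2 * δ) {x z : E3} (hp : Pair x z) :
    (D x (pt x z δ) ≤ π / 4 → D x (pt x z δ) = δ) ∧
      (π / 4 ≤ D x (pt x z δ) → D x (pt x z δ) = π / 2 - δ) := by
  have hpi := Real.pi_pos
  have hcos : 0 < Real.cos δ := Real.cos_pos_of_mem_Ioo ⟨by linarith, by linarith⟩
  have hflip := h.dist_flip hpol hp hcos
  -- the pair at `pt x (-z) δ = pt x z (-δ)`
  have h1 : pt x z δ = pt (pt x z (-δ)) (pt z (-x) (-δ)) (2 * δ) := by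
    rw [← pt_add]; congr 1; ring
  have h2 : D (pt x z (-δ)) (pt x z δ) = 2 * δ := by
    rw [h1]; exact ih _ _ (hp.pt (-δ))
  have h3 := h.two_points_dist (x := x) (y := z) hp.ne_zero hp.not_smul (hp.pt (-δ)).ne_zero
    (hp.pt δ).ne_zero (pt_mem x z _) (pt_mem x z _) (by rw [pt_neg]; exact hflip.symm)
    (by rw [h2]; positivity)
  rw [h2, pt_neg, ← hflip] at h3
  constructor
  · intro h4; linarith [h3.1 h4]
  · intro h4; linarith [h3.2 h4]

theorem dyadic (hpol : ∀ v w, v ≠ 0 → w ≠ 0 → (D v w = π / 2 ↔ inner ℝ v w = (0 : ℝ))) (n : ℕ) :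
    ∀ x z, Pair x z → D x (pt x z (π / 2 ^ (n + 1))) = π / 2 ^ (n + 1) := by
  have hpi := Real.pi_pos
  have base : ∀ x z, Pair x z → D x (pt x z (2 * (π / 4))) = 2 * (π / 4) := by
    intro x z hp
    have e : 2 * (π / 4) = π / 2 := by ring
    rw [e]
    have : pt x z (π / 2) = z := by simp [pt]
    rw [this, hpol x z hp.ne_zero (ne_zero_of_inner (y := z) (by rw [hp.zz]; norm_num))]
    exact hp.xz
  have quarter : ∀ x z, Pair x z → D x (pt x z (π / 4)) = π / 4 := by
    intro x z hp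
    have h1 := h.halving hpol (δ := π / 4) (by positivity) le_rfl base hp
    rcases le_total (D x (pt x z (π / 4))) (π / 4) with h2 | h2
    · exact h1.1 h2
    · have := h1.2 h2; linarith
  have step : ∀ m : ℕ, ∀ x z, Pair x z → D x (pt x z (π / 2 ^ (m + 2))) = π / 2 ^ (m + 2) := by
    intro m
    induction m with
    | zero =>
      intro x z hp
      have e : π / 2 ^ (0 + 2) = π / 4 := by norm_num
      rw [e]; exact quarter x z hp
    | succ m ih =>
      intro x z hp
      set δ := π / 2 ^ (m + 1 + 2) with hδ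
      have h2δ : 2 * δ = π / 2 ^ (m + 2) := by
        rw [hδ, show m + 1 + 2 = m + 2 + 1 by ring, pow_succ]
        field_simp
      have hδ0 : 0 < δ := by positivity
      have hpow : (4:ℝ) ≤ 2 ^ (m + 2) := by
        have : (1:ℝ) ≤ 2 ^ m := one_le_pow₀ (by norm_num)
        rw [pow_add]; linarith
      have hδ8 : δ ≤ π / 8 := by
        have : 2 * δ ≤ π / 4 := by
          rw [h2δ]; exact div_le_div_of_nonneg_left hpi.le (by norm_num) hpow
        linarith
      have h1 := h.halving hpol hδ0 (by linarith) (by rw [h2δ]; exact ih) hp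
      rcases le_or_gt (D x (pt x z δ)) (π / 4) with h2 | h2
      · exact h1.1 h2
      · exfalso
        have hc := h.dist_cont hp
        have h0 : D x (pt x z 0) = 0 := by rw [pt_zero]; exact h.self hp.ne_zero
        have hmem : π / 4 ∈ Icc (D x (pt x z 0)) (D x (pt x z δ)) := by
          rw [h0]; exact ⟨by positivity, h2.le⟩
        obtain ⟨s, hs, hs'⟩ := intermediate_value_Icc hδ0.le hc.continuousOn hmem
        simp only at hs'
        have e1 : D x (pt x z (-(π/4))) = π / 4 := by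
          rw [pt_neg]; exact quarter x (-z) hp.flip
        have e2 := quarter x z hp
        rcases h.three_points (x := x) (y := z) (p := pt x z s) (q := pt x z (π/4))
          (r := pt x z (-(π/4))) hp.ne_zero hp.not_smul (hp.pt _).ne_zero (hp.pt _).ne_zero
          (hp.pt _).ne_zero (pt_mem _ _ _) (pt_mem _ _ _) (pt_mem _ _ _) (by rw [hs', e2])
          (by rw [hs', e1]) with h3 | h3 | h3
        · exact h.pt_ne hp (by linarith [hs.2]) (by
            rw [abs_lt]; constructor <;> linarith [hs.1, hs.2]) h3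
        · exact h.pt_ne hp (by linarith) (by
            rw [abs_lt]; constructor <;> linarith) h3
        · exact h.pt_ne hp (by linarith [hs.1]) (by
            rw [abs_lt]; constructor <;> linarith [hs.1, hs.2]) h3
  intro x z hp
  rcases n with _ | m
  · have e : π / 2 ^ (0 + 1) = 2 * (π / 4) := by norm_num; ring
    rw [e]; exact base x z hp
  · exact step m x z hp

theorem chain_le (hpol : ∀ v w, v ≠ 0 → w ≠ 0 → (D v w = π / 2 ↔ inner ℝ v w = (0 : ℝ))) (n : ℕ)
    {x z : E3} (hp : Pair x z) (j : ℕ) :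
    D x (pt x z (j * (π / 2 ^ (n + 1)))) ≤ j * (π / 2 ^ (n + 1)) := by
  induction j with
  | zero => simp [pt_zero, h.self hp.ne_zero]
  | succ j ih =>
    have h1 := h.tri hp.ne_zero (hp.pt (j * (π / 2 ^ (n + 1)))).ne_zero
      (hp.pt ((j + 1 : ℕ) * (π / 2 ^ (n + 1)))).ne_zero
    have h2 : pt x z ((j + 1 : ℕ) * (π / 2 ^ (n + 1))) =
        pt (pt x z (j * (π / 2 ^ (n + 1)))) (pt z (-x) (j * (π / 2 ^ (n + 1))))
          (π / 2 ^ (n + 1)) := by
      rw [← pt_add]; congr 1; push_cast; ring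
    have h3 := h.dyadic hpol n _ _ (hp.pt (j * (π / 2 ^ (n + 1))))
    rw [← h2] at h3
    push_cast at *
    linarith

theorem dist_dyadic (hpol : ∀ v w, v ≠ 0 → w ≠ 0 → (D v w = π / 2 ↔ inner ℝ v w = (0 : ℝ)))
    (n : ℕ) {x z : E3} (hp : Pair x z) {j : ℕ} (hj : j ≤ 2 ^ n) :
    D x (pt x z (j * (π / 2 ^ (n + 1)))) = j * (π / 2 ^ (n + 1)) := by
  apply le_antisymm (h.chain_le hpol n hp j)
  set s := j * (π / 2 ^ (n + 1)) with hs
  have hz0 : z ≠ 0 := ne_zero_of_inner (y := z) (by rw [hp.zz]; norm_num)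
  have hxz : D x z = π / 2 := (hpol x z hp.ne_zero hz0).2 hp.xz
  have h1 := h.add_antipode hp.ne_zero hz0 (hp.pt s).ne_zero hxz (pt_mem x z s)
  have h2 := h.chain_le hpol n (hp.pt s) (2 ^ n - j)
  have h3 : ((2 ^ n - j : ℕ) : ℝ) * (π / 2 ^ (n + 1)) = π / 2 - s := by
    rw [Nat.cast_sub hj, hs]
    push_cast
    rw [sub_mul, pow_succ]
    field_simp
  rw [h3, ← pt_add, show s + (π / 2 - s) = π / 2 by ring] at h2
  have h4 : pt x z (π / 2) = z := by simp [pt]
  rw [h4] at h2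
  linarith

theorem dist_pt (hpol : ∀ v w, v ≠ 0 → w ≠ 0 → (D v w = π / 2 ↔ inner ℝ v w = (0 : ℝ)))
    {x z : E3} (hp : Pair x z) {s : ℝ} (hs0 : 0 ≤ s) (hs1 : s ≤ π / 2) :
    D x (pt x z s) = s := by
  have hpi := Real.pi_pos
  set δ : ℕ → ℝ := fun n => π / 2 ^ (n + 1) with hδ
  have hδ0 : ∀ n, 0 < δ n := fun n => by simp only [hδ]; positivity
  set u : ℕ → ℝ := fun n => (⌊s / δ n⌋₊ : ℝ) * δ n with hu
  have hu1 : ∀ n, u n ≤ s := by
    intro n
    have := Nat.floor_le (div_nonneg hs0 (hδ0 n).le)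
    simp only [hu]
    calc (⌊s / δ n⌋₊ : ℝ) * δ n ≤ s / δ n * δ n := mul_le_mul_of_nonneg_right this (hδ0 n).le
      _ = s := div_mul_cancel₀ _ (hδ0 n).ne'
  have hu2 : ∀ n, s - δ n ≤ u n := by
    intro n
    have := Nat.lt_floor_add_one (s / δ n)
    rw [div_lt_iff₀ (hδ0 n)] at this
    simp only [hu]
    linarith
  have hδlim : Tendsto δ atTop (𝓝 0) := by
    have h1 : Tendsto (fun n : ℕ => (1/2 : ℝ) ^ n) atTop (𝓝 0) :=
      tendsto_pow_atTop_nhds_zero_of_lt_one (by norm_num) (by norm_num)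
    have h2 := h1.const_mul (π / 2)
    rw [mul_zero] at h2
    refine h2.congr ?_
    intro n
    simp only [hδ]
    rw [one_div, inv_pow, pow_succ]
    field_simp
  have hulim : Tendsto u atTop (𝓝 s) := by
    refine tendsto_of_tendsto_of_tendsto_of_le_of_le (g := fun n => s - δ n) (h := fun _ => s)
      ?_ tendsto_const_nhds hu2 hu1
    simpa using hδlim.const_sub s
  have hval : ∀ n, D x (pt x z (u n)) = u n := by
    intro n
    refine h.dist_dyadic hpol n hp ?_
    have h1 := (hu1 n).trans hs1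
    simp only [hu] at h1
    have h2 : π / 2 = 2 ^ n * δ n := by
      simp only [hδ]; rw [pow_succ]; field_simp
    rw [h2] at h1
    have h3 := le_of_mul_le_mul_right h1 (hδ0 n)
    exact_mod_cast h3
  have hlim1 : Tendsto (fun n => D x (pt x z (u n))) atTop (𝓝 (D x (pt x z s))) :=
    ((h.dist_cont hp).tendsto s).comp hulim
  simp only [hval] at hlim1
  exact tendsto_nhds_unique hlim1 hulim

/-- **Theorem.** An elliptic-type metric whose polarity is the standard one is the standard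
metric. -/
theorem round (hpol : ∀ v w, v ≠ 0 → w ≠ 0 → (D v w = π / 2 ↔ inner ℝ v w = (0 : ℝ)))
    {v w : E3} (hv : v ≠ 0) (hw : w ≠ 0) :
    D v w = Real.arccos (|inner ℝ v w| / (‖v‖ * ‖w‖)) := by
  have hnv : 0 < ‖v‖ := norm_pos_iff.2 hv
  have hnw : 0 < ‖w‖ := norm_pos_iff.2 hw
  -- unit vectors
  obtain ⟨x, y, hx1, hy1, hx0, hy0, hD, hin⟩ : ∃ x y : E3, inner ℝ x x = (1:ℝ) ∧
      inner ℝ y y = (1:ℝ) ∧ x ≠ 0 ∧ y ≠ 0 ∧ D v w = D x y ∧
      inner ℝ x y = |inner ℝ v w| / (‖v‖ * ‖w‖) := by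
    set x := ‖v‖⁻¹ • v with hx
    have hxx : inner ℝ x x = (1:ℝ) := by
      rw [hx, real_inner_smul_left, real_inner_smul_right, real_inner_self_eq_norm_sq]
      field_simp
    have hx0 : x ≠ 0 := ne_zero_of_inner (y := x) (by rw [hxx]; norm_num)
    rcases le_total 0 (inner ℝ v w : ℝ) with h0 | h0
    · set y := ‖w‖⁻¹ • w with hy
      have hyy : inner ℝ y y = (1:ℝ) := by
        rw [hy, real_inner_smul_left, real_inner_smul_right, real_inner_self_eq_norm_sq]
        field_simp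
      have hy0 : y ≠ 0 := ne_zero_of_inner (y := y) (by rw [hyy]; norm_num)
      refine ⟨x, y, hxx, hyy, hx0, hy0, ?_, ?_⟩
      · rw [hx, hy, h.smul_left hv (smul_ne_zero (by positivity) hw) (by positivity),
          h.smul_right hv hw (by positivity)]
      · rw [hx, hy, real_inner_smul_left, real_inner_smul_right, abs_of_nonneg h0]
        field_simp
    · set y := (-‖w‖⁻¹) • w with hy
      have hyy : inner ℝ y y = (1:ℝ) := by
        rw [hy, real_inner_smul_left, real_inner_smul_right, real_inner_self_eq_norm_sq]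
        field_simp
      have hy0 : y ≠ 0 := ne_zero_of_inner (y := y) (by rw [hyy]; norm_num)
      have hc : -‖w‖⁻¹ ≠ 0 := neg_ne_zero.2 (by positivity)
      refine ⟨x, y, hxx, hyy, hx0, hy0, ?_, ?_⟩
      · rw [hx, hy, h.smul_left hv (smul_ne_zero hc hw) (by positivity),
          h.smul_right hv hw hc]
      · rw [hx, hy, real_inner_smul_left, real_inner_smul_right, abs_of_nonpos h0]
        field_simp
  rw [hD, ← hin]
  set c : ℝ := inner ℝ x y with hc
  have hc0 : 0 ≤ c := by rw [hin]; positivity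
  set u := y - c • x with hu
  have huu : inner ℝ u u = 1 - c ^ 2 := by
    rw [hu]
    simp only [inner_sub_left, inner_sub_right, real_inner_smul_left, real_inner_smul_right,
      hx1, hy1, real_inner_comm x y, ← hc]
    ring
  have hxu : inner ℝ x u = (0:ℝ) := by
    rw [hu, inner_sub_right, real_inner_smul_right, hx1, ← hc]; ring
  have hc1 : c ^ 2 ≤ 1 := by
    have : (0:ℝ) ≤ inner ℝ u u := real_inner_self_nonneg
    rw [huu] at this; linarith
  have hc1' : c ≤ 1 := by nlinarith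
  by_cases hcc : c = 1
  · have : u = 0 := by
      have h1 : inner ℝ u u = (0:ℝ) := by rw [huu, hcc]; norm_num
      exact inner_self_eq_zero.1 h1
    have hyx : y = x := by
      rw [hu, hcc, one_smul, sub_eq_zero] at this; exact this
    rw [hyx, hcc, Real.arccos_one, h.self hx0]
  · have hlt : c ^ 2 < 1 := by
      have : c < 1 := lt_of_le_of_ne hc1' hcc
      nlinarith
    set r := √(1 - c ^ 2) with hr
    have hr0 : 0 < r := Real.sqrt_pos.2 (by linarith)
    have hr2 : r ^ 2 = 1 - c ^ 2 := Real.sq_sqrt (by linarith)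
    set z := r⁻¹ • u with hz
    have hp : Pair x z := by
      refine ⟨hx1, ?_, ?_⟩
      · rw [hz, real_inner_smul_left, real_inner_smul_right, huu, ← hr2]
        field_simp
      · rw [hz, real_inner_smul_right, hxu, mul_zero]
    have hy : y = pt x z (Real.arccos c) := by
      rw [pt, Real.cos_arccos (by linarith) hc1', Real.sin_arccos, ← hr, hz, smul_smul,
        mul_inv_cancel₀ hr0.ne', one_smul, hu]
      module
    rw [hy, h.dist_pt hpol hp (Real.arccos_nonneg _) ((Real.arccos_le_pi_div_two).2 hc0)]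

end Ell

end Pool.Agent.MP_7a5b4a_gt
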