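import Pool.Agent.MP_7a5b4a_gt.EllPolar
import Pool.Agent.MP_7a5b4a_gt.EllRound

/-!
# Planes of elliptic type with strictly convex circles are elliptic
-/

open Filter Topology Set
open scoped Real LinearAlgebra.Projectivization

namespace Pool.Agent.MP_7a5b4a_gt

theorem exists_common_zero (f g : E3 →ₗ[ℝ] ℝ) : ∃ w, w ≠ 0 ∧ f w = 0 ∧ g w = 0 := by
  have h1 : LinearMap.ker (f.prod g) ≠ ⊥ := by
    apply LinearMap.ker_ne_bot_of_finrank_lt
    simp
  obtain ⟨w, hw, hw0⟩ := (Submodule.ne_bot_iff _).1 h1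
  have hw' : ((f w, g w) : ℝ × ℝ) = 0 := hw
  rw [Prod.mk_eq_zero] at hw'
  exact ⟨w, hw0, hw'.1, hw'.2⟩

theorem smul_of_ker_le {f g : E3 →ₗ[ℝ] ℝ} (h : ∀ w, f w = 0 → g w = 0) :
    ∃ c : ℝ, g = c • f := by
  have h1 : g ∈ Submodule.span ℝ (range (fun _ : Unit => f)) := by
    apply mem_span_of_iInf_ker_le_ker
    intro w hw
    rw [Submodule.mem_iInf] at hw
    exact h w (hw ())
  rw [Set.range_const, Submodule.mem_span_singleton] at h1
  obtain ⟨c, hc⟩ := h1
  exact ⟨c, hc.symm⟩

theorem comb_of_ker_le {f g k : E3 →ₗ[ℝ] ℝ} (h : ∀ w, f w = 0 → g w = 0 → k w = 0) :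
    ∃ a b : ℝ, k = a • f + b • g := by
  have h1 : k ∈ Submodule.span ℝ (range (fun i : Bool => bif i then f else g)) := by
    apply mem_span_of_iInf_ker_le_ker
    intro w hw
    rw [Submodule.mem_iInf] at hw
    exact h w (hw true) (hw false)
  have h2 : range (fun i : Bool => bif i then f else g) = {f, g} := by
    ext x; simp [or_comm, eq_comm]
  rw [h2, Submodule.mem_span_pair] at h1
  obtain ⟨a, b, hab⟩ := h1
  exact ⟨a, b, hab.symm⟩

theorem exists_comb3 {a b c : E2} (habc : area a b c ≠ 0) (v : E3) :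
    ∃ α β γ : ℝ, v = α • hat a + β • hat b + γ • hat c := by
  set D := area a b c with hD
  refine ⟨((b 1 - c 1) * v 0 + (c 0 - b 0) * v 1 + (b 0 * c 1 - b 1 * c 0) * v 2) / D,
    ((c 1 - a 1) * v 0 + (a 0 - c 0) * v 1 + (c 0 * a 1 - c 1 * a 0) * v 2) / D,
    ((a 1 - b 1) * v 0 + (b 0 - a 0) * v 1 + (a 0 * b 1 - a 1 * b 0) * v 2) / D, ?_⟩
  apply E3_ext
  · simp only [PiLp.add_apply, PiLp.smul_apply, smul_eq_mul, hat_zero]
    field_simp
    rw [hD]; simp only [area]; ring
  · simp only [PiLp.add_apply, PiLp.smul_apply, smul_eq_mul, hat_one]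
    field_simp
    rw [hD]; simp only [area]; ring
  · simp only [PiLp.add_apply, PiLp.smul_apply, smul_eq_mul, hat_two]
    field_simp
    rw [hD]; simp only [area]; ring

namespace Ell

variable {D : E3 → E3 → ℝ} (h : Ell D)

include h

theorem continuousAt_pair {v w : E3} (hv : v ≠ 0) (hw : w ≠ 0) {a b : ℕ → E3}
    (ha : Tendsto a atTop (𝓝 v)) (hb : Tendsto b atTop (𝓝 w)) :
    Tendsto (fun n => D (a n) (b n)) atTop (𝓝 (D v w)) := by
  have hopen : IsOpen ({0}ᶜ ×ˢ {0}ᶜ : Set (E3 × E3)) :=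
    isOpen_compl_singleton.prod isOpen_compl_singleton
  have h1 : ContinuousAt (fun x : E3 × E3 => D x.1 x.2) (v, w) :=
    (h.cont (v, w) ⟨hv, hw⟩).continuousAt (hopen.mem_nhds ⟨hv, hw⟩)
  exact h1.tendsto.comp (ha.prodMk_nhds hb)

/-- A polarity given by linear functionals is given by a bilinear form. -/
theorem exists_form (N : E3 → (E3 →ₗ[ℝ] ℝ)) (hN0 : ∀ m, m ≠ 0 → N m ≠ 0)
    (hN : ∀ m, m ≠ 0 → ∀ v, v ≠ 0 → (D m v = π / 2 ↔ N m v = 0)) :
    ∃ T : E3 →ₗ[ℝ] (E3 →ₗ[ℝ] ℝ), Function.Injective T ∧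
      ∀ v w, v ≠ 0 → w ≠ 0 → (D v w = π / 2 ↔ T v w = 0) := by
  have hpi := Real.pi_pos
  -- symmetry of the polarity
  have hsymm : ∀ p q, p ≠ 0 → q ≠ 0 → N p q = 0 → N q p = 0 := by
    intro p q hp hq h0
    rw [← hN q hq p hp, h.symm hq hp, hN p hp q hq]; exact h0
  -- two points with the same polar are equal
  have same : ∀ p q, p ≠ 0 → q ≠ 0 → (∀ w, N p w = 0 → N q w = 0) → D p q = 0 := by
    intro p q hp hq hpq
    by_contra hne
    obtain ⟨e, he, hes, hDe⟩ := h.exists_antipode hp (h.not_smul_of_ne hp hq hne)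
    have h1 : N p e = 0 := (hN p hp e he).1 hDe
    have h2 : D q e = π / 2 := (hN q hq e he).2 (hpq e h1)
    obtain ⟨s, t, hst⟩ := Submodule.mem_span_pair.1 hes
    have ht : t ≠ 0 := by
      rintro rfl
      rw [zero_smul, add_zero] at hst
      have : D p e = 0 := (h.zero_iff hp he).2 ⟨s, hst.symm⟩
      rw [this] at hDe; linarith
    have hq' : q ∈ Submodule.span ℝ {e, p} := by
      rw [Submodule.mem_span_pair]
      refine ⟨t⁻¹, -(t⁻¹ * s), ?_⟩
      rw [← hst, smul_add, smul_smul, smul_smul, inv_mul_cancel₀ ht, one_smul, neg_smul]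
      abel
    have h3 := h.antipode_unique he hp hq (by rw [h.symm he hp]; exact hDe)
      (by rw [h.symm he hq]; exact h2) hq'
    rw [h.symm hq hp] at h3
    exact hne h3
  set Φ : E2 → (E3 →ₗ[ℝ] ℝ) := fun x => N (hat x) with hΦ
  have hcol : Collin (univ : Set E2) Φ := by
    constructor
    · intro x _ y _ z _ hxy a b ha hb hab hz
      have hzhat := hat_comb2 hab hz
      have hker : ∀ w, N (hat x) w = 0 → N (hat y) w = 0 → N (hat z) w = 0 := by
        intro w h1 h2
        by_cases hw : w = 0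
        · rw [hw, map_zero]
        · apply hsymm w _ hw (hat_ne_zero _)
          rw [hzhat, map_add, map_smul, map_smul, hsymm _ _ (hat_ne_zero _) hw h1,
            hsymm _ _ (hat_ne_zero _) hw h2]
          simp
      obtain ⟨α, β, hαβ⟩ := comb_of_ker_le hker
      have hat_inj : ∀ p q : E2, D (hat p) (hat q) = 0 → p = q := by
        intro p q h0
        obtain ⟨c, hc⟩ := (h.zero_iff (hat_ne_zero _) (hat_ne_zero _)).1 h0
        have e2 := congrArg (fun v : E3 => v 2) hc
        have e0 := congrArg (fun v : E3 => v 0) hc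
        have e1 := congrArg (fun v : E3 => v 1) hc
        simp at e0 e1 e2
        rw [← e2] at e0 e1
        apply E2_ext <;> linarith
      refine ⟨α, β, ?_, ?_, hαβ⟩
      · rintro rfl
        have h1 : D (hat y) (hat z) = 0 := by
          apply same _ _ (hat_ne_zero _) (hat_ne_zero _)
          intro w hw
          rw [hαβ]; simp [hw]
        have h2 := hat_inj _ _ h1
        rw [← h2] at hz
        have : a • (x - y) = 0 := by
          have hb' : b = 1 - a := by linarith
          rw [hb'] at hz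
          linear_combination (norm := module) -hz
        rcases smul_eq_zero.1 this with h3 | h3
        · exact ha h3
        · exact hxy (sub_eq_zero.1 h3)
      · rintro rfl
        have h1 : D (hat x) (hat z) = 0 := by
          apply same _ _ (hat_ne_zero _) (hat_ne_zero _)
          intro w hw
          rw [hαβ]; simp [hw]
        have h2 := hat_inj _ _ h1
        rw [← h2] at hz
        have : b • (y - x) = 0 := by
          have ha' : a = 1 - b := by linarith
          rw [ha'] at hz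
          linear_combination (norm := module) -hz
        rcases smul_eq_zero.1 this with h3 | h3
        · exact hb h3
        · exact hxy (sub_eq_zero.1 h3).symm
    · intro x _ y _ z _ harea a b c habc
      -- a common zero is impossible
      have imp : ∀ w, w ≠ 0 → N (hat x) w = 0 → N (hat y) w = 0 → N (hat z) w = 0 → False := by
        intro w hw h1 h2 h3
        apply hN0 w hw
        ext v
        obtain ⟨α, β, γ, hv⟩ := exists_comb3 harea v
        rw [hv, map_add, map_add, map_smul, map_smul, map_smul,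
          hsymm _ _ (hat_ne_zero _) hw h1, hsymm _ _ (hat_ne_zero _) hw h2,
          hsymm _ _ (hat_ne_zero _) hw h3]
        simp
      have hval : ∀ w, a * N (hat x) w + b * N (hat y) w + c * N (hat z) w = 0 := by
        intro w
        have := congrArg (fun f : E3 →ₗ[ℝ] ℝ => f w) habc
        simpa [hΦ] using this
      refine ⟨?_, ?_, ?_⟩
      · by_contra ha
        obtain ⟨w, hw, h1, h2⟩ := exists_common_zero (N (hat y)) (N (hat z))
        have h3 := hval w
        rw [h1, h2, mul_zero, mul_zero, add_zero, add_zero] at h3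
        exact imp w hw ((mul_eq_zero.1 h3).resolve_left ha) h1 h2
      · by_contra hb
        obtain ⟨w, hw, h1, h2⟩ := exists_common_zero (N (hat x)) (N (hat z))
        have h3 := hval w
        rw [h1, h2, mul_zero, mul_zero, add_zero, zero_add] at h3
        exact imp w hw h1 ((mul_eq_zero.1 h3).resolve_left hb) h2
      · by_contra hc
        obtain ⟨w, hw, h1, h2⟩ := exists_common_zero (N (hat x)) (N (hat y))
        have h3 := hval w
        rw [h1, h2, mul_zero, mul_zero, zero_add, zero_add] at h3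
        exact imp w hw h1 h2 ((mul_eq_zero.1 h3).resolve_left hc)
  have hhat : Continuous hat := by unfold hat; fun_prop
  -- limits of polar pairs
  have closed : ∀ (T : E3 →ₗ[ℝ] (E3 →ₗ[ℝ] ℝ)), Function.Injective T → ∀ (v w : E3) (a : ℕ → E3),
      v ≠ 0 → w ≠ 0 → Tendsto a atTop (𝓝 v) → T v w = 0 →
      (∀ᶠ n in atTop, ∀ u, u ≠ 0 → T (a n) u = 0 → D (a n) u = π / 2) → D v w = π / 2 := by
    intro T hT v w a hv hw ha hvw hD
    have hTv : T v ≠ 0 := fun h0 => hv (hT (by rw [h0, map_zero]))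
    obtain ⟨p, hp⟩ : ∃ p, T v p ≠ 0 := by
      by_contra hcon
      push Not at hcon
      exact hTv (LinearMap.ext fun p => by rw [hcon p]; rfl)
    have hev : ∀ q : E3, Tendsto (fun n => T (a n) q) atTop (𝓝 (T v q)) := by
      intro q
      have : Continuous (fun u => T.flip q u) := (T.flip q).continuous_of_finiteDimensional
      exact (this.tendsto v).comp ha
    have h1 : Tendsto (fun n => w - (T (a n) w / T (a n) p) • p) atTop
        (𝓝 (w - (T v w / T v p) • p)) :=
      tendsto_const_nhds.sub (((hev w).div (hev p) hp).smul_const p)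
    rw [hvw, zero_div, zero_smul, sub_zero] at h1
    have h2 : ∀ᶠ n in atTop, T (a n) p ≠ 0 := (hev p).eventually_ne hp
    have h3 : ∀ᶠ n in atTop, w - (T (a n) w / T (a n) p) • p ≠ 0 := h1.eventually_ne hw
    have h4 := h.continuousAt_pair hv hw ha h1
    refine tendsto_nhds_unique (h4.congr' ?_) (tendsto_const_nhds (x := π / 2))
    filter_upwards [h2, h3, hD] with n hn1 hn2 hn3
    apply hn3 _ hn2
    rw [map_sub, map_smul, smul_eq_mul, div_mul_cancel₀ _ hn1, sub_self]
  obtain ⟨T, hT, hfix⟩ := hcol.exists_linear isOpen_univ convex_univ univ_nonempty (by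
    intro T hT u x _ _ hux hfu
    have hx0 := hat_ne_zero x
    obtain ⟨c, hc⟩ := smul_of_ker_le (f := T (hat x)) (g := N (hat x)) (by
      intro w hw
      by_cases hw0 : w = 0
      · rw [hw0, map_zero]
      · rw [← hN _ hx0 w hw0]
        refine closed T hT (hat x) w (fun n => hat (u n)) hx0 hw0 ((hhat.tendsto x).comp hux) hw
          (Eventually.of_forall ?_)
        intro n v hv hv2
        obtain ⟨c, hc, he⟩ := hfu n
        rw [hN _ (hat_ne_zero _) v hv]
        have : Φ (u n) v = 0 := by rw [he]; simp [hv2]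
        exact this)
    refine ⟨c, ?_, hc⟩
    rintro rfl
    rw [zero_smul] at hc
    exact hN0 _ hx0 hc)
  refine ⟨T, hT, ?_⟩
  -- points of the affine chart
  have chart : ∀ x : E2, ∀ w, w ≠ 0 → (D (hat x) w = π / 2 ↔ T (hat x) w = 0) := by
    intro x w hw
    obtain ⟨c, hc, he⟩ := hfix x (mem_univ _)
    rw [hN _ (hat_ne_zero _) w hw]
    have : N (hat x) w = c * T (hat x) w := by
      have : Φ x w = c * T (hat x) w := by rw [he]; simp
      exact this
    rw [this, mul_eq_zero]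
    simp [hc]
  have chart2 : ∀ v : E3, v 2 ≠ 0 → ∀ w, w ≠ 0 → (D v w = π / 2 ↔ T v w = 0) := by
    intro v hv2 w hw
    have hv : v ≠ 0 := by rintro rfl; simp at hv2
    have hve : v = (v 2) • hat (!₂[v 0 / v 2, v 1 / v 2] : E2) := by
      apply E3_ext
      · simp; field_simp
      · simp; field_simp
      · simp
    have h1 := chart (!₂[v 0 / v 2, v 1 / v 2] : E2) w hw
    have h2 : D v w = D (hat (!₂[v 0 / v 2, v 1 / v 2] : E2)) w := by
      conv_lhs => rw [hve]
      rw [h.smul_left (hat_ne_zero _) hw hv2]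
    have h3 : T v w = v 2 * T (hat (!₂[v 0 / v 2, v 1 / v 2] : E2)) w := by
      conv_lhs => rw [hve]
      simp
    rw [h2, h1, h3, mul_eq_zero]
    simp [hv2]
  have back : ∀ v w, v ≠ 0 → w ≠ 0 → T v w = 0 → D v w = π / 2 := by
    intro v w hv hw hvw
    by_cases hv2 : v 2 = 0
    · set e : E3 := !₂[0, 0, 1] with he
      refine closed T hT v w (fun n => v + (1 / ((n : ℝ) + 1)) • e) hv hw ?_ hvw
        (Eventually.of_forall ?_)
      · have h1 := (tendsto_one_div_add_atTop_nhds_zero_nat (𝕜 := ℝ)).smul_const e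
        have h2 := h1.const_add v
        simpa using h2
      · intro n u hu hu0
        refine (chart2 _ ?_ u hu).2 hu0
        have : (v + (1 / ((n : ℝ) + 1)) • e) 2 = 1 / ((n : ℝ) + 1) := by
          simp [hv2, he]
        rw [this]; positivity
    · exact (chart2 v hv2 w hw).2 hvw
  intro v w hv hw
  refine ⟨?_, back v w hv hw⟩
  intro hD
  obtain ⟨c, hc⟩ := smul_of_ker_le (f := T v) (g := N v) (by
    intro u hu
    by_cases hu0 : u = 0
    · rw [hu0, map_zero]
    · exact (hN v hv u hu0).1 (back v u hv hu0 hu))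
  have hc0 : c ≠ 0 := by
    rintro rfl
    rw [zero_smul] at hc
    exact hN0 v hv hc
  have h1 := (hN v hv w hw).1 hD
  rw [hc, LinearMap.smul_apply, smul_eq_mul] at h1
  exact (mul_eq_zero.1 h1).resolve_left hc0

theorem comp (S : E3 ≃ₗ[ℝ] E3) : Ell (fun v w => D (S v) (S w)) := by
  have hS0 : ∀ {v}, v ≠ 0 → S v ≠ 0 := fun hv => by simpa using hv
  have hS0' : ∀ {v}, v ≠ 0 → S.symm v ≠ 0 := fun hv => by simpa using hv
  refine ⟨fun hv hw => h.symm (hS0 hv) (hS0 hw), fun hu hv hw => h.tri (hS0 hu) (hS0 hv) (hS0 hw),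
    ?_, ?_, ?_⟩
  · intro v w hv hw
    rw [h.zero_iff (hS0 hv) (hS0 hw)]
    constructor
    · rintro ⟨c, hc⟩; exact ⟨c, S.injective (by rw [hc, map_smul])⟩
    · rintro ⟨c, hc⟩; exact ⟨c, by rw [hc, map_smul]⟩
  · have hSc : Continuous S := S.toLinearMap.continuous_of_finiteDimensional
    refine h.cont.comp (f := fun x : E3 × E3 => (S x.1, S x.2)) (by fun_prop) ?_
    rintro ⟨v, w⟩ ⟨hv, hw⟩
    exact ⟨hS0 hv, hS0 hw⟩
  · intro x y hx hxy
    obtain ⟨c, hc0, hcx, hiso, hper, hsurj, hmem⟩ := h.circ (x := S x) (y := S y) (hS0 hx) (by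
      rintro ⟨c, hc⟩
      exact hxy ⟨c, S.injective (by rw [hc, map_smul])⟩)
    refine ⟨fun t => S.symm (c t), fun t => hS0' (hc0 t), ?_, ?_, ?_, ?_, ?_⟩
    · simpa using hcx
    · intro s t hst
      simpa using hiso s t hst
    · intro t
      simpa using hper t
    · intro z hz hzs
      obtain ⟨u, hu, hu'⟩ := hsurj (S z) (hS0 hz) (by
        obtain ⟨a, b, hab⟩ := Submodule.mem_span_pair.1 hzs
        rw [Submodule.mem_span_pair]
        exact ⟨a, b, by rw [← hab, map_add, map_smul, map_smul]⟩)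
      exact ⟨u, hu, by simpa using hu'⟩
    · intro t
      obtain ⟨a, b, hab⟩ := Submodule.mem_span_pair.1 (hmem t)
      show S.symm (c t) ∈ _
      rw [Submodule.mem_span_pair]
      exact ⟨a, b, by rw [← hab, map_add, map_smul, map_smul, S.symm_apply_apply,
        S.symm_apply_apply]⟩

end Ell

/-- A positive definite symmetric form on `ℝ³` is a standard inner product up to a linear
bijection. -/
theorem exists_sqrt_form (T : E3 →ₗ[ℝ] (E3 →ₗ[ℝ] ℝ)) (hsymm : ∀ v w, T v w = T w v)
    (hpos : ∀ v, v ≠ 0 → 0 < T v v) :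
    ∃ S : E3 ≃ₗ[ℝ] E3, ∀ v w, T v w = inner ℝ (S v) (S w) := by
  set e0 : E3 := !₂[1, 0, 0] with he0
  set e1 : E3 := !₂[0, 1, 0] with he1
  set e2 : E3 := !₂[0, 0, 1] with he2
  obtain ⟨a, ha⟩ : ∃ a, a = T e0 e0 := ⟨_, rfl⟩
  obtain ⟨b01, hb01⟩ : ∃ a, a = T e0 e1 := ⟨_, rfl⟩
  obtain ⟨b02, hb02⟩ : ∃ a, a = T e0 e2 := ⟨_, rfl⟩
  obtain ⟨b11, hb11⟩ : ∃ a, a = T e1 e1 := ⟨_, rfl⟩
  obtain ⟨b12, hb12⟩ : ∃ a, a = T e1 e2 := ⟨_, rfl⟩
  obtain ⟨b22, hb22⟩ : ∃ a, a = T e2 e2 := ⟨_, rfl⟩
  have expand : ∀ v w, T v w = v 0 * w 0 * a + (v 0 * w 1 + v 1 * w 0) * b01 +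
      (v 0 * w 2 + v 2 * w 0) * b02 + v 1 * w 1 * b11 + (v 1 * w 2 + v 2 * w 1) * b12 +
      v 2 * w 2 * b22 := by
    intro v w
    have hv : v = v 0 • e0 + v 1 • e1 + v 2 • e2 := by
      apply E3_ext <;> simp [he0, he1, he2]
    have hw : w = w 0 • e0 + w 1 • e1 + w 2 • e2 := by
      apply E3_ext <;> simp [he0, he1, he2]
    conv_lhs => rw [hv, hw]
    simp only [map_add, map_smul, LinearMap.add_apply, LinearMap.smul_apply, smul_eq_mul,
      hsymm e1 e0, hsymm e2 e0, hsymm e2 e1, ← ha, ← hb01, ← hb02, ← hb11, ← hb12, ← hb22]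
    ring
  have ha0 : 0 < a := by
    rw [ha]
    apply hpos
    intro h0
    have := congrArg (fun v : E3 => v 0) h0
    simp [he0] at this
  clear_value e0 e1 e2
  obtain ⟨p, hp⟩ : ∃ p, b01 = a * p := ⟨b01 / a, by field_simp⟩
  obtain ⟨q, hq⟩ : ∃ q, b02 = a * q := ⟨b02 / a, by field_simp⟩
  obtain ⟨b, hb⟩ : ∃ b, b11 = b + a * p ^ 2 := ⟨b11 - a * p ^ 2, by ring⟩
  have hb0 : 0 < b := by
    have h1 := hpos (!₂[-p, 1, 0] : E3) (by
      intro h0
      have := congrArg (fun v : E3 => v 1) h0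
      simp at this)
    have h2 : T (!₂[-p, 1, 0] : E3) (!₂[-p, 1, 0] : E3) = b := by
      rw [expand]
      simp only [Matrix.cons_val_zero, Matrix.cons_val_one, Matrix.cons_val]
      rw [hb, hp]; ring
    rwa [h2] at h1
  obtain ⟨r, hr⟩ : ∃ r, b12 = b * r + a * p * q := ⟨(b12 - a * p * q) / b, by field_simp; ring⟩
  obtain ⟨c, hc⟩ : ∃ c, b22 = c + a * q ^ 2 + b * r ^ 2 := ⟨b22 - a * q ^ 2 - b * r ^ 2, by ring⟩
  have lag : ∀ v w, T v w = a * (v 0 + p * v 1 + q * v 2) * (w 0 + p * w 1 + q * w 2) +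
      b * (v 1 + r * v 2) * (w 1 + r * w 2) + c * v 2 * w 2 := by
    intro v w
    rw [expand, hp, hq, hb, hr, hc]; ring
  have hc0 : 0 < c := by
    have h1 := hpos (!₂[p * r - q, -r, 1] : E3) (by
      intro h0
      have := congrArg (fun v : E3 => v 2) h0
      simp at this)
    have h2 : T (!₂[p * r - q, -r, 1] : E3) (!₂[p * r - q, -r, 1] : E3) = c := by
      rw [lag]
      simp only [Matrix.cons_val_zero, Matrix.cons_val_one, Matrix.cons_val]
      ring
    rwa [h2] at h1
  have sa : √a * √a = a := Real.mul_self_sqrt ha0.le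
  have sb : √b * √b = b := Real.mul_self_sqrt hb0.le
  have sc : √c * √c = c := Real.mul_self_sqrt hc0.le
  set S : E3 →ₗ[ℝ] E3 :=
    { toFun := fun v => !₂[√a * (v 0 + p * v 1 + q * v 2), √b * (v 1 + r * v 2), √c * v 2]
      map_add' := by
        intro v w
        apply E3_ext <;> simp <;> ring
      map_smul' := by
        intro k v
        apply E3_ext <;> simp <;> ring } with hS
  have hSin : ∀ v w, inner ℝ (S v) (S w) = T v w := by
    intro v w
    rw [Ell.inner_eq3, lag]
    show √a * (v 0 + p * v 1 + q * v 2) * (√a * (w 0 + p * w 1 + q * w 2)) +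
      √b * (v 1 + r * v 2) * (√b * (w 1 + r * w 2)) + √c * v 2 * (√c * w 2) = _
    linear_combination ((v 0 + p * v 1 + q * v 2) * (w 0 + p * w 1 + q * w 2)) * sa +
      ((v 1 + r * v 2) * (w 1 + r * w 2)) * sb + (v 2 * w 2) * sc
  have hSinj : Function.Injective S := by
    rw [← LinearMap.ker_eq_bot, LinearMap.ker_eq_bot']
    intro v hv
    by_contra hne
    have := hpos v hne
    rw [← hSin, hv, inner_zero_left] at this
    exact lt_irrefl _ this
  refine ⟨LinearEquiv.ofInjectiveEndo S hSinj, fun v w => ?_⟩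
  exact (hSin v w).symm

theorem ell_model {d : ℙ ℝ E3 → ℙ ℝ E3 → ℝ} (hd : IsEllipticPlane d)
    (hc : ∀ (O : ℙ ℝ E3) (r : ℝ), 0 < r → r < π / 2 → IsStrictlyConvexCircle d O r) :
    IsEllipticModel d := by
  have hpi := Real.pi_pos
  have h := hd.ell
  set D := vecDist d with hD
  -- polars
  have hpol : ∀ m : E3, m ≠ 0 → ∃ n : E3 →ₗ[ℝ] ℝ, n ≠ 0 ∧
      ∀ v, v ≠ 0 → (D m v = π / 2 ↔ n v = 0) := by
    intro m hm
    refine h.exists_polar hm ?_
    intro r h0 h1
    obtain ⟨f, hf1, hf2⟩ := hc (Projectivization.mk ℝ m hm) r h0 h1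
    refine ⟨f, ?_, ?_⟩
    · intro v hv hvr
      rw [hD, vecDist_of_ne hm hv] at hvr
      exact hf1 v hv hvr
    · intro v w hv hw fv fw hvw hvr hwr a b ha hb hab hne
      rw [hD, vecDist_of_ne hm hv] at hvr
      rw [hD, vecDist_of_ne hm hw] at hwr
      rw [hD, vecDist_of_ne hm hne]
      exact hf2 v w hv hw fv fw hvw hvr hwr a b ha hb hab hne
  have hN' : ∀ m : E3, ∃ n : E3 →ₗ[ℝ] ℝ, m ≠ 0 → n ≠ 0 ∧
      ∀ v, v ≠ 0 → (D m v = π / 2 ↔ n v = 0) := by
    intro m
    by_cases hm : m = 0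
    · exact ⟨0, fun h => absurd hm h⟩
    · obtain ⟨n, hn⟩ := hpol m hm
      exact ⟨n, fun _ => hn⟩
  choose N hN using hN'
  obtain ⟨T, hT, hTD⟩ := h.exists_form N (fun m hm => (hN m hm).1) (fun m hm => (hN m hm).2)
  -- non-isotropy
  have hiso : ∀ v, v ≠ 0 → T v v ≠ 0 := by
    intro v hv h0
    have := (hTD v v hv hv).2 h0
    rw [h.self hv] at this
    linarith
  -- symmetry
  have hsymm : ∀ v w, T v w = T w v := by
    intro v w
    by_cases hv : v = 0
    · rw [hv]; simp
    obtain ⟨c, hc⟩ := smul_of_ker_le (f := T v) (g := T.flip v) (by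
      intro u hu
      by_cases hu0 : u = 0
      · rw [hu0, map_zero]
      · have h1 := (hTD v u hv hu0).2 hu
        rw [h.symm hv hu0] at h1
        exact (hTD u v hu0 hv).1 h1)
    have h1 : T v v = c * T v v := by
      have := congrArg (fun f : E3 →ₗ[ℝ] ℝ => f v) hc
      simpa using this
    have hc1 : c = 1 := by
      have h2 : (c - 1) * T v v = 0 := by linarith
      have := (mul_eq_zero.1 h2).resolve_right (hiso v hv)
      linarith
    have h3 : T w v = c * T v w := by
      have := congrArg (fun f : E3 →ₗ[ℝ] ℝ => f w) hc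
      simpa using this
    rw [h3, hc1, one_mul]
  -- sign
  obtain ⟨T', hT'D, hT'symm, hT'pos⟩ : ∃ T' : E3 →ₗ[ℝ] (E3 →ₗ[ℝ] ℝ),
      (∀ v w, v ≠ 0 → w ≠ 0 → (D v w = π / 2 ↔ T' v w = 0)) ∧ (∀ v w, T' v w = T' w v) ∧
      ∀ v, v ≠ 0 → 0 < T' v v := by
    set e : E3 := !₂[0, 0, 1] with he
    have he0 : e ≠ 0 := by
      intro h0
      have := congrArg (fun v : E3 => v 2) h0
      simp [he] at this
    have claim : ∀ T' : E3 →ₗ[ℝ] (E3 →ₗ[ℝ] ℝ), (∀ v, v ≠ 0 → T' v v ≠ 0) → 0 < T' e e →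
        ∀ v, v ≠ 0 → 0 < T' v v := by
      intro T' hne hpos v hv
      by_contra hneg
      have hlt : T' v v < 0 := lt_of_le_of_ne (not_lt.1 hneg) (hne v hv)
      have hcont : Continuous (fun t : ℝ => T' ((1 - t) • e + t • v) ((1 - t) • e + t • v)) := by
        have : (fun t : ℝ => T' ((1 - t) • e + t • v) ((1 - t) • e + t • v)) = fun t =>
            (1 - t) * ((1 - t) * T' e e + t * T' e v) + t * ((1 - t) * T' v e + t * T' v v) := by
          funext t
          simp only [map_add, map_smul, LinearMap.add_apply, LinearMap.smul_apply, smul_eq_mul]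
          ring
        rw [this]
        fun_prop
      have hmem : (0:ℝ) ∈ Icc (T' ((1 - (1:ℝ)) • e + (1:ℝ) • v) ((1 - (1:ℝ)) • e + (1:ℝ) • v))
          (T' ((1 - (0:ℝ)) • e + (0:ℝ) • v) ((1 - (0:ℝ)) • e + (0:ℝ) • v)) := by
        simp only [sub_self, zero_smul, one_smul, zero_add, sub_zero, add_zero]
        exact ⟨hlt.le, hpos.le⟩
      obtain ⟨t, ht, ht0⟩ := intermediate_value_Icc' zero_le_one hcont.continuousOn hmem
      simp only at ht0
      have h3 : (1 - t) • e + t • v = 0 := by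
        by_contra h4
        exact hne _ h4 ht0
      have ht1 : t ≠ 1 := by
        rintro rfl
        simp at h3
        exact hv h3
      have h5 : e = (-(t / (1 - t))) • v := by
        have h6 : (1 - t) • e = -(t • v) := eq_neg_of_add_eq_zero_left h3
        have h7 : (1 - t) ≠ 0 := sub_ne_zero.2 ht1.symm
        have : e = (1 - t)⁻¹ • ((1 - t) • e) := by
          rw [smul_smul, inv_mul_cancel₀ h7, one_smul]
        rw [this, h6, smul_neg, smul_smul, neg_smul, div_eq_inv_mul]
      rw [h5] at hpos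
      simp only [map_smul, LinearMap.smul_apply, smul_eq_mul] at hpos
      nlinarith [mul_nonneg (sq_nonneg (-(t / (1 - t)))) (neg_nonneg.2 hlt.le)]
    rcases lt_or_gt_of_ne (hiso e he0) with h1 | h1
    · refine ⟨-T, ?_, ?_, claim (-T) ?_ ?_⟩
      · intro v w hv hw
        rw [hTD v w hv hw]
        simp
      · intro v w
        simp [hsymm v w]
      · intro v hv
        simpa using hiso v hv
      · simpa using h1
    · exact ⟨T, hTD, hsymm, claim T hiso h1⟩
  obtain ⟨S, hS⟩ := exists_sqrt_form T' hT'symm hT'pos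
  refine ⟨S, fun v w hv hw => ?_⟩
  have h2 := h.comp S.symm
  have hSv : S v ≠ 0 := by simpa using hv
  have hSw : S w ≠ 0 := by simpa using hw
  have h3 := h2.round (by
    intro v w hv hw
    have hv' : S.symm v ≠ 0 := by simpa using hv
    have hw' : S.symm w ≠ 0 := by simpa using hw
    rw [hT'D _ _ hv' hw', hS, S.apply_symm_apply, S.apply_symm_apply]) hSv hSw
  simp only [S.symm_apply_apply] at h3
  rw [← h3, hD, vecDist_of_ne hv hw]

end Pool.Agent.MP_7a5b4a_gt
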