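import Pool.Agent.MP_7a5b4a_gt.EllBasic

/-!
# In a plane of elliptic type with convex circles, polars are lines
-/

open Filter Topology Set
open scoped Real

namespace Pool.Agent.MP_7a5b4a_gt

namespace Ell

variable {D : E3 → E3 → ℝ} (h : Ell D)

include h

theorem continuousAt_right {m v : E3} (hm : m ≠ 0) (hv : v ≠ 0) :
    ContinuousAt (fun u => D m u) v := by
  have hopen : IsOpen ({0}ᶜ ×ˢ {0}ᶜ : Set (E3 × E3)) :=
    isOpen_compl_singleton.prod isOpen_compl_singleton
  have h1 : ContinuousAt (fun x : E3 × E3 => D x.1 x.2) (m, v) :=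
    (h.cont (m, v) ⟨hm, hv⟩).continuousAt (hopen.mem_nhds ⟨hm, hv⟩)
  exact ContinuousAt.comp (f := fun u : E3 => ((m, u) : E3 × E3)) h1 (by fun_prop)

/-- The polar of a point is a line if the circles are strictly convex. -/
theorem exists_polar {m : E3} (hm : m ≠ 0)
    (hconv : ∀ r, 0 < r → r < π / 2 → ∃ f : E3 →ₗ[ℝ] ℝ,
      (∀ v, v ≠ 0 → D m v ≤ r → f v ≠ 0) ∧
      ∀ v w, v ≠ 0 → w ≠ 0 → f v = 1 → f w = 1 → v ≠ w → D m v ≤ r → D m w ≤ r →
        ∀ a b : ℝ, 0 < a → 0 < b → a + b = 1 → a • v + b • w ≠ 0 → D m (a • v + b • w) < r) :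
    ∃ n : E3 →ₗ[ℝ] ℝ, n ≠ 0 ∧ ∀ v, v ≠ 0 → (D m v = π / 2 ↔ n v = 0) := by
  have hpi := Real.pi_pos
  have hmm : D m m = 0 := h.self hm
  -- normalised functionals
  have hg : ∀ r, 0 < r → r < π / 2 → ∃ g : E3 →ₗ[ℝ] ℝ, g m = 1 ∧
      (∀ v, v ≠ 0 → D m v ≤ r → g v ≠ 0) ∧
      ∀ v w, 0 < g v → 0 < g w → D m v ≤ r → D m w ≤ r → ∀ a b : ℝ, 0 < a → 0 < b →
        D m (a • v + b • w) ≤ r := by
    intro r h0 h1
    obtain ⟨f, hf1, hf2⟩ := hconv r h0 h1
    have hκ : f m ≠ 0 := hf1 m hm (by rw [hmm]; exact h0.le)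
    set κ := f m with hκdef
    refine ⟨κ⁻¹ • f, ?_, ?_, ?_⟩
    · simp only [LinearMap.smul_apply, smul_eq_mul]; rw [← hκdef]; field_simp
    · intro v hv hvr
      simp only [LinearMap.smul_apply, smul_eq_mul]
      exact mul_ne_zero (inv_ne_zero hκ) (hf1 v hv hvr)
    · intro v w hv hw hvr hwr a b ha hb
      simp only [LinearMap.smul_apply, smul_eq_mul] at hv hw
      set α := κ⁻¹ * f v with hα
      set β := κ⁻¹ * f w with hβ
      have fv : f v = α * κ := by rw [hα]; field_simp
      have fw : f w = β * κ := by rw [hβ]; field_simp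
      have hv0 : v ≠ 0 := by rintro rfl; simp [hα] at hv
      have hw0 : w ≠ 0 := by rintro rfl; simp [hβ] at hw
      have hακ : α * κ ≠ 0 := mul_ne_zero hv.ne' hκ
      have hβκ : β * κ ≠ 0 := mul_ne_zero hw.ne' hκ
      set v' := (α * κ)⁻¹ • v with hv'
      set w' := (β * κ)⁻¹ • w with hw'
      have fv' : f v' = 1 := by
        rw [hv', map_smul, smul_eq_mul, fv, inv_mul_cancel₀ hακ]
      have fw' : f w' = 1 := by
        rw [hw', map_smul, smul_eq_mul, fw, inv_mul_cancel₀ hβκ]
      have hv'0 : v' ≠ 0 := smul_ne_zero (inv_ne_zero hακ) hv0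
      have hw'0 : w' ≠ 0 := smul_ne_zero (inv_ne_zero hβκ) hw0
      have dv' : D m v' = D m v := h.smul_right hm hv0 (inv_ne_zero hακ)
      have dw' : D m w' = D m w := h.smul_right hm hw0 (inv_ne_zero hβκ)
      set s := a * α + b * β with hs
      have hs0 : 0 < s := by positivity
      have hvv : v = (α * κ) • v' := by rw [hv', smul_smul, mul_inv_cancel₀ hακ, one_smul]
      have hww : w = (β * κ) • w' := by rw [hw', smul_smul, mul_inv_cancel₀ hβκ, one_smul]
      have hsum : a * α / s + b * β / s = 1 := by rw [← add_div, ← hs, div_self hs0.ne']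
      clear_value v' w' s
      have hcomb : a • v + b • w = (κ * s) • ((a * α / s) • v' + (b * β / s) • w') := by
        have e1 : a • v = (a * (α * κ)) • v' := by rw [mul_smul, ← hvv]
        have e2 : b • w = (b * (β * κ)) • w' := by rw [mul_smul, ← hww]
        have e3 : κ * s * (a * α / s) = a * (α * κ) := by field_simp
        have e4 : κ * s * (b * β / s) = b * (β * κ) := by field_simp
        rw [e1, e2, smul_add, smul_smul, smul_smul, e3, e4]
      have hne : (a * α / s) • v' + (b * β / s) • w' ≠ 0 := by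
        intro h0'
        have := congrArg f h0'
        rw [map_add, map_smul, map_smul, fv', fw', map_zero, smul_eq_mul, smul_eq_mul, mul_one,
          mul_one, hsum] at this
        exact one_ne_zero this
      rw [hcomb, h.smul_right hm hne (mul_ne_zero hκ hs0.ne')]
      by_cases hvw : v' = w'
      · rw [← hvw, ← add_smul, hsum, one_smul, dv']; exact hvr
      · exact (hf2 v' w' hv'0 hw'0 fv' fw' hvw (by rw [dv']; exact hvr) (by rw [dw']; exact hwr)
          _ _ (by positivity) (by positivity) hsum hne).le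
  choose g gm gne gconv using hg
  -- monotonicity
  have mono : ∀ r h0 h1 r' h0' h1', r ≤ r' → ∀ v, D m v ≤ r → 0 < g r h0 h1 v →
      0 < g r' h0' h1' v := by
    intro r h0 h1 r' h0' h1' hrr v hvr hv
    by_contra hneg
    push Not at hneg
    have hv0 : v ≠ 0 := by rintro rfl; simp at hv
    have hlt : g r' h0' h1' v < 0 :=
      lt_of_le_of_ne hneg (gne r' h0' h1' v hv0 (hvr.trans hrr))
    set a := -g r' h0' h1' v with ha
    have ha0 : 0 < a := by linarith
    have h2 := gconv r h0 h1 m v (by rw [gm]; norm_num) hv (by rw [hmm]; exact h0.le) hvr a 1 ha0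
      one_pos
    have hne : a • m + (1:ℝ) • v ≠ 0 := by
      intro h3
      have := congrArg (g r h0 h1) h3
      rw [map_add, map_smul, map_smul, gm, map_zero, smul_eq_mul, smul_eq_mul, mul_one,
        one_mul] at this
      linarith
    apply gne r' h0' h1' _ hne (h2.trans hrr)
    rw [map_add, map_smul, map_smul, gm, smul_eq_mul, smul_eq_mul, ha]
    ring
  set C : Set E3 := {v | ∃ (r : ℝ) (h0 : 0 < r) (h1 : r < π / 2), D m v ≤ r ∧ 0 < g r h0 h1 v}
    with hC
  have Cne : ∀ v ∈ C, v ≠ 0 := by
    rintro v ⟨r, h0, h1, -, h3⟩ rfl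
    simp at h3
  have Cconv : Convex ℝ C := by
    rw [convex_iff_forall_pos]
    rintro v ⟨r, h0, h1, hv1, hv2⟩ w ⟨r', h0', h1', hw1, hw2⟩ a b ha hb -
    have k1 := mono r h0 h1 (max r r') (lt_max_of_lt_left h0) (max_lt h1 h1') (le_max_left _ _)
      v hv1 hv2
    have k2 := mono r' h0' h1' (max r r') (lt_max_of_lt_left h0) (max_lt h1 h1')
      (le_max_right _ _) w hw1 hw2
    refine ⟨max r r', lt_max_of_lt_left h0, max_lt h1 h1',
      gconv _ _ _ v w k1 k2 (hv1.trans (le_max_left _ _)) (hw1.trans (le_max_right _ _)) a b ha hb,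
      ?_⟩
    rw [map_add, map_smul, map_smul, smul_eq_mul, smul_eq_mul]
    positivity
  have Copen : IsOpen C := by
    rw [isOpen_iff_mem_nhds]
    rintro v ⟨r, h0, h1, hv1, hv2⟩
    have hv0 : v ≠ 0 := Cne v ⟨r, h0, h1, hv1, hv2⟩
    set r' := (r + π / 2) / 2 with hr'
    have h0' : 0 < r' := by rw [hr']; positivity
    have h1' : r' < π / 2 := by rw [hr']; linarith
    have hrr : r < r' := by rw [hr']; linarith
    have k1 := mono r h0 h1 r' h0' h1' hrr.le v hv1 hv2
    have e1 : ∀ᶠ u in 𝓝 v, D m u < r' :=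
      (h.continuousAt_right hm hv0).eventually (gt_mem_nhds (lt_of_le_of_lt hv1 hrr))
    have e2 : ∀ᶠ u in 𝓝 v, 0 < g r' h0' h1' u :=
      ((g r' h0' h1').continuous_of_finiteDimensional.tendsto v).eventually (lt_mem_nhds k1)
    filter_upwards [e1, e2] with u hu1 hu2
    exact ⟨r', h0', h1', hu1.le, hu2⟩
  have Cor : ∀ v, v ≠ 0 → D m v < π / 2 → v ∈ C ∨ -v ∈ C := by
    intro v hv hlt
    set r := max (D m v) (π / 4) with hr
    have h0 : 0 < r := lt_max_of_lt_right (by positivity)
    have h1 : r < π / 2 := max_lt hlt (by linarith)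
    have h2 := gne r h0 h1 v hv (le_max_left _ _)
    rcases lt_or_gt_of_ne h2 with h3 | h3
    · right
      refine ⟨r, h0, h1, ?_, by rw [map_neg]; linarith⟩
      have : D m (-v) = D m v := by
        have := h.smul_right hm hv (c := -1) (by norm_num)
        rwa [neg_one_smul] at this
      rw [this]; exact le_max_left _ _
    · left
      exact ⟨r, h0, h1, le_max_left _ _, h3⟩
  obtain ⟨f, hf⟩ := geometric_hahn_banach_open_point Cconv Copen (x := (0 : E3))
    (fun h0 => Cne 0 h0 rfl)
  have hmC : m ∈ C := ⟨π / 4, by positivity, by linarith, by rw [hmm]; positivity, by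
    rw [gm]; norm_num⟩
  set n : E3 →ₗ[ℝ] ℝ := -(f : E3 →ₗ[ℝ] ℝ) with hn
  have hnC : ∀ v ∈ C, 0 < n v := by
    intro v hv
    have := hf v hv
    rw [map_zero] at this
    show 0 < -(f v)
    linarith
  have hCn : ∀ v, 0 < n v → v ∈ C := by
    intro v hv
    by_contra hvC
    have hv0 : v ≠ 0 := by rintro rfl; simp at hv
    have hnegC : ∀ u, 0 < n u → -u ∉ C := by
      intro u hu h1
      have := hnC _ h1
      rw [map_neg] at this
      linarith
    have hD : D m v = π / 2 := by
      rcases (h.le_half_pi hm hv0).lt_or_eq with h1 | h1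
      · rcases Cor v hv0 h1 with h2 | h2
        · exact absurd h2 hvC
        · exact absurd h2 (hnegC v hv)
      · exact h1
    have hnm := hnC m hmC
    set ε := n v / (2 * n m) with hε
    have hε0 : 0 < ε := by positivity
    have hεm : ε * n m = n v / 2 := by rw [hε]; field_simp
    have key : ∀ e : ℝ, e ≠ 0 → 0 < n (v + e • m) → v + e • m ∈ C := by
      intro e he hpos
      have hne : v + e • m ≠ 0 := by intro h0; rw [h0] at hpos; simp at hpos
      rcases (h.le_half_pi hm hne).lt_or_eq with h1 | h1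
      · rcases Cor _ hne h1 with h2 | h2
        · exact h2
        · exact absurd h2 (hnegC _ hpos)
      · exfalso
        have h2 := h.antipode_unique hm hv0 hne hD h1 (by
          rw [Submodule.mem_span_pair]; exact ⟨e, 1, by rw [one_smul, add_comm]⟩)
        rw [h.symm hne hv0, h.zero_iff hv0 hne] at h2
        obtain ⟨c, hc⟩ := h2
        -- then m is a multiple of v
        have h3 : e • m = (c - 1) • v := by
          rw [sub_smul, one_smul, ← hc]; abel
        have h4 : m = (e⁻¹ * (c - 1)) • v := by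
          rw [mul_smul, ← h3, smul_smul, inv_mul_cancel₀ he, one_smul]
        have h5 : D v m = 0 := (h.zero_iff hv0 hm).2 ⟨_, h4⟩
        rw [h.symm hv0 hm, hD] at h5
        linarith
    have k1 := key ε hε0.ne' (by
      rw [map_add, map_smul, smul_eq_mul, hεm]; linarith)
    have k2 := key (-ε) (by linarith) (by
      rw [map_add, map_smul, smul_eq_mul, neg_mul, hεm]; linarith)
    have k3 := Cconv k1 k2 (show (0:ℝ) ≤ 1/2 by norm_num) (show (0:ℝ) ≤ 1/2 by norm_num)
      (by norm_num)
    apply hvC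
    have : (1/2 : ℝ) • (v + ε • m) + (1/2 : ℝ) • (v + -ε • m) = v := by module
    rwa [this] at k3
  refine ⟨n, ?_, ?_⟩
  · intro h0
    have := hnC m hmC
    rw [h0] at this
    simp at this
  · intro v hv
    have hCD : ∀ u ∈ C, D m u < π / 2 := by
      rintro u ⟨r, -, h1, hu, -⟩
      exact lt_of_le_of_lt hu h1
    constructor
    · intro hD
      by_contra hne
      rcases lt_or_gt_of_ne hne with h1 | h1
      · have h2 := hCD _ (hCn (-v) (by rw [map_neg]; linarith))
        have : D m (-v) = D m v := by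
          have := h.smul_right hm hv (c := -1) (by norm_num)
          rwa [neg_one_smul] at this
        rw [this, hD] at h2
        exact lt_irrefl _ h2
      · have h2 := hCD _ (hCn v h1)
        rw [hD] at h2
        exact lt_irrefl _ h2
    · intro hnv
      rcases (h.le_half_pi hm hv).lt_or_eq with h1 | h1
      · rcases Cor v hv h1 with h2 | h2
        · have := hnC _ h2; linarith
        · have := hnC _ h2; rw [map_neg] at this; linarith
      · exact h1

end Ell

end Pool.Agent.MP_7a5b4a_gt
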