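import Pool.Agent.MP_7a5b4a_gt.Defs

/-!
# A local version of the fundamental theorem of projective geometry for the real plane
-/

open Filter Topology Set

namespace Pool.Agent.MP_7a5b4a_gt

@[simp] theorem hat_zero (x : E2) : hat x 0 = x 0 := rfl
@[simp] theorem hat_one (x : E2) : hat x 1 = x 1 := rfl
@[simp] theorem hat_two (x : E2) : hat x 2 = 1 := rfl

theorem E2_ext {x y : E2} (h0 : x 0 = y 0) (h1 : x 1 = y 1) : x = y := by
  ext i; fin_cases i
  · exact h0
  · exact h1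

theorem E3_ext {x y : E3} (h0 : x 0 = y 0) (h1 : x 1 = y 1) (h2 : x 2 = y 2) : x = y := by
  ext i; fin_cases i
  · exact h0
  · exact h1
  · exact h2

theorem hat_ne_zero (x : E2) : hat x ≠ 0 := by
  intro h
  have := congrArg (fun v : E3 => v 2) h
  simp at this

theorem hat_comb2 {x y z : E2} {a b : ℝ} (h : a + b = 1) (hz : z = a • x + b • y) :
    hat z = a • hat x + b • hat y := by
  subst hz
  apply E3_ext <;> simp [h]

theorem hat_comb3 {x y z w : E2} {a b c : ℝ} (h : a + b + c = 1)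
    (hw : w = a • x + b • y + c • z) :
    hat w = a • hat x + b • hat y + c • hat z := by
  subst hw
  apply E3_ext <;> simp [h]

/-- cross product of plane vectors -/
def cr (u v : E2) : ℝ := u 0 * v 1 - u 1 * v 0

/-- twice the signed area -/
def area (x y z : E2) : ℝ := (y 0 - x 0) * (z 1 - x 1) - (y 1 - x 1) * (z 0 - x 0)

theorem area_eq_cr (x y z : E2) : area x y z = cr (y - x) (z - x) := by
  simp [area, cr]

theorem smul_eq_zero_of_cr {u v : E2} {m m' : ℝ} (h : cr u v ≠ 0) (he : m • u = m' • v) :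
    m = 0 := by
  have h0 := congrArg (fun w : E2 => w 0) he
  have h1 := congrArg (fun w : E2 => w 1) he
  simp at h0 h1
  have : m * cr u v = 0 := by
    simp only [cr]
    linear_combination v 1 * h0 - v 0 * h1
  rcases mul_eq_zero.1 this with h2 | h2
  · exact h2
  · exact absurd h2 h

/-- The data of the local fundamental theorem: a map `Φ` from a convex open set of the plane to a
vector space, which maps collinear points to dependent vectors and non-collinear points to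
independent vectors. -/
structure Collin {W : Type*} [AddCommGroup W] [Module ℝ W] (U : Set E2) (Φ : E2 → W) : Prop where
  line : ∀ x ∈ U, ∀ y ∈ U, ∀ z ∈ U, x ≠ y → ∀ a b : ℝ, a ≠ 0 → b ≠ 0 → a + b = 1 →
    z = a • x + b • y → ∃ α β : ℝ, α ≠ 0 ∧ β ≠ 0 ∧ Φ z = α • Φ x + β • Φ y
  indep : ∀ x ∈ U, ∀ y ∈ U, ∀ z ∈ U, area x y z ≠ 0 → ∀ a b c : ℝ,
    a • Φ x + b • Φ y + c • Φ z = 0 → a = 0 ∧ b = 0 ∧ c = 0

/-- `Φ x` is a multiple of `T (hat x)` -/
def Fix {W : Type*} [AddCommGroup W] [Module ℝ W] (Φ : E2 → W) (T : E3 →ₗ[ℝ] W) (x : E2) : Prop :=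
  ∃ c : ℝ, c ≠ 0 ∧ Φ x = c • T (hat x)

section

variable {W : Type*} [AddCommGroup W] [Module ℝ W] {U : Set E2} {Φ : E2 → W}
  {T : E3 →ₗ[ℝ] W}

theorem exists_off (hU : IsOpen U) {p q : E2} (hp : p ∈ U) (hpq : p ≠ q) :
    ∃ z ∈ U, area p q z ≠ 0 := by
  -- move from `p` in the direction orthogonal to `q - p`
  set v : E2 := !₂[-(q 1 - p 1), q 0 - p 0] with hv
  have hc : Continuous (fun t : ℝ => p + t • v) := by fun_prop
  have h0 : (fun t : ℝ => p + t • v) 0 ∈ U := by simpa using hp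
  have hev : ∀ᶠ t in 𝓝 (0:ℝ), (fun t : ℝ => p + t • v) t ∈ U :=
    hc.continuousAt.eventually (hU.mem_nhds h0)
  have hev2 : ∀ᶠ t in 𝓝[>] (0:ℝ), (fun t : ℝ => p + t • v) t ∈ U := hev.filter_mono nhdsWithin_le_nhds
  obtain ⟨t, ht, ht0⟩ := (hev2.and self_mem_nhdsWithin).exists
  refine ⟨_, ht, ?_⟩
  have ht0 : (0:ℝ) < t := ht0
  have : area p q (p + t • v) = t * ((q 0 - p 0) ^ 2 + (q 1 - p 1) ^ 2) := by
    simp [area, hv]; ring
  rw [this]
  have hne : 0 < (q 0 - p 0) ^ 2 + (q 1 - p 1) ^ 2 := by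
    by_contra hcon
    push Not at hcon
    have e0 : q 0 - p 0 = 0 := by nlinarith [sq_nonneg (q 0 - p 0), sq_nonneg (q 1 - p 1)]
    have e1 : q 1 - p 1 = 0 := by nlinarith [sq_nonneg (q 0 - p 0), sq_nonneg (q 1 - p 1)]
    exact hpq (E2_ext (by linarith) (by linarith))
  positivity

theorem Collin.ne_zero (h : Collin U Φ) (hU : IsOpen U) {x : E2} (hx : x ∈ U) : Φ x ≠ 0 := by
  intro h0
  -- choose y ≠ x in U and z off the line
  obtain ⟨z, hz, hz'⟩ := exists_off hU hx (q := x + !₂[1, 0]) (by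
    intro he
    have := congrArg (fun w : E2 => w 0) he
    simp at this)
  have hxz : x ≠ z := by
    rintro rfl
    simp [area] at hz'
  obtain ⟨w, hw, hw'⟩ := exists_off hU hx hxz
  have := h.indep x hx z hz w hw hw' 1 0 0 (by rw [h0]; simp)
  exact one_ne_zero this.1

/-- Intersection of two lines each containing two fixed points. -/
theorem Collin.fix_inter (h : Collin U Φ) (hU : IsOpen U) (hT : Function.Injective T)
    {x p₁ q₁ p₂ q₂ : E2} (hx : x ∈ U) (hp₁ : p₁ ∈ U) (hq₁ : q₁ ∈ U) (hp₂ : p₂ ∈ U) (hq₂ : q₂ ∈ U)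
    (fp₁ : Fix Φ T p₁) (fq₁ : Fix Φ T q₁) (fp₂ : Fix Φ T p₂) (fq₂ : Fix Φ T q₂)
    (hcr : cr (q₁ - p₁) (q₂ - p₂) ≠ 0) {s₁ t₁ s₂ t₂ : ℝ} (h1 : s₁ + t₁ = 1) (h2 : s₂ + t₂ = 1)
    (hx1 : x = s₁ • p₁ + t₁ • q₁) (hx2 : x = s₂ • p₂ + t₂ • q₂) : Fix Φ T x := by
  have hpq1 : p₁ ≠ q₁ := by
    rintro rfl; simp [cr] at hcr
  have hpq2 : p₂ ≠ q₂ := by
    rintro rfl; simp [cr] at hcr
  by_cases hs1 : s₁ = 0
  · have : x = q₁ := by rw [hx1, hs1, show t₁ = 1 by linarith]; simp
    rwa [this]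
  by_cases ht1 : t₁ = 0
  · have : x = p₁ := by rw [hx1, ht1, show s₁ = 1 by linarith]; simp
    rwa [this]
  by_cases hs2 : s₂ = 0
  · have : x = q₂ := by rw [hx2, hs2, show t₂ = 1 by linarith]; simp
    rwa [this]
  by_cases ht2 : t₂ = 0
  · have : x = p₂ := by rw [hx2, ht2, show s₂ = 1 by linarith]; simp
    rwa [this]
  obtain ⟨α, β, -, -, hΦ1⟩ := h.line p₁ hp₁ q₁ hq₁ x hx hpq1 s₁ t₁ hs1 ht1 h1 hx1
  obtain ⟨γ, δ, -, -, hΦ2⟩ := h.line p₂ hp₂ q₂ hq₂ x hx hpq2 s₂ t₂ hs2 ht2 h2 hx2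
  obtain ⟨c1, -, e1⟩ := fp₁
  obtain ⟨d1, -, f1⟩ := fq₁
  obtain ⟨c2, -, e2⟩ := fp₂
  obtain ⟨d2, -, f2⟩ := fq₂
  rw [e1, f1] at hΦ1
  rw [e2, f2] at hΦ2
  -- both are images of vectors
  set v : E3 := (α * c1) • hat p₁ + (β * d1) • hat q₁ with hv
  set v' : E3 := (γ * c2) • hat p₂ + (δ * d2) • hat q₂ with hv'
  have hTv : Φ x = T v := by
    rw [hΦ1, hv, map_add, map_smul, map_smul, smul_smul, smul_smul]
  have hTv' : Φ x = T v' := by
    rw [hΦ2, hv', map_add, map_smul, map_smul, smul_smul, smul_smul]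
  have hvv' : v = v' := hT (by rw [← hTv, ← hTv'])
  have hc : α * c1 + β * d1 = γ * c2 + δ * d2 := by
    have := congrArg (fun w : E3 => w 2) hvv'
    simpa [hv, hv'] using this
  set c := α * c1 + β * d1 with hcdef
  have key : (α * c1 - c * s₁) • (q₁ - p₁) = (γ * c2 - c * s₂) • (q₂ - p₂) := by
    have h0 := congrArg (fun w : E3 => w 0) hvv'
    have h1' := congrArg (fun w : E3 => w 1) hvv'
    simp only [hv, hv', PiLp.add_apply, PiLp.smul_apply, hat_zero, hat_one, smul_eq_mul] at h0 h1'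
    have hx0 : s₁ * p₁ 0 + t₁ * q₁ 0 = s₂ * p₂ 0 + t₂ * q₂ 0 := by
      have := congrArg (fun w : E2 => w 0) (hx1.symm.trans hx2)
      simpa using this
    have hx1' : s₁ * p₁ 1 + t₁ * q₁ 1 = s₂ * p₂ 1 + t₂ * q₂ 1 := by
      have := congrArg (fun w : E2 => w 1) (hx1.symm.trans hx2)
      simpa using this
    have ht1' : t₁ = 1 - s₁ := by linarith
    have ht2' : t₂ = 1 - s₂ := by linarith
    have hβ : β * d1 = c - α * c1 := by rw [hcdef]; ring
    have hδ : δ * d2 = c - γ * c2 := by rw [hc]; ring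
    rw [ht1', ht2'] at hx0 hx1'
    rw [hβ, hδ] at h0 h1'
    apply E2_ext
    · simp only [PiLp.smul_apply, PiLp.sub_apply, smul_eq_mul]
      linear_combination c * hx0 - h0
    · simp only [PiLp.smul_apply, PiLp.sub_apply, smul_eq_mul]
      linear_combination c * hx1' - h1'
  have hm : α * c1 - c * s₁ = 0 := smul_eq_zero_of_cr hcr key
  have hvx : v = c • hat x := by
    rw [hat_comb2 h1 hx1, hv]
    have e3 : α * c1 = c * s₁ := by linarith
    have e4 : β * d1 = c * t₁ := by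
      have : t₁ = 1 - s₁ := by linarith
      rw [this, mul_sub, mul_one, ← e3, hcdef]; ring
    rw [e3, e4, smul_add, smul_smul, smul_smul]
  have hc0 : c ≠ 0 := by
    intro hc0
    rw [hvx, hc0, zero_smul, map_zero] at hTv
    exact h.ne_zero hU hx hTv
  exact ⟨c, hc0, by rw [hTv, hvx, map_smul]⟩

theorem area_eq_zero_of {p q z : E2} {k l : ℝ} (hk : k ≠ 0)
    (h0 : k * (z 0 - p 0) = l * (q 0 - p 0)) (h1 : k * (z 1 - p 1) = l * (q 1 - p 1)) :
    area p q z = 0 := by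
  have : k * area p q z = 0 := by
    simp only [area]
    linear_combination (q 0 - p 0) * h1 - (q 1 - p 1) * h0
  rcases mul_eq_zero.1 this with h2 | h2
  · exact absurd h2 hk
  · exact h2

/-- Harmonic conjugates of fixed points are fixed. -/
theorem Collin.fix_harm (h : Collin U Φ) (hU : IsOpen U) (hUc : Convex ℝ U)
    {p q r m : E2} (hp : p ∈ U) (hq : q ∈ U) (hr : r ∈ U)
    (hpq : p ≠ q) (fp : Fix Φ T p) (fq : Fix Φ T q) (fr : Fix Φ T r) {δ ε : ℝ} (hδ : 0 < δ)
    (hε : 0 < ε) (hδε : δ ≠ ε) (hr' : (δ - ε) • r = δ • p - ε • q)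
    (hm' : (δ + ε) • m = δ • p + ε • q) : Fix Φ T m := by
  obtain ⟨z, hz, hz'⟩ := exists_off hU hp hpq
  have hde : δ - ε ≠ 0 := sub_ne_zero.2 hδε
  have hs : (0:ℝ) < δ + ε := by positivity
  have hm1 : m = (δ / (δ + ε)) • p + (ε / (δ + ε)) • q := by
    have : m = (δ + ε)⁻¹ • ((δ + ε) • m) := by rw [smul_smul, inv_mul_cancel₀ hs.ne', one_smul]
    rw [this, hm', smul_add, smul_smul, smul_smul]
    congr 2 <;> field_simp
  have hr1 : r = (δ / (δ - ε)) • p + (-ε / (δ - ε)) • q := by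
    have : r = (δ - ε)⁻¹ • ((δ - ε) • r) := by rw [smul_smul, inv_mul_cancel₀ hde, one_smul]
    rw [this, hr', smul_sub, smul_smul, smul_smul, sub_eq_add_neg, ← neg_smul]
    congr 2 <;> field_simp
  have hm : m ∈ U := by
    rw [hm1]
    exact hUc hp hq (by positivity) (by positivity) (by field_simp)
  set d : E2 := (1 / (1 + δ)) • z + (δ / (1 + δ)) • p with hd
  set e : E2 := (1 / (1 + ε)) • z + (ε / (1 + ε)) • q with he
  set f : E2 := (δ / (1 + δ + ε)) • p + ((1 + ε) / (1 + δ + ε)) • e with hf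
  have hdU : d ∈ U := hUc hz hp (by positivity) (by positivity) (by field_simp)
  have heU : e ∈ U := hUc hz hq (by positivity) (by positivity) (by field_simp)
  have hfU : f ∈ U := hUc hp heU (by positivity) (by positivity) (by field_simp; ring)
  have hzp : z ≠ p := by rintro rfl; simp [area] at hz'
  have hzq : z ≠ q := by rintro rfl; simp [area] at hz'; exact hz' (by ring)
  -- areas
  have area_zpq : area z p q ≠ 0 := by
    have : area z p q = area p q z := by simp [area]; ring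
    rwa [this]
  have a1 : (1 + δ) ≠ 0 := by positivity
  have a2 : (1 + ε) ≠ 0 := by positivity
  have a3 : (1 + δ + ε) ≠ 0 := by positivity
  have hd0 : (1 + δ) * d 0 = z 0 + δ * p 0 := by simp [hd]; field_simp
  have hd1 : (1 + δ) * d 1 = z 1 + δ * p 1 := by simp [hd]; field_simp
  have he0 : (1 + ε) * e 0 = z 0 + ε * q 0 := by simp [he]; field_simp
  have he1 : (1 + ε) * e 1 = z 1 + ε * q 1 := by simp [he]; field_simp
  have hf0 : (1 + δ + ε) * f 0 = δ * p 0 + (1 + ε) * e 0 := by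
    simp only [hf, PiLp.add_apply, PiLp.smul_apply, smul_eq_mul]; field_simp
  have hf1 : (1 + δ + ε) * f 1 = δ * p 1 + (1 + ε) * e 1 := by
    simp only [hf, PiLp.add_apply, PiLp.smul_apply, smul_eq_mul]; field_simp
  have hde' : d ≠ e := by
    intro hde'
    rw [← hde'] at he0 he1
    refine hz' (area_eq_zero_of (k := ε - δ) (l := ε * (1 + δ)) (sub_ne_zero.2 hδε.symm) ?_ ?_)
    · linear_combination (1 + δ) * he0 - (1 + ε) * hd0
    · linear_combination (1 + δ) * he1 - (1 + ε) * hd1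
  have hpe : p ≠ e := by
    intro hpe
    rw [← hpe] at he0 he1
    refine hz' (area_eq_zero_of (k := 1) (l := -ε) one_ne_zero ?_ ?_)
    · linear_combination - he0
    · linear_combination - he1
  have hqd : q ≠ d := by
    intro hqd
    rw [← hqd] at hd0 hd1
    refine hz' (area_eq_zero_of (k := 1) (l := 1 + δ) one_ne_zero ?_ ?_)
    · linear_combination - hd0
    · linear_combination - hd1
  have hzf : z ≠ f := by
    intro hzf
    rw [← hzf] at hf0 hf1
    refine hz' (area_eq_zero_of (k := δ + ε) (l := ε) hs.ne' ?_ ?_)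
    · linear_combination hf0 + he0
    · linear_combination hf1 + he1
  -- the incidences
  obtain ⟨a₁, a₂, ha₁, ha₂, Ed⟩ := h.line z hz p hp d hdU hzp _ _ (by positivity) (by positivity)
    (by field_simp) hd
  obtain ⟨b₁, b₂, hb₁, hb₂, Ee⟩ := h.line z hz q hq e heU hzq _ _ (by positivity) (by positivity)
    (by field_simp) he
  obtain ⟨c₁, c₂, hc₁, hc₂, Er⟩ := h.line d hdU e heU r hr hde' ((1 + δ) / (δ - ε))
    (-(1 + ε) / (δ - ε)) (div_ne_zero a1 hde) (div_ne_zero (neg_ne_zero.2 a2) hde)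
    (by field_simp; ring) (by
      have r0 : (δ - ε) * r 0 = δ * p 0 - ε * q 0 := by
        have := congrArg (fun w : E2 => w 0) hr'; simpa using this
      have r1 : (δ - ε) * r 1 = δ * p 1 - ε * q 1 := by
        have := congrArg (fun w : E2 => w 1) hr'; simpa using this
      apply E2_ext
      · simp only [PiLp.add_apply, PiLp.smul_apply, smul_eq_mul]
        field_simp
        linear_combination r0 - hd0 + he0
      · simp only [PiLp.add_apply, PiLp.smul_apply, smul_eq_mul]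
        field_simp
        linear_combination r1 - hd1 + he1)
  obtain ⟨ρ₁, ρ₂, hρ₁, hρ₂, Er'⟩ := h.line p hp q hq r hr hpq _ _
    (div_ne_zero hδ.ne' hde) (div_ne_zero (neg_ne_zero.2 hε.ne') hde) (by field_simp; ring) hr1
  obtain ⟨g₁, g₂, hg₁, hg₂, Ef⟩ := h.line p hp e heU f hfU hpe _ _ (by positivity) (by positivity)
    (by field_simp; ring) hf
  obtain ⟨h₁, h₂, hh₁, hh₂, Ef'⟩ := h.line q hq d hdU f hfU hqd (ε / (1 + δ + ε))
    ((1 + δ) / (1 + δ + ε)) (by positivity) (by positivity)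
    (by field_simp; ring) (by
      apply E2_ext
      · simp only [PiLp.add_apply, PiLp.smul_apply, smul_eq_mul]
        field_simp
        linear_combination hf0 - hd0 + he0
      · simp only [PiLp.add_apply, PiLp.smul_apply, smul_eq_mul]
        field_simp
        linear_combination hf1 - hd1 + he1)
  obtain ⟨k₁, k₂, hk₁, hk₂, Em⟩ := h.line z hz f hfU m hm hzf (-1 / (δ + ε))
    ((1 + δ + ε) / (δ + ε)) (div_ne_zero (by norm_num) hs.ne') (by positivity)
    (by field_simp; ring) (by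
      have m0 : (δ + ε) * m 0 = δ * p 0 + ε * q 0 := by
        have := congrArg (fun w : E2 => w 0) hm'; simpa using this
      have m1 : (δ + ε) * m 1 = δ * p 1 + ε * q 1 := by
        have := congrArg (fun w : E2 => w 1) hm'; simpa using this
      apply E2_ext
      · simp only [PiLp.add_apply, PiLp.smul_apply, smul_eq_mul]
        field_simp
        linear_combination m0 - hf0 - he0
      · simp only [PiLp.add_apply, PiLp.smul_apply, smul_eq_mul]
        field_simp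
        linear_combination m1 - hf1 - he1)
  obtain ⟨μ₁, μ₂, hμ₁, hμ₂, Em'⟩ := h.line p hp q hq m hm hpq _ _
    (by positivity) (by positivity) (by field_simp) hm1
  obtain ⟨cp, hcp, Ep⟩ := fp
  obtain ⟨cq, hcq, Eq⟩ := fq
  obtain ⟨cr', hcr', Efr⟩ := fr
  -- comparison of coefficients
  obtain ⟨E1, E2', E3'⟩ := h.indep z hz p hp q hq area_zpq (c₁ * a₁ + c₂ * b₁) (c₁ * a₂ - ρ₁)
    (c₂ * b₂ - ρ₂) (by
      have : c₁ • (a₁ • Φ z + a₂ • Φ p) + c₂ • (b₁ • Φ z + b₂ • Φ q) = ρ₁ • Φ p + ρ₂ • Φ q := by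
        rw [← Ed, ← Ee, ← Er, ← Er']
      linear_combination (norm := module) this)
  obtain ⟨F1, F2, F3⟩ := h.indep z hz p hp q hq area_zpq (g₂ * b₁ - h₂ * a₁) (g₁ - h₂ * a₂)
    (g₂ * b₂ - h₁) (by
      have : g₁ • Φ p + g₂ • (b₁ • Φ z + b₂ • Φ q) = h₁ • Φ q + h₂ • (a₁ • Φ z + a₂ • Φ p) := by
        rw [← Ed, ← Ee, ← Ef, ← Ef']
      linear_combination (norm := module) this)
  obtain ⟨G1, G2, G3⟩ := h.indep z hz p hp q hq area_zpq (k₁ + k₂ * (g₂ * b₁)) (k₂ * g₁ - μ₁)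
    (k₂ * (g₂ * b₂) - μ₂) (by
      have : k₁ • Φ z + k₂ • (g₁ • Φ p + g₂ • (b₁ • Φ z + b₂ • Φ q)) = μ₁ • Φ p + μ₂ • Φ q := by
        rw [← Ee, ← Ef, ← Em, ← Em']
      linear_combination (norm := module) this)
  -- the position of r
  have Tr : (δ - ε) • T (hat r) = δ • T (hat p) - ε • T (hat q) := by
    rw [hat_comb2 (by field_simp; ring) hr1, map_add, map_smul, map_smul, smul_add, smul_smul,
      smul_smul, mul_div_cancel₀ _ hde, mul_div_cancel₀ _ hde, neg_smul, sub_eq_add_neg]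
  have Tm : (δ + ε) • T (hat m) = δ • T (hat p) + ε • T (hat q) := by
    rw [hat_comb2 (by field_simp) hm1, map_add, map_smul, map_smul, smul_add, smul_smul,
      smul_smul, mul_div_cancel₀ _ hs.ne', mul_div_cancel₀ _ hs.ne']
  obtain ⟨-, H2, H3⟩ := h.indep z hz p hp q hq area_zpq 0 ((δ - ε) * ρ₁ - cr' * δ / cp)
    ((δ - ε) * ρ₂ + cr' * ε / cq) (by
      have e1 : T (hat p) = (1 / cp) • Φ p := by
        rw [Ep, smul_smul, one_div, inv_mul_cancel₀ hcp, one_smul]
      have e2 : T (hat q) = (1 / cq) • Φ q := by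
        rw [Eq, smul_smul, one_div, inv_mul_cancel₀ hcq, one_smul]
      have e3 : (δ - ε) • (ρ₁ • Φ p + ρ₂ • Φ q) = cr' • (δ • T (hat p) - ε • T (hat q)) := by
        rw [← Er', Efr, ← Tr, smul_smul, smul_smul, mul_comm]
      rw [e1, e2] at e3
      linear_combination (norm := module) e3)
  -- conclusion
  have hrel : μ₁ * cp * ε = μ₂ * cq * δ := by
    have H2' : (δ - ε) * ρ₁ * cp = cr' * δ := by
      have : (δ - ε) * ρ₁ = cr' * δ / cp := by linarith
      rw [this, div_mul_cancel₀ _ hcp]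
    have H3' : (δ - ε) * ρ₂ * cq = -(cr' * ε) := by
      have : (δ - ε) * ρ₂ = -(cr' * ε / cq) := by linarith
      rw [this, neg_mul, div_mul_cancel₀ _ hcq]
    have m1 : μ₁ = k₂ * (h₂ * a₂) := by
      have : g₁ = h₂ * a₂ := by linarith
      rw [← this]; linarith
    have m2 : μ₂ = k₂ * (g₂ * b₂) := by linarith
    have r1' : ρ₁ = c₁ * a₂ := by linarith
    have r2' : ρ₂ = c₂ * b₂ := by linarith
    rw [r1'] at H2'
    rw [r2'] at H3'
    -- c₁ a₂ cp ε = - c₂ b₂ cq δ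
    have h4 : (δ - ε) * (c₁ * a₂ * cp * ε + c₂ * b₂ * cq * δ) = 0 := by
      linear_combination ε * H2' + δ * H3'
    have h5 : c₁ * a₂ * cp * ε + c₂ * b₂ * cq * δ = 0 := by
      rcases mul_eq_zero.1 h4 with h6 | h6
      · exact absurd h6 hde
      · exact h6
    rw [m1, m2]
    have h6 : b₁ * c₁ * (k₂ * (h₂ * a₂) * cp * ε - k₂ * (g₂ * b₂) * cq * δ) = 0 := by
      have g2b1 : g₂ * b₁ = h₂ * a₁ := by linarith
      have c2b1 : c₂ * b₁ = -(c₁ * a₁) := by linarith
      linear_combination (k₂ * h₂ * b₁) * h5 - (k₂ * h₂ * b₂ * cq * δ) * c2b1 -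
        (k₂ * b₂ * cq * δ * c₁) * g2b1
    rcases mul_eq_zero.1 h6 with h7 | h7
    · exact absurd h7 (mul_ne_zero hb₁ hc₁)
    · linarith
  refine ⟨μ₁ * cp * (δ + ε) / δ, ?_, ?_⟩
  · exact div_ne_zero (mul_ne_zero (mul_ne_zero hμ₁ hcp) hs.ne') hδ.ne'
  · have : μ₂ * cq = μ₁ * cp * ε / δ := by
      rw [eq_div_iff hδ.ne']; linarith
    rw [Em', Ep, Eq, smul_smul, smul_smul, this, mul_div_assoc, mul_div_assoc, ← smul_smul (μ₁ * cp),
      ← smul_smul (μ₁ * cp), ← smul_add]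
    congr 1
    have : ((δ + ε) / δ) • T (hat m) = δ⁻¹ • ((δ + ε) • T (hat m)) := by
      rw [smul_smul]; congr 1; field_simp
    rw [this, Tm, smul_add, smul_smul, smul_smul, inv_mul_cancel₀ hδ.ne', one_smul]
    congr 2
    field_simp

/-- Sequential closedness of the set of fixed points. -/
def FixClosed (U : Set E2) (Φ : E2 → W) (T : E3 →ₗ[ℝ] W) : Prop :=
  ∀ (u : ℕ → E2) (x : E2), (∀ n, u n ∈ U) → x ∈ U → Tendsto u atTop (𝓝 x) →
    (∀ n, Fix Φ T (u n)) → Fix Φ T x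

/-- A segment with three fixed points, two of them the end points, is fixed. -/
theorem Collin.fix_segment (h : Collin U Φ) (hU : IsOpen U) (hUc : Convex ℝ U)
    (hcl : FixClosed U Φ T) {x y : E2} (hx : x ∈ U) (hy : y ∈ U) (hxy : x ≠ y)
    (fx : Fix Φ T x) (fy : Fix Φ T y) {t₁ : ℝ} (ht0 : 0 < t₁) (ht1 : t₁ < 1)
    (f1 : Fix Φ T ((1 - t₁) • x + t₁ • y)) {t : ℝ} (ht : t ∈ Icc (0:ℝ) 1) :
    Fix Φ T ((1 - t) • x + t • y) := by
  by_contra hcon
  set P : ℝ → E2 := fun t => (1 - t) • x + t • y with hP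
  have hPU : ∀ t ∈ Icc (0:ℝ) 1, P t ∈ U := by
    intro t ht
    exact hUc hx hy (by linarith [ht.2]) ht.1 (by ring)
  have hPc : Continuous P := by simp only [hP]; fun_prop
  have hPinj : ∀ s t, s ≠ t → P s ≠ P t := by
    intro s t hst he
    have : (t - s) • (y - x) = 0 := by
      simp only [hP] at he
      linear_combination (norm := module) -he
    rcases smul_eq_zero.1 this with h1 | h1
    · exact hst (by linarith)
    · exact hxy (sub_eq_zero.1 h1).symm
  set S : Set ℝ := {t | t ∈ Icc (0:ℝ) 1 ∧ Fix Φ T (P t)} with hS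
  have hScl : IsClosed S := by
    apply IsSeqClosed.isClosed
    intro u t hu hut
    have h1 : t ∈ Icc (0:ℝ) 1 := isClosed_Icc.mem_of_tendsto hut (Eventually.of_forall fun n => (hu n).1)
    exact ⟨h1, hcl (fun n => P (u n)) (P t) (fun n => hPU _ (hu n).1) (hPU _ h1)
      ((hPc.tendsto t).comp hut) (fun n => (hu n).2)⟩
  have h0S : (0:ℝ) ∈ S := ⟨by simp, by simpa [hP] using fx⟩
  have h1S : (1:ℝ) ∈ S := ⟨by simp, by simpa [hP] using fy⟩
  have htS : t₁ ∈ S := ⟨⟨ht0.le, ht1.le⟩, f1⟩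
  have hc1 : IsCompact (S ∩ Icc 0 t) := isCompact_Icc.inter_left hScl
  have hc2 : IsCompact (S ∩ Icc t 1) := isCompact_Icc.inter_left hScl
  obtain ⟨p', hp', hp'm⟩ := hc1.exists_isGreatest ⟨0, h0S, by simp [ht.1]⟩
  obtain ⟨q', hq', hq'm⟩ := hc2.exists_isLeast ⟨1, h1S, by simp [ht.2]⟩
  have hpt : p' < t := lt_of_le_of_ne hp'.2.2 (by rintro rfl; exact hcon hp'.1.2)
  have htq : t < q' := lt_of_le_of_ne hq'.2.1 (by rintro rfl; exact hcon hq'.1.2)
  have hgap : ∀ u ∈ S, u ≤ p' ∨ q' ≤ u := by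
    intro u hu
    rcases le_total u t with h1 | h1
    · exact Or.inl (hp'm ⟨hu, hu.1.1, h1⟩)
    · exact Or.inr (hq'm ⟨hu, h1, hu.1.2⟩)
  have hp0 := hp'.1.1.1
  have hq1 := hq'.1.1.2
  have hPp : P p' ∈ U := hPU _ hp'.1.1
  have hPq : P q' ∈ U := hPU _ hq'.1.1
  have hpq : P p' ≠ P q' := hPinj _ _ (by linarith)
  -- the harmonic conjugate lies in the gap
  have main : ∀ δ ε : ℝ, 0 < δ → 0 < ε → δ ≠ ε → ∀ r' ∈ S, (δ - ε) * r' = δ * p' - ε * q' →
      False := by
    intro δ ε hδ hε hδε r' hr' hr'eq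
    set m' := (δ * p' + ε * q') / (δ + ε) with hm'
    have hs : 0 < δ + ε := by positivity
    have hm'eq : (δ + ε) * m' = δ * p' + ε * q' := by rw [hm']; field_simp
    have hm1 : p' < m' := by
      rw [hm', lt_div_iff₀ hs]; nlinarith
    have hm2 : m' < q' := by
      rw [hm', div_lt_iff₀ hs]; nlinarith
    have hmI : m' ∈ Icc (0:ℝ) 1 := ⟨by linarith, by linarith⟩
    have hfix : Fix Φ T (P m') := by
      refine h.fix_harm hU hUc hPp hPq (hPU _ hr'.1) hpq hp'.1.2 hq'.1.2 hr'.2 hδ hε hδε ?_ ?_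
      · have e : (δ - ε) • P r' = (δ - ε) • x + ((δ - ε) * r') • (y - x) := by
          simp only [hP]; module
        rw [e, hr'eq]; simp only [hP]; module
      · have e : (δ + ε) • P m' = (δ + ε) • x + ((δ + ε) * m') • (y - x) := by
          simp only [hP]; module
        rw [e, hm'eq]; simp only [hP]; module
    rcases hgap m' ⟨hmI, hfix⟩ with h1 | h1 <;> linarith
  rcases hgap t₁ htS with h1 | h1
  · exact main q' p' (by linarith) (by linarith) (by linarith) 0 h0S (by ring)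
  · exact main (1 - q') (1 - p') (by linarith) (by linarith)
      (fun hne => by linarith) 1 h1S (by ring)

theorem Collin.fix_side (h : Collin U Φ) (hU : IsOpen U) (hUc : Convex ℝ U)
    (hT : Function.Injective T) (hcl : FixClosed U Φ T) {a b c : E2} (ha : a ∈ U) (hb : b ∈ U)
    (hc : c ∈ U) (habc : area a b c ≠ 0) (fa : Fix Φ T a) (fb : Fix Φ T b) (fc : Fix Φ T c)
    (fg : Fix Φ T ((1/3 : ℝ) • a + (1/3 : ℝ) • b + (1/3 : ℝ) • c)) {t : ℝ}
    (ht : t ∈ Icc (0:ℝ) 1) : Fix Φ T ((1 - t) • b + t • c) := by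
  have hbc : b ≠ c := by
    rintro rfl; simp [area] at habc; exact habc (by ring)
  set g : E2 := (1/3 : ℝ) • a + (1/3 : ℝ) • b + (1/3 : ℝ) • c with hg
  have hgU : g ∈ U := by
    have h1 : (1/2 : ℝ) • b + (1/2 : ℝ) • c ∈ U :=
      hUc hb hc (by norm_num) (by norm_num) (by norm_num)
    have h2 := hUc ha h1 (show (0:ℝ) ≤ 1/3 by norm_num) (show (0:ℝ) ≤ 2/3 by norm_num) (by norm_num)
    have : g = (1/3 : ℝ) • a + (2/3 : ℝ) • ((1/2 : ℝ) • b + (1/2 : ℝ) • c) := by
      rw [hg]; module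
    rw [this]; exact h2
  have hm : Fix Φ T ((1 - (1/2 : ℝ)) • b + (1/2 : ℝ) • c) := by
    refine h.fix_inter hU hT (p₁ := a) (q₁ := g) (p₂ := b) (q₂ := c) ?_ ha hgU hb hc fa fg fb fc
      ?_ (s₁ := -1/2) (t₁ := 3/2) (s₂ := 1 - 1/2) (t₂ := 1/2) (by norm_num) (by norm_num) ?_ rfl
    · exact hUc hb hc (by norm_num) (by norm_num) (by norm_num)
    · have : cr (g - a) (c - b) = (2/3) * area a b c := by
        simp [cr, hg, area]; ring
      rw [this]
      exact mul_ne_zero (by norm_num) habc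
    · rw [hg]; module
  exact h.fix_segment hU hUc hcl hb hc hbc fb fc (by norm_num) (by norm_num) hm ht

theorem area_rot (a b c : E2) : area b c a = area a b c := by simp [area]; ring

/-- everything inside the triangle is fixed -/
theorem Collin.fix_triangle (h : Collin U Φ) (hU : IsOpen U) (hUc : Convex ℝ U)
    (hT : Function.Injective T) (hcl : FixClosed U Φ T) {a b c : E2} (ha : a ∈ U) (hb : b ∈ U)
    (hc : c ∈ U) (habc : area a b c ≠ 0) (fa : Fix Φ T a) (fb : Fix Φ T b) (fc : Fix Φ T c)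
    (fg : Fix Φ T ((1/3 : ℝ) • a + (1/3 : ℝ) • b + (1/3 : ℝ) • c)) {x₁ x₂ x₃ : ℝ}
    (h1 : 0 < x₁) (h2 : 0 < x₂) (h3 : 0 < x₃) (hs : x₁ + x₂ + x₃ = 1) :
    x₁ • a + x₂ • b + x₃ • c ∈ U ∧ Fix Φ T (x₁ • a + x₂ • b + x₃ • c) := by
  have fg' : Fix Φ T ((1/3 : ℝ) • b + (1/3 : ℝ) • c + (1/3 : ℝ) • a) := by
    have : (1/3 : ℝ) • b + (1/3 : ℝ) • c + (1/3 : ℝ) • a =
      (1/3 : ℝ) • a + (1/3 : ℝ) • b + (1/3 : ℝ) • c := by module
    rwa [this]
  have f1 := h.fix_side hU hUc hT hcl ha hb hc habc fa fb fc fg (t := x₃ / (x₂ + x₃))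
    ⟨by positivity, by rw [div_le_one (by positivity)]; linarith⟩
  have f2 := h.fix_side hU hUc hT hcl hb hc ha (by rwa [area_rot]) fb fc fa fg'
    (t := x₁ / (x₁ + x₃)) ⟨by positivity, by rw [div_le_one (by positivity)]; linarith⟩
  have u1 : (1 - x₃ / (x₂ + x₃)) • b + (x₃ / (x₂ + x₃)) • c ∈ U :=
    hUc hb hc (by rw [sub_nonneg, div_le_one (by positivity)]; linarith) (by positivity) (by ring)
  have u2 : (1 - x₁ / (x₁ + x₃)) • c + (x₁ / (x₁ + x₃)) • a ∈ U :=
    hUc hc ha (by rw [sub_nonneg, div_le_one (by positivity)]; linarith) (by positivity) (by ring)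
  have e1 : x₁ • a + x₂ • b + x₃ • c =
      x₁ • a + (x₂ + x₃) • ((1 - x₃ / (x₂ + x₃)) • b + (x₃ / (x₂ + x₃)) • c) := by
    rw [smul_add, smul_smul, smul_smul]
    have : (x₂ + x₃) * (1 - x₃ / (x₂ + x₃)) = x₂ := by field_simp; ring
    rw [this, mul_div_cancel₀ _ (by positivity : x₂ + x₃ ≠ 0)]
    module
  have e2 : x₁ • a + x₂ • b + x₃ • c =
      x₂ • b + (x₁ + x₃) • ((1 - x₁ / (x₁ + x₃)) • c + (x₁ / (x₁ + x₃)) • a) := by
    rw [smul_add, smul_smul, smul_smul]
    have : (x₁ + x₃) * (1 - x₁ / (x₁ + x₃)) = x₃ := by field_simp; ring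
    rw [this, mul_div_cancel₀ _ (by positivity : x₁ + x₃ ≠ 0)]
    module
  have hU' : x₁ • a + x₂ • b + x₃ • c ∈ U := by
    rw [e1]
    exact hUc ha u1 h1.le (by positivity) (by linarith)
  refine ⟨hU', h.fix_inter hU hT hU' ha u1 hb u2 fa f1 fb f2 ?_ (s₁ := x₁) (t₁ := x₂ + x₃)
    (s₂ := x₂) (t₂ := x₁ + x₃) (by linarith) (by linarith) e1 e2⟩
  have : cr ((1 - x₃ / (x₂ + x₃)) • b + (x₃ / (x₂ + x₃)) • c - a)
      ((1 - x₁ / (x₁ + x₃)) • c + (x₁ / (x₁ + x₃)) • a - b) =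
      ((x₂ / (x₂ + x₃)) * (x₃ / (x₁ + x₃)) + x₃ / (x₂ + x₃)) * area a b c := by
    simp only [cr, area, PiLp.add_apply, PiLp.sub_apply, PiLp.smul_apply, smul_eq_mul]
    field_simp
    ring
  rw [this]
  exact mul_ne_zero (by positivity) habc

theorem recover {s : ℝ} (hs : s ≠ 0) (p x : E2) :
    x = (-(1 - s) / s) • p + (1 / s) • ((1 - s) • p + s • x) := by
  rw [smul_add, smul_smul, smul_smul, ← add_assoc, ← add_smul]
  have e1 : -(1 - s) / s + 1 / s * (1 - s) = 0 := by field_simp; ring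
  have e2 : 1 / s * s = 1 := by field_simp
  rw [e1, e2]; simp

theorem Collin.fix_all (h : Collin U Φ) (hU : IsOpen U) (hUc : Convex ℝ U)
    (hT : Function.Injective T) (hcl : FixClosed U Φ T) {a b c : E2} (ha : a ∈ U) (hb : b ∈ U)
    (hc : c ∈ U) (habc : area a b c ≠ 0) (fa : Fix Φ T a) (fb : Fix Φ T b) (fc : Fix Φ T c)
    (fg : Fix Φ T ((1/3 : ℝ) • a + (1/3 : ℝ) • b + (1/3 : ℝ) • c)) {x : E2} (hx : x ∈ U) :
    Fix Φ T x := by
  have tri := fun {x₁ x₂ x₃ : ℝ} (h1 : 0 < x₁) (h2 : 0 < x₂) (h3 : 0 < x₃)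
    (hs : x₁ + x₂ + x₃ = 1) => h.fix_triangle hU hUc hT hcl ha hb hc habc fa fb fc fg h1 h2 h3 hs
  -- barycentric coordinates
  set x₁ := area x b c / area a b c with hx1
  set x₂ := area a x c / area a b c with hx2
  set x₃ := area a b x / area a b c with hx3
  have hsum : x₁ + x₂ + x₃ = 1 := by
    rw [hx1, hx2, hx3, ← add_div, ← add_div, div_eq_one_iff_eq habc]
    simp [area]; ring
  have hxe : x = x₁ • a + x₂ • b + x₃ • c := by
    apply E2_ext
    · simp only [PiLp.add_apply, PiLp.smul_apply, smul_eq_mul, hx1, hx2, hx3]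
      rw [div_mul_eq_mul_div, div_mul_eq_mul_div, div_mul_eq_mul_div, ← add_div, ← add_div,
        eq_div_iff habc]
      simp only [area]; ring
    · simp only [PiLp.add_apply, PiLp.smul_apply, smul_eq_mul, hx1, hx2, hx3]
      rw [div_mul_eq_mul_div, div_mul_eq_mul_div, div_mul_eq_mul_div, ← add_div, ← add_div,
        eq_div_iff habc]
      simp only [area]; ring
  set M := |x₁| + |x₂| + |x₃| with hM
  have hM0 : 0 ≤ M := by positivity
  have hM1 : -M ≤ x₁ := by
    have := neg_abs_le x₁; have := abs_nonneg x₂; have := abs_nonneg x₃; linarith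
  have hM2 : -M ≤ x₂ := by
    have := neg_abs_le x₂; have := abs_nonneg x₁; have := abs_nonneg x₃; linarith
  have hM3 : -M ≤ x₃ := by
    have := neg_abs_le x₃; have := abs_nonneg x₂; have := abs_nonneg x₁; linarith
  set s := 1 / (2 + 6 * M) with hs
  have hs0 : 0 < s := by positivity
  have hs1 : s * (2 + 6 * M) = 1 := by rw [hs]; field_simp
  have hpos : ∀ v y : ℝ, 1/6 ≤ v → -M ≤ y → 0 < (1 - s) * v + s * y := by
    intro v y hv hy
    have e1 : 0 < 1 - s := by nlinarith [mul_nonneg hs0.le hM0]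
    nlinarith [mul_nonneg hs0.le hM0, mul_le_mul_of_nonneg_left hv e1.le,
      mul_le_mul_of_nonneg_left hy hs0.le]
  set g : E2 := (1/3 : ℝ) • a + (1/3 : ℝ) • b + (1/3 : ℝ) • c with hg
  obtain ⟨hgU, -⟩ := tri (x₁ := 1/3) (x₂ := 1/3) (x₃ := 1/3) (by norm_num) (by norm_num)
    (by norm_num) (by norm_num)
  -- a general step
  have step : ∀ v₁ v₂ v₃ : ℝ, 1/6 ≤ v₁ → 1/6 ≤ v₂ → 1/6 ≤ v₃ → v₁ + v₂ + v₃ = 1 →
      cr (x - g) (x - (v₁ • a + v₂ • b + v₃ • c)) ≠ 0 → Fix Φ T x := by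
    intro v₁ v₂ v₃ h1 h2 h3 hv hcr
    obtain ⟨hvU, fv⟩ := tri (x₁ := v₁) (x₂ := v₂) (x₃ := v₃) (by linarith) (by linarith)
      (by linarith) hv
    obtain ⟨hq1U, fq1⟩ := tri (hpos (1/3) x₁ (by norm_num) hM1) (hpos (1/3) x₂ (by norm_num) hM2)
      (hpos (1/3) x₃ (by norm_num) hM3) (by linear_combination s * hsum)
    obtain ⟨hq2U, fq2⟩ := tri (hpos v₁ x₁ h1 hM1) (hpos v₂ x₂ h2 hM2)
      (hpos v₃ x₃ h3 hM3) (by linear_combination s * hsum + (1 - s) * hv)
    have q1e : ((1 - s) * (1/3) + s * x₁) • a + ((1 - s) * (1/3) + s * x₂) • b +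
        ((1 - s) * (1/3) + s * x₃) • c = (1 - s) • g + s • x := by
      rw [hxe, hg]; module
    have q2e : ((1 - s) * v₁ + s * x₁) • a + ((1 - s) * v₂ + s * x₂) • b +
        ((1 - s) * v₃ + s * x₃) • c = (1 - s) • (v₁ • a + v₂ • b + v₃ • c) + s • x := by
      conv_rhs => rw [hxe]
      module
    rw [q1e] at hq1U fq1
    rw [q2e] at hq2U fq2
    refine h.fix_inter hU hT hx hgU hq1U hvU hq2U fg fq1 fv fq2 ?_ (s₁ := -(1 - s) / s)
      (t₁ := 1 / s) (s₂ := -(1 - s) / s) (t₂ := 1 / s) (by field_simp; ring) (by field_simp; ring)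
      ?_ ?_
    · have : cr ((1 - s) • g + s • x - g)
          ((1 - s) • (v₁ • a + v₂ • b + v₃ • c) + s • x - (v₁ • a + v₂ • b + v₃ • c)) =
          s ^ 2 * cr (x - g) (x - (v₁ • a + v₂ • b + v₃ • c)) := by
        simp only [cr, PiLp.add_apply, PiLp.sub_apply, PiLp.smul_apply, smul_eq_mul]
        ring
      rw [this]
      exact mul_ne_zero (by positivity) hcr
    · exact recover hs0.ne' _ _
    · exact recover hs0.ne' _ _
  by_cases hA : cr (x - g) (x - ((2/3 : ℝ) • a + (1/6 : ℝ) • b + (1/6 : ℝ) • c)) = 0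
  · by_cases hB : cr (x - g) (x - ((1/6 : ℝ) • a + (2/3 : ℝ) • b + (1/6 : ℝ) • c)) = 0
    · -- then x = g
      have hxg : x = g := by
        have k1 : cr (x - g) (a - g) = 0 := by
          have : cr (x - g) (x - ((2/3 : ℝ) • a + (1/6 : ℝ) • b + (1/6 : ℝ) • c)) =
            -(1/2) * cr (x - g) (a - g) := by
            simp only [cr, hg, PiLp.add_apply, PiLp.sub_apply, PiLp.smul_apply, smul_eq_mul]
            ring
          rw [this] at hA
          linarith
        have k2 : cr (x - g) (b - g) = 0 := by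
          have : cr (x - g) (x - ((1/6 : ℝ) • a + (2/3 : ℝ) • b + (1/6 : ℝ) • c)) =
            -(1/2) * cr (x - g) (b - g) := by
            simp only [cr, hg, PiLp.add_apply, PiLp.sub_apply, PiLp.smul_apply, smul_eq_mul]
            ring
          rw [this] at hB
          linarith
        have k3 : cr (a - g) (b - g) = (1/3) * area a b c := by
          simp only [cr, hg, area, PiLp.add_apply, PiLp.sub_apply, PiLp.smul_apply, smul_eq_mul]
          ring
        have k4 : cr (a - g) (b - g) ≠ 0 := by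
          rw [k3]; exact mul_ne_zero (by norm_num) habc
        have z0 : cr (a - g) (b - g) * (x 0 - g 0) = 0 := by
          simp only [cr, PiLp.sub_apply] at k1 k2 ⊢
          linear_combination (a 0 - g 0) * k2 - (b 0 - g 0) * k1
        have z1 : cr (a - g) (b - g) * (x 1 - g 1) = 0 := by
          simp only [cr, PiLp.sub_apply] at k1 k2 ⊢
          linear_combination (a 1 - g 1) * k2 - (b 1 - g 1) * k1
        apply E2_ext
        · have := (mul_eq_zero.1 z0).resolve_left k4; linarith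
        · have := (mul_eq_zero.1 z1).resolve_left k4; linarith
      rw [hxg]; exact fg
    · exact step _ _ _ (by norm_num) (by norm_num) (by norm_num) (by norm_num) hB
  · exact step _ _ _ (by norm_num) (by norm_num) (by norm_num) (by norm_num) hA

/-- the linear functional with given coefficients -/
def lin3 (α β γ : ℝ) : E3 →ₗ[ℝ] ℝ where
  toFun v := α * v 0 + β * v 1 + γ * v 2
  map_add' v w := by simp; ring
  map_smul' c v := by simp; ring

@[simp] theorem lin3_apply (α β γ : ℝ) (v : E3) : lin3 α β γ v = α * v 0 + β * v 1 + γ * v 2 := rfl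

/-- **Local fundamental theorem of projective geometry.** -/
theorem Collin.exists_linear (h : Collin U Φ) (hU : IsOpen U) (hUc : Convex ℝ U)
    (hne : U.Nonempty) (hcl : ∀ T : E3 →ₗ[ℝ] W, Function.Injective T → FixClosed U Φ T) :
    ∃ T : E3 →ₗ[ℝ] W, Function.Injective T ∧ ∀ x ∈ U, Fix Φ T x := by
  obtain ⟨a, ha⟩ := hne
  obtain ⟨b, hb, hb'⟩ := exists_off hU ha (q := a + !₂[1, 0]) (by
    intro he
    have := congrArg (fun w : E2 => w 0) he
    simp at this)
  have hab : a ≠ b := by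
    rintro rfl; simp [area] at hb'
  obtain ⟨c, hc, habc⟩ := exists_off hU ha hab
  have hbc : b ≠ c := by
    rintro rfl; exact habc (by simp [area]; ring)
  -- the centroid
  have hm : (1/2 : ℝ) • b + (1/2 : ℝ) • c ∈ U :=
    hUc hb hc (by norm_num) (by norm_num) (by norm_num)
  set g : E2 := (1/3 : ℝ) • a + (1/3 : ℝ) • b + (1/3 : ℝ) • c with hg
  have hge : g = (1/3 : ℝ) • a + (2/3 : ℝ) • ((1/2 : ℝ) • b + (1/2 : ℝ) • c) := by
    rw [hg]; module
  have hgU : g ∈ U := by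
    rw [hge]; exact hUc ha hm (by norm_num) (by norm_num) (by norm_num)
  obtain ⟨β₀, γ₀, hβ₀, hγ₀, Em⟩ := h.line b hb c hc _ hm hbc (1/2) (1/2) (by norm_num)
    (by norm_num) (by norm_num) rfl
  obtain ⟨α, μ, hα, hμ, Eg⟩ := h.line a ha _ hm g hgU (by
    intro he
    apply habc
    have h0 := congrArg (fun w : E2 => w 0) he
    have h1 := congrArg (fun w : E2 => w 1) he
    simp only [PiLp.add_apply, PiLp.smul_apply, smul_eq_mul] at h0 h1
    refine area_eq_zero_of (k := 1) (l := -1) one_ne_zero ?_ ?_ <;> linarith) (1/3) (2/3)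
    (by norm_num) (by norm_num) (by norm_num) hge
  rw [Em] at Eg
  set β := μ * β₀ with hβd
  set γ := μ * γ₀ with hγd
  have hβ : β ≠ 0 := mul_ne_zero hμ hβ₀
  have hγ : γ ≠ 0 := mul_ne_zero hμ hγ₀
  have Eg' : Φ g = α • Φ a + β • Φ b + γ • Φ c := by
    rw [Eg, hβd, hγd]; module
  set D := area a b c with hD
  set la : E3 →ₗ[ℝ] ℝ := lin3 ((b 1 - c 1) / D) ((c 0 - b 0) / D) ((b 0 * c 1 - b 1 * c 0) / D)
    with hla
  set lb : E3 →ₗ[ℝ] ℝ := lin3 ((c 1 - a 1) / D) ((a 0 - c 0) / D) ((c 0 * a 1 - c 1 * a 0) / D)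
    with hlb
  set lc : E3 →ₗ[ℝ] ℝ := lin3 ((a 1 - b 1) / D) ((b 0 - a 0) / D) ((a 0 * b 1 - a 1 * b 0) / D)
    with hlc
  have cramer : ∀ v : E3, v = la v • hat a + lb v • hat b + lc v • hat c := by
    intro v
    apply E3_ext
    · simp only [hla, hlb, hlc, lin3_apply, PiLp.add_apply, PiLp.smul_apply, smul_eq_mul, hat_zero]
      field_simp
      rw [hD]; simp only [area]; ring
    · simp only [hla, hlb, hlc, lin3_apply, PiLp.add_apply, PiLp.smul_apply, smul_eq_mul, hat_one]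
      field_simp
      rw [hD]; simp only [area]; ring
    · simp only [hla, hlb, hlc, lin3_apply, PiLp.add_apply, PiLp.smul_apply, smul_eq_mul, hat_two]
      field_simp
      rw [hD]; simp only [area]; ring
  set T : E3 →ₗ[ℝ] W := la.smulRight ((3 * α) • Φ a) + lb.smulRight ((3 * β) • Φ b) +
    lc.smulRight ((3 * γ) • Φ c) with hTdef
  have hTapp : ∀ v, T v = (la v * (3 * α)) • Φ a + (lb v * (3 * β)) • Φ b +
      (lc v * (3 * γ)) • Φ c := by
    intro v
    simp [hTdef, smul_smul]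
  have hTinj : Function.Injective T := by
    rw [← LinearMap.ker_eq_bot, LinearMap.ker_eq_bot']
    intro v hv
    rw [hTapp] at hv
    obtain ⟨h1, h2, h3⟩ := h.indep a ha b hb c hc habc _ _ _ hv
    have h1' : la v = 0 := (mul_eq_zero.1 h1).resolve_right (by positivity)
    have h2' : lb v = 0 := (mul_eq_zero.1 h2).resolve_right (by positivity)
    have h3' : lc v = 0 := (mul_eq_zero.1 h3).resolve_right (by positivity)
    rw [cramer v, h1', h2', h3']; simp
  have evala : la (hat a) = 1 ∧ lb (hat a) = 0 ∧ lc (hat a) = 0 := by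
    simp only [hla, hlb, hlc, lin3_apply, hat_zero, hat_one, hat_two]
    refine ⟨?_, ?_, ?_⟩ <;> field_simp <;> (try rw [hD]) <;> (try simp only [area]) <;> ring
  have evalb : la (hat b) = 0 ∧ lb (hat b) = 1 ∧ lc (hat b) = 0 := by
    simp only [hla, hlb, hlc, lin3_apply, hat_zero, hat_one, hat_two]
    refine ⟨?_, ?_, ?_⟩ <;> field_simp <;> (try rw [hD]) <;> (try simp only [area]) <;> ring
  have evalc : la (hat c) = 0 ∧ lb (hat c) = 0 ∧ lc (hat c) = 1 := by
    simp only [hla, hlb, hlc, lin3_apply, hat_zero, hat_one, hat_two]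
    refine ⟨?_, ?_, ?_⟩ <;> field_simp <;> (try rw [hD]) <;> (try simp only [area]) <;> ring
  have Ta : T (hat a) = (3 * α) • Φ a := by
    rw [hTapp, evala.1, evala.2.1, evala.2.2]; simp
  have Tb : T (hat b) = (3 * β) • Φ b := by
    rw [hTapp, evalb.1, evalb.2.1, evalb.2.2]; simp
  have Tc : T (hat c) = (3 * γ) • Φ c := by
    rw [hTapp, evalc.1, evalc.2.1, evalc.2.2]; simp
  refine ⟨T, hTinj, fun x hx => h.fix_all hU hUc hTinj (hcl T hTinj) ha hb hc habc ?_ ?_ ?_ ?_ hx⟩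
  · exact ⟨(3 * α)⁻¹, by positivity, by rw [Ta, smul_smul, inv_mul_cancel₀ (by positivity), one_smul]⟩
  · exact ⟨(3 * β)⁻¹, by positivity, by rw [Tb, smul_smul, inv_mul_cancel₀ (by positivity), one_smul]⟩
  · exact ⟨(3 * γ)⁻¹, by positivity, by rw [Tc, smul_smul, inv_mul_cancel₀ (by positivity), one_smul]⟩
  · refine ⟨1, one_ne_zero, ?_⟩
    rw [one_smul, hat_comb3 (by norm_num) rfl, map_add, map_add, map_smul, map_smul, map_smul,
      Ta, Tb, Tc, ← hg, Eg']
    module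

end

/-- Closedness is automatic for continuous maps into `ℝ³`. -/
theorem fixClosed_of_continuousOn {U : Set E2} {Φ : E2 → E3} (hΦ : ContinuousOn Φ U)
    (h0 : ∀ x ∈ U, Φ x ≠ 0) {T : E3 →ₗ[ℝ] E3} (hT : Function.Injective T) : FixClosed U Φ T := by
  intro u x hu hx hux hfix
  have hTc : Continuous T := T.continuous_of_finiteDimensional
  have hhat : Continuous hat := by
    unfold hat
    fun_prop
  have hT0 : T (hat x) ≠ 0 := by
    intro h
    exact hat_ne_zero x (hT (by rw [h, map_zero]))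
  have h1 : Tendsto (fun n => Φ (u n)) atTop (𝓝 (Φ x)) := by
    have := (hΦ x hx)
    exact this.tendsto.comp (tendsto_nhdsWithin_iff.2 ⟨hux, Eventually.of_forall hu⟩)
  have h2 : Tendsto (fun n => T (hat (u n))) atTop (𝓝 (T (hat x))) :=
    ((hTc.comp hhat).tendsto x).comp hux
  have h3 : |inner ℝ (T (hat x)) (Φ x)| = ‖T (hat x)‖ * ‖Φ x‖ := by
    have e1 : Tendsto (fun n => |inner ℝ (T (hat (u n))) (Φ (u n))|) atTop
        (𝓝 |inner ℝ (T (hat x)) (Φ x)|) := (h2.inner h1).abs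
    have e2 : Tendsto (fun n => ‖T (hat (u n))‖ * ‖Φ (u n)‖) atTop
        (𝓝 (‖T (hat x)‖ * ‖Φ x‖)) := h2.norm.mul h1.norm
    refine tendsto_nhds_unique (e1.congr ?_) e2
    intro n
    obtain ⟨c, -, hc⟩ := hfix n
    rw [hc, real_inner_smul_right, real_inner_self_eq_norm_sq, norm_smul, abs_mul,
      abs_of_nonneg (sq_nonneg ‖T (hat (u n))‖), Real.norm_eq_abs]
    ring
  have hne : ‖T (hat x)‖ * ‖Φ x‖ ≠ 0 := mul_ne_zero (norm_ne_zero_iff.2 hT0)
    (norm_ne_zero_iff.2 (h0 x hx))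
  have h4 : |inner ℝ (T (hat x)) (Φ x) / (‖T (hat x)‖ * ‖Φ x‖)| = 1 := by
    rw [abs_div, abs_of_nonneg (by positivity : 0 ≤ ‖T (hat x)‖ * ‖Φ x‖), h3, div_self hne]
  obtain ⟨-, r, hr, hr'⟩ := (abs_real_inner_div_norm_mul_norm_eq_one_iff _ _).1 h4
  exact ⟨r, hr, hr'⟩

end Pool.Agent.MP_7a5b4a_gt
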