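import Pool.Agent.MP_7a5b4a_gt.Straight

/-!
# Planes of hyperbolic type satisfying the circle identity are hyperbolic
-/

open Filter Topology Set

namespace Pool.Agent.MP_7a5b4a_gt

variable {M : Set E2} {d : E2 → E2 → ℝ}

/-- Functions which along every geodesic line are combinations of `cosh` and `sinh`. -/
def HypAff (M : Set E2) (d : E2 → E2 → ℝ) (f : E2 → ℝ) : Prop :=
  ∀ γ, IsLine M d γ → ∃ a b : ℝ, ∀ t, f (γ t) = a * Real.cosh t + b * Real.sinh t

theorem HypAff.add {f g : E2 → ℝ} (hf : HypAff M d f) (hg : HypAff M d g) :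
    HypAff M d (fun x => f x + g x) := by
  intro γ hγ
  obtain ⟨a, b, h1⟩ := hf γ hγ
  obtain ⟨a', b', h2⟩ := hg γ hγ
  exact ⟨a + a', b + b', fun t => by show f (γ t) + g (γ t) = _; rw [h1, h2]; ring⟩

theorem HypAff.mul {f : E2 → ℝ} (hf : HypAff M d f) (c : ℝ) :
    HypAff M d (fun x => c * f x) := by
  intro γ hγ
  obtain ⟨a, b, h1⟩ := hf γ hγ
  exact ⟨c * a, c * b, fun t => by show c * f (γ t) = _; rw [h1]; ring⟩

theorem HypAff.congr {f g : E2 → ℝ} (hf : HypAff M d f) (h : ∀ x ∈ M, g x = f x) :
    HypAff M d g := by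
  intro γ hγ
  obtain ⟨a, b, h1⟩ := hf γ hγ
  exact ⟨a, b, fun t => by rw [h _ (hγ.mem t), h1]⟩

theorem hyp_law (hP : IsStraightPlane M d) (hσ : CircleIdentity Real.sinh M d) {P : E2}
    (hPM : P ∈ M) : HypAff M d (fun X => Real.cosh (d P X)) := by
  intro γ hγ
  by_cases hoff : P ∈ range γ
  · obtain ⟨t₀, rfl⟩ := hoff
    refine ⟨Real.cosh t₀, -Real.sinh t₀, fun t => ?_⟩
    show Real.cosh (d (γ t₀) (γ t)) = _
    rw [hγ.isom, Real.cosh_abs, Real.cosh_sub]
    ring
  · refine hyp_line (hγ.distLike hP hPM hoff) ?_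
    intro s
    have h1 := hσ.line hP hγ hPM hoff s
    have key : ∀ x : ℝ, Real.cosh x = 1 + 2 * Real.sinh (x / 2) ^ 2 := by
      intro x
      have : Real.cosh x = Real.cosh (2 * (x / 2)) := by congr 1; ring
      rw [this, Real.cosh_two_mul, Real.cosh_sq]; ring
    have h2 := Real.cosh_sq (d P (γ s))
    rw [key (d P (γ (s + d P (γ s)))), key (d P (γ (s - d P (γ s))))]
    linarith

theorem hyp_two_zero {a b s t : ℝ} (hst : s ≠ t) (h1 : a * Real.cosh s + b * Real.sinh s = 0)
    (h2 : a * Real.cosh t + b * Real.sinh t = 0) : a = 0 ∧ b = 0 := by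
  have hD : Real.sinh (t - s) ≠ 0 := by
    rw [Ne, Real.sinh_eq_zero, sub_eq_zero]
    exact hst.symm
  rw [Real.sinh_sub] at hD
  constructor
  · have : a * (Real.sinh t * Real.cosh s - Real.cosh t * Real.sinh s) = 0 := by
      linear_combination Real.sinh t * h1 - Real.sinh s * h2
    exact (mul_eq_zero.1 this).resolve_right hD
  · have : b * (Real.sinh t * Real.cosh s - Real.cosh t * Real.sinh s) = 0 := by
      linear_combination Real.cosh s * h2 - Real.cosh t * h1
    exact (mul_eq_zero.1 this).resolve_right hD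

theorem HypAff.eq_zero (hP : IsStraightPlane M d) {f : E2 → ℝ} (hf : HypAff M d f) {a b c : E2}
    (ha : a ∈ M) (hb : b ∈ M) (hc : c ∈ M) (habc : area a b c ≠ 0) (fa : f a = 0) (fb : f b = 0)
    (fc : f c = 0) {z : E2} (hz : z ∈ M) : f z = 0 := by
  have := propagate hP.convex (S := {x | x ∈ M ∧ f x = 0}) (fun x hx => hx.1) ?_
    ⟨ha, fa⟩ ⟨hb, fb⟩ ⟨hc, fc⟩ habc hz
  · exact this.2
  · rintro x ⟨hx, fx⟩ y ⟨hy, fy⟩ hxy w hw α β hαβ hwe
    obtain ⟨γ, hγ, h0, h1⟩ := hP.exists_line hx hy hxy
    obtain ⟨u, hu⟩ := hγ.exists_of_comb (s := 0) (t := d x y) hw hαβ (by rw [h0, h1]; exact hwe)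
    obtain ⟨A, B, hAB⟩ := hf γ hγ
    have hpos := hP.metric.pos hx hy hxy
    have e1 := hAB 0
    have e2 := hAB (d x y)
    rw [h0, fx] at e1
    rw [h1, fy] at e2
    obtain ⟨rfl, rfl⟩ := hyp_two_zero hpos.ne e1.symm e2.symm
    refine ⟨hw, ?_⟩
    rw [hu, hAB]; ring

/-- Coordinates: an isometric map to the hyperboloid. -/
theorem hyp_coords (hP : IsStraightPlane M d) (hσ : CircleIdentity Real.sinh M d) :
    ∃ (O : E2) (Φ : E2 → E3), O ∈ M ∧ (∀ i, HypAff M d (fun X => Φ X i)) ∧
      (∀ X ∈ M, Φ X 2 = Real.cosh (d X O)) ∧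
      (∀ X ∈ M, ∀ Y ∈ M, Real.cosh (d X Y) = Φ X 2 * Φ Y 2 - Φ X 0 * Φ Y 0 - Φ X 1 * Φ Y 1) ∧
      ContinuousOn Φ M := by
  obtain ⟨γ, η, hγ, hη, h0, harea⟩ := hP.exists_axes
  have hm := hP.metric
  set O := γ 0 with hO
  have hOM : O ∈ M := hγ.mem 0
  have hγ1 : γ 1 ∈ M := hγ.mem 1
  have hη1 : η 1 ∈ M := hη.mem 1
  have hs1 : 0 < Real.sinh 1 := Real.sinh_pos_iff.2 one_pos
  have hc1 : Real.cosh 1 ^ 2 = Real.sinh 1 ^ 2 + 1 := Real.cosh_sq 1
  set x0 : E2 → ℝ := fun X => Real.cosh (d X O) with hx0
  set x1 : E2 → ℝ := fun X => (x0 X * Real.cosh 1 - Real.cosh (d X (γ 1))) / Real.sinh 1 with hx1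
  set v : E2 → ℝ := fun X => (x0 X * Real.cosh 1 - Real.cosh (d X (η 1))) / Real.sinh 1 with hv
  have x1s : ∀ X, x1 X * Real.sinh 1 = x0 X * Real.cosh 1 - Real.cosh (d X (γ 1)) := by
    intro X; simp only [hx1]; field_simp
  have vs : ∀ X, v X * Real.sinh 1 = x0 X * Real.cosh 1 - Real.cosh (d X (η 1)) := by
    intro X; simp only [hv]; field_simp
  -- values of distances
  have dOγ : d O (γ 1) = 1 := by rw [hO, hγ.isom]; norm_num
  have dOη : d O (η 1) = 1 := by rw [h0, hη.isom]; norm_num
  have dγO : d (γ 1) O = 1 := by rw [hm.symm _ hγ1 _ hOM, dOγ]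
  have dηO : d (η 1) O = 1 := by rw [hm.symm _ hη1 _ hOM, dOη]
  -- `x0 , x1, v` are HypAff
  have HA : ∀ P ∈ M, HypAff M d (fun X => Real.cosh (d X P)) := by
    intro P hPM
    exact (hyp_law hP hσ hPM).congr (fun x hx => by rw [hm.symm _ hx _ hPM])
  have Hx0 : HypAff M d x0 := HA O hOM
  have Hx1 : HypAff M d x1 := by
    refine ((Hx0.mul (Real.cosh 1 / Real.sinh 1)).add ((HA _ hγ1).mul (-1 / Real.sinh 1))).congr ?_
    intro X _
    simp only [hx1]; field_simp; ring
  have Hv : HypAff M d v := by
    refine ((Hx0.mul (Real.cosh 1 / Real.sinh 1)).add ((HA _ hη1).mul (-1 / Real.sinh 1))).congr ?_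
    intro X _
    simp only [hv]; field_simp; ring
  -- law along the axes
  have lawη : ∀ X ∈ M, ∀ t, Real.cosh (d X (η t)) = x0 X * Real.cosh t - v X * Real.sinh t := by
    intro X hX t
    obtain ⟨a, b, hab⟩ := hyp_law hP hσ hX η hη
    have e0 := hab 0
    have e1 := hab 1
    rw [← h0] at e0
    simp only [Real.cosh_zero, Real.sinh_zero, mul_one, mul_zero, add_zero] at e0
    have hb : b = -v X := by
      have h1 := vs X
      have : (b + v X) * Real.sinh 1 = 0 := by
        rw [add_mul, h1]
        simp only [hx0]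
        rw [e0]; linarith
      have := (mul_eq_zero.1 this).resolve_right hs1.ne'
      linarith
    have e2 : Real.cosh (d X (η t)) = a * Real.cosh t + b * Real.sinh t := hab t
    rw [e2, hb, ← e0]
    simp only [hx0]
    ring
  have vO : v O = 0 := by
    have := vs O
    rw [dOη] at this
    simp only [hx0, hm.self hOM, Real.cosh_zero, one_mul, sub_self] at this
    exact (mul_eq_zero.1 this).resolve_right hs1.ne'
  have x1O : x1 O = 0 := by
    have := x1s O
    rw [dOγ] at this
    simp only [hx0, hm.self hOM, Real.cosh_zero, one_mul, sub_self] at this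
    exact (mul_eq_zero.1 this).resolve_right hs1.ne'
  set κ := v (γ 1) / Real.sinh 1 with hκ
  have vγ : ∀ t, v (γ t) = κ * Real.sinh t := by
    intro t
    obtain ⟨a, b, hab⟩ := Hv γ hγ
    have e0 := hab 0
    have e1 := hab 1
    rw [← hO, vO] at e0
    simp only [Real.cosh_zero, Real.sinh_zero, mul_one, mul_zero, add_zero] at e0
    rw [← e0, zero_mul, zero_add] at e1
    rw [hab t, ← e0, hκ, e1]
    field_simp
    ring
  have dγη : ∀ s t, Real.cosh (d (γ s) (η t)) =
      Real.cosh s * Real.cosh t - κ * Real.sinh s * Real.sinh t := by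
    intro s t
    rw [lawη _ (hγ.mem s), vγ]
    have : x0 (γ s) = Real.cosh s := by
      simp only [hx0]
      rw [hO, hγ.isom, sub_zero, Real.cosh_abs]
    rw [this]
  have hne : ∀ s, s ≠ 0 → 1 < Real.cosh (d (γ s) (η 1)) := by
    intro s hs
    have hne : γ s ≠ η 1 := by
      intro he
      apply harea s 1 hs one_ne_zero
      rw [he]; simp [area]; ring
    rw [Real.one_lt_cosh]
    exact (hm.pos (hγ.mem s) hη1 hne).ne'
  have hκ1 : κ < 1 := by
    have h1 := hne 1 one_ne_zero
    rw [dγη] at h1
    nlinarith [mul_pos hs1 hs1]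
  have hκ2 : -1 < κ := by
    have h1 := hne (-1) (by norm_num)
    rw [dγη, Real.cosh_neg, Real.sinh_neg] at h1
    nlinarith [mul_pos hs1 hs1]
  have hω2 : 0 < 1 - κ ^ 2 := by nlinarith
  set ω := Real.sqrt (1 - κ ^ 2) with hω
  have hω0 : 0 < ω := Real.sqrt_pos.2 hω2
  have hωsq : ω ^ 2 = 1 - κ ^ 2 := Real.sq_sqrt hω2.le
  set x2 : E2 → ℝ := fun X => (v X - κ * x1 X) / ω with hx2
  have x2s : ∀ X, x2 X * ω = v X - κ * x1 X := by
    intro X; simp only [hx2]; field_simp
  have Hx2 : HypAff M d x2 := by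
    refine ((Hv.mul (1 / ω)).add (Hx1.mul (-κ / ω))).congr ?_
    intro X _
    simp only [hx2]; field_simp; ring
  -- special values
  have x0O : x0 O = 1 := by simp only [hx0, hm.self hOM, Real.cosh_zero]
  have x2O : x2 O = 0 := by
    have := x2s O
    rw [vO, x1O] at this
    simpa [hω0.ne'] using this
  have x0γ : x0 (γ 1) = Real.cosh 1 := by simp only [hx0, dγO]
  have x0η : x0 (η 1) = Real.cosh 1 := by simp only [hx0, dηO]
  have x1γ : x1 (γ 1) = Real.sinh 1 := by
    have := x1s (γ 1)
    rw [x0γ, hm.self hγ1, Real.cosh_zero] at this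
    have h2 : (x1 (γ 1) - Real.sinh 1) * Real.sinh 1 = 0 := by
      rw [sub_mul, this]; linarith
    have := (mul_eq_zero.1 h2).resolve_right hs1.ne'
    linarith
  have vη : v (η 1) = Real.sinh 1 := by
    have := vs (η 1)
    rw [x0η, hm.self hη1, Real.cosh_zero] at this
    have h2 : (v (η 1) - Real.sinh 1) * Real.sinh 1 = 0 := by
      rw [sub_mul, this]; linarith
    have := (mul_eq_zero.1 h2).resolve_right hs1.ne'
    linarith
  have x1η : x1 (η 1) = κ * Real.sinh 1 := by
    have := x1s (η 1)
    rw [x0η, hm.symm _ hη1 _ hγ1, dγη] at this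
    have h2 : (x1 (η 1) - κ * Real.sinh 1) * Real.sinh 1 = 0 := by
      rw [sub_mul, this]; ring
    have := (mul_eq_zero.1 h2).resolve_right hs1.ne'
    linarith
  have x2γ : x2 (γ 1) = 0 := by
    have := x2s (γ 1)
    rw [vγ, x1γ, sub_self] at this
    exact (mul_eq_zero.1 this).resolve_right hω0.ne'
  have x2η : x2 (η 1) = ω * Real.sinh 1 := by
    have := x2s (η 1)
    rw [vη, x1η] at this
    have h2 : (x2 (η 1) - ω * Real.sinh 1) * ω = 0 := by
      rw [sub_mul, this]; linear_combination (-Real.sinh 1) * hωsq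
    have := (mul_eq_zero.1 h2).resolve_right hω0.ne'
    linarith
  -- the main formula
  have main : ∀ X ∈ M, ∀ Y ∈ M,
      Real.cosh (d X Y) = x0 X * x0 Y - x1 X * x1 Y - x2 X * x2 Y := by
    intro X hX Y hY
    have Hf : HypAff M d (fun Y => Real.cosh (d X Y) + (-(x0 X)) * x0 Y + (x1 X) * x1 Y +
        (x2 X) * x2 Y) :=
      (((hyp_law hP hσ hX).add (Hx0.mul _)).add (Hx1.mul _)).add (Hx2.mul _)
    have h3 := Hf.eq_zero hP hOM hγ1 hη1 (harea 1 1 one_ne_zero one_ne_zero) ?_ ?_ ?_ hY
    · linarith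
    · have e : x0 X = Real.cosh (d X O) := rfl
      simp only [x0O, x1O, x2O, e]; ring
    · simp only [x0γ, x1γ, x2γ]
      linear_combination x1s X
    · simp only [x0η, x1η, x2η]
      linear_combination vs X + Real.sinh 1 * x2s X
  -- the map
  refine ⟨O, fun X => !₂[x1 X, x2 X, x0 X], hOM, ?_, fun X _ => rfl, ?_, ?_⟩
  · intro i
    fin_cases i
    · exact Hx1
    · exact Hx2
    · exact Hx0
  · intro X hX Y hY
    rw [main X hX Y hY]
    rfl
  · have hcont : ∀ P ∈ M, ContinuousOn (fun X => d X P) M := by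
      intro P hPM
      exact hP.continuous.comp (f := fun X : E2 => ((X, P) : E2 × E2))
        (by fun_prop) (fun X hX => ⟨hX, hPM⟩)
    have c0 : ContinuousOn x0 M := Real.continuous_cosh.comp_continuousOn (hcont O hOM)
    have c1 : ContinuousOn x1 M :=
      ((c0.mul continuousOn_const).sub
        (Real.continuous_cosh.comp_continuousOn (hcont _ hγ1))).div_const _
    have cv : ContinuousOn v M :=
      ((c0.mul continuousOn_const).sub
        (Real.continuous_cosh.comp_continuousOn (hcont _ hη1))).div_const _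
    have c2 : ContinuousOn x2 M := (cv.sub (continuousOn_const.mul c1)).div_const _
    refine (PiLp.continuous_toLp 2 _).comp_continuousOn (continuousOn_pi.2 ?_)
    intro i
    fin_cases i
    · exact c1
    · exact c2
    · exact c0

theorem hyp_collin (hP : IsStraightPlane M d) {Φ : E2 → E3}
    (hΦ : ∀ i, HypAff M d (fun X => Φ X i))
    (hform : ∀ X ∈ M, ∀ Y ∈ M, Real.cosh (d X Y) = Φ X 2 * Φ Y 2 - Φ X 0 * Φ Y 0 - Φ X 1 * Φ Y 1) :
    Collin M Φ := by
  have hm := hP.metric
  constructor
  · intro x hx y hy z hz hxy a b ha hb hab hze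
    obtain ⟨γ, hγ, h0, h1⟩ := hP.exists_line hx hy hxy
    have hL := hm.pos hx hy hxy
    set L := d x y with hLdef
    obtain ⟨u, hu⟩ := hγ.exists_of_comb (s := 0) (t := L) hz hab (by rw [h0, h1]; exact hze)
    have hu0 : u ≠ 0 := by
      rintro rfl
      rw [h0] at hu
      rw [hu] at hze
      have : b • (y - x) = 0 := by
        have ha' : a = 1 - b := by linarith
        rw [ha'] at hze
        linear_combination (norm := module) -hze
      rcases smul_eq_zero.1 this with h2 | h2
      · exact hb h2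
      · exact hxy (sub_eq_zero.1 h2).symm
    have huL : u ≠ L := by
      rintro rfl
      rw [h1] at hu
      rw [hu] at hze
      have : a • (x - y) = 0 := by
        have hb' : b = 1 - a := by linarith
        rw [hb'] at hze
        linear_combination (norm := module) -hze
      rcases smul_eq_zero.1 this with h2 | h2
      · exact ha h2
      · exact hxy (sub_eq_zero.1 h2)
    have hsL : Real.sinh L ≠ 0 := by rw [Ne, Real.sinh_eq_zero]; exact hL.ne'
    refine ⟨Real.sinh (L - u) / Real.sinh L, Real.sinh u / Real.sinh L, ?_, ?_, ?_⟩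
    · refine div_ne_zero ?_ hsL
      rw [Ne, Real.sinh_eq_zero, sub_eq_zero]; exact huL.symm
    · refine div_ne_zero ?_ hsL
      rw [Ne, Real.sinh_eq_zero]; exact hu0
    · have comp : ∀ i, Φ z i = Real.sinh (L - u) / Real.sinh L * Φ x i +
          Real.sinh u / Real.sinh L * Φ y i := by
        intro i
        obtain ⟨A, B, hAB⟩ := hΦ i γ hγ
        have e0 := hAB 0
        have e1 := hAB L
        have e2 := hAB u
        simp only [h0, h1, ← hu, Real.cosh_zero, Real.sinh_zero, mul_one, mul_zero, add_zero]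
          at e0 e1 e2
        rw [e2, e1, e0, Real.sinh_sub]
        field_simp
        ring
      apply E3_ext <;> simp [comp]
  · intro x hx y hy z hz harea a b c habc
    -- test against points
    have test : ∀ w ∈ M, a * Real.cosh (d x w) + b * Real.cosh (d y w) +
        c * Real.cosh (d z w) = 0 := by
      intro w hw
      rw [hform x hx w hw, hform y hy w hw, hform z hz w hw]
      have e0 := congrArg (fun v : E3 => v 0) habc
      have e1 := congrArg (fun v : E3 => v 1) habc
      have e2 := congrArg (fun v : E3 => v 2) habc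
      simp only [PiLp.add_apply, PiLp.smul_apply, smul_eq_mul, PiLp.zero_apply] at e0 e1 e2
      linear_combination Φ w 2 * e2 - Φ w 0 * e0 - Φ w 1 * e1
    have hxy : x ≠ y := by
      rintro rfl; simp [area] at harea
    have hL := hm.pos hx hy hxy
    obtain ⟨γ, hγ, h0, h1⟩ := hP.exists_line hx hy hxy
    set L := d x y with hLdef
    have hcL : 1 < Real.cosh L := Real.one_lt_cosh.2 hL.ne'
    have hyx : d y x = L := hm.symm _ hy _ hx
    by_cases hc : c = 0
    · subst hc
      have t1 := test x hx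
      have t2 := test y hy
      rw [hm.self hx, hyx, Real.cosh_zero] at t1
      rw [hm.self hy, ← hLdef, Real.cosh_zero] at t2
      have hb : b * (1 - Real.cosh L ^ 2) = 0 := by
        linear_combination t2 - Real.cosh L * t1
      have hb0 : b = 0 := (mul_eq_zero.1 hb).resolve_right (by nlinarith)
      subst hb0
      refine ⟨by linarith, rfl, rfl⟩
    · exfalso
      have hγx : ∀ t, d x (γ t) = |t| := by
        intro t; rw [← h0, hγ.isom, zero_sub, abs_neg]
      have hγy : ∀ t, d y (γ t) = |L - t| := by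
        intro t; conv_lhs => rw [← h1]
        rw [hγ.isom]
      set α := -a / c with hα
      set β := -b / c with hβ
      have hh : ∀ w ∈ M, Real.cosh (d z w) = α * Real.cosh (d x w) + β * Real.cosh (d y w) := by
        intro w hw
        have := test w hw
        rw [hα, hβ]
        field_simp
        linarith
      have e1 := hh z hz
      rw [hm.self hz, Real.cosh_zero, hm.symm _ hx _ hz, hm.symm _ hy _ hz, hh x hx, hh y hy,
        hm.self hx, hm.self hy, hyx, ← hLdef, Real.cosh_zero] at e1
      set P := α + β * Real.cosh L with hPdef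
      set Q := β * Real.sinh L with hQdef
      have hPQ : P ^ 2 = 1 + Q ^ 2 := by
        rw [hPdef, hQdef]
        have := Real.cosh_sq L
        linear_combination -e1 + β ^ 2 * this
      have hP1 : 0 < P := by
        have h2 := hh x hx
        rw [hm.self hx, hyx, Real.cosh_zero, mul_one] at h2
        rw [hPdef, ← h2]
        exact Real.cosh_pos _
      have hcosh : Real.cosh (Real.arsinh Q) = P := by
        rw [Real.cosh_arsinh, ← hPQ, Real.sqrt_sq hP1.le]
      have h3 : Real.cosh (d z (γ (Real.arsinh Q))) = 1 := by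
        rw [hh _ (hγ.mem _), hγx, hγy, Real.cosh_abs, Real.cosh_abs, Real.cosh_sub, hcosh,
          Real.sinh_arsinh]
        have : α * P + β * (Real.cosh L * P - Real.sinh L * Q) = P ^ 2 - Q ^ 2 := by
          rw [hPdef, hQdef]; ring
        rw [this, hPQ]; ring
      have h4 : d z (γ (Real.arsinh Q)) = 0 := by
        by_contra hne
        have := Real.one_lt_cosh.2 hne
        linarith
      have h5 : z = γ (Real.arsinh Q) := (hm.eq_zero_iff _ hz _ (hγ.mem _)).1 h4
      obtain ⟨a', b', hab', he⟩ := hγ.comb hm (s := 0) (t := L) hL.ne (Real.arsinh Q)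
      rw [← h5, h0, h1] at he
      exact harea (area_of_comb hab' he)

theorem hyp_model (hP : IsStraightPlane M d) (hσ : CircleIdentity Real.sinh M d) :
    IsHyperbolicModel M d := by
  obtain ⟨O, Φ, hO, hΦ, hΦ2, hform, hcont⟩ := hyp_coords hP hσ
  have hm := hP.metric
  have hpos : ∀ x ∈ M, 0 < Φ x 2 := fun x hx => by rw [hΦ2 x hx]; exact Real.cosh_pos _
  have hcol := hyp_collin hP hΦ hform
  obtain ⟨T, hT, hfix⟩ := hcol.exists_linear hP.isOpen hP.convex hP.nonempty (fun T hT =>
    fixClosed_of_continuousOn hcont (fun x hx h0 => by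
      have := hpos x hx
      rw [h0] at this
      simp at this) hT)
  have hT2 : ∀ x ∈ M, T (hat x) 2 ≠ 0 := by
    intro x hx h0
    obtain ⟨c, hc, he⟩ := hfix x hx
    have := hpos x hx
    rw [he] at this
    simp [h0] at this
  have hK : ∀ x ∈ M, dehom (T (hat x)) = dehom (Φ x) := by
    intro x hx
    obtain ⟨c, hc, he⟩ := hfix x hx
    have h2 := hT2 x hx
    apply E2_ext
    · simp only [dehom, he, PiLp.smul_apply, smul_eq_mul]
      show _ / _ = _ / _
      field_simp
    · simp only [dehom, he, PiLp.smul_apply, smul_eq_mul]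
      show _ / _ = _ / _
      field_simp
  have hinner : ∀ x ∈ M, ∀ y ∈ M, 1 - inner ℝ (dehom (Φ x)) (dehom (Φ y)) =
      Real.cosh (d x y) / (Φ x 2 * Φ y 2) := by
    intro x hx y hy
    have h1 := (hpos x hx).ne'
    have h2 := (hpos y hy).ne'
    rw [hform x hx y hy]
    simp only [PiLp.inner_apply, Fin.sum_univ_two, dehom]
    show 1 - (Φ y 0 / Φ y 2 * (Φ x 0 / Φ x 2) + Φ y 1 / Φ y 2 * (Φ x 1 / Φ x 2)) = _
    field_simp
    ring
  have hnorm : ∀ x ∈ M, 1 - ‖dehom (Φ x)‖ ^ 2 = 1 / Φ x 2 ^ 2 := by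
    intro x hx
    rw [← real_inner_self_eq_norm_sq, hinner x hx x hx, hm.self hx, Real.cosh_zero, sq]
  have hOO : Φ O 2 = 1 := by rw [hΦ2 O hO, hm.self hO, Real.cosh_zero]
  have hO01 : Φ O 0 = 0 ∧ Φ O 1 = 0 := by
    have h1 := hform O hO O hO
    rw [hm.self hO, Real.cosh_zero, hOO] at h1
    constructor <;> nlinarith [sq_nonneg (Φ O 0), sq_nonneg (Φ O 1)]
  refine ⟨LinearEquiv.ofInjectiveEndo T hT, ?_, ?_, ?_⟩
  · intro x hx
    exact hT2 x hx
  · apply Set.Subset.antisymm
    · rintro _ ⟨x, hx, rfl⟩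
      show dehom (T (hat x)) ∈ _
      rw [hK x hx, mem_ball_zero_iff]
      have h1 := hnorm x hx
      have h2 : 0 < 1 / Φ x 2 ^ 2 := by have := hpos x hx; positivity
      nlinarith [norm_nonneg (dehom (Φ x))]
    · intro z hz
      rw [mem_ball_zero_iff] at hz
      by_cases hz0 : z = 0
      · refine ⟨O, hO, ?_⟩
        show dehom (T (hat O)) = z
        rw [hK O hO, hz0]
        apply E2_ext
        · show Φ O 0 / Φ O 2 = 0
          rw [hO01.1, zero_div]
        · show Φ O 1 / Φ O 2 = 0
          rw [hO01.2, zero_div]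
      -- the direction
      set S : E2 →ₗ[ℝ] E2 :=
        { toFun := fun u => !₂[T (!₂[u 0, u 1, 0] : E3) 0, T (!₂[u 0, u 1, 0] : E3) 1]
          map_add' := by
            intro u w
            have : (!₂[(u + w) 0, (u + w) 1, 0] : E3) = !₂[u 0, u 1, 0] + !₂[w 0, w 1, 0] := by
              apply E3_ext <;> simp
            rw [this, map_add]
            apply E2_ext <;> simp
          map_smul' := by
            intro c u
            have : (!₂[(c • u) 0, (c • u) 1, 0] : E3) = c • !₂[u 0, u 1, 0] := by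
              apply E3_ext <;> simp
            rw [this, map_smul]
            apply E2_ext <;> simp } with hS
      have hS0 : ∀ u, S u 0 = T (!₂[u 0, u 1, 0] : E3) 0 := fun u => rfl
      have hS1 : ∀ u, S u 1 = T (!₂[u 0, u 1, 0] : E3) 1 := fun u => rfl
      obtain ⟨cO, hcO, heO⟩ := hfix O hO
      have hSinj : Function.Injective S := by
        rw [← LinearMap.ker_eq_bot, LinearMap.ker_eq_bot']
        intro u hu
        have h0 : T (!₂[u 0, u 1, 0] : E3) 0 = 0 := by rw [← hS0, hu]; rfl
        have h1 : T (!₂[u 0, u 1, 0] : E3) 1 = 0 := by rw [← hS1, hu]; rfl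
        set s := T (!₂[u 0, u 1, 0] : E3) 2 with hs
        have h2 : T (!₂[u 0, u 1, 0] : E3) = T ((s * cO) • hat O) := by
          rw [map_smul, mul_smul, ← heO]
          apply E3_ext
          · rw [h0]; simp [hO01.1]
          · rw [h1]; simp [hO01.2]
          · rw [← hs]; simp [hOO]
        have h3 := hT h2
        have h4 : s * cO = 0 := by
          have := congrArg (fun v : E3 => v 2) h3
          simpa using this.symm
        rw [h4, zero_smul] at h3
        apply E2_ext
        · have := congrArg (fun v : E3 => v 0) h3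
          simpa using this
        · have := congrArg (fun v : E3 => v 1) h3
          simpa using this
      have hSsurj : Function.Surjective S := LinearMap.injective_iff_surjective.1 hSinj
      obtain ⟨u, hu⟩ := hSsurj z
      have hu0 : u ≠ 0 := by
        rintro rfl
        rw [map_zero] at hu
        exact hz0 hu.symm
      -- a point in direction u
      have hc : Continuous (fun t : ℝ => O + t • u) := by fun_prop
      have hev : ∀ᶠ t in 𝓝[>] (0:ℝ), O + t • u ∈ M :=
        (hc.continuousAt.eventually (hP.isOpen.mem_nhds (by simpa using hO))).filter_mono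
          nhdsWithin_le_nhds
      obtain ⟨ε, hεM, hε⟩ := (hev.and self_mem_nhdsWithin).exists
      have hε : (0:ℝ) < ε := hε
      set x := O + ε • u with hx
      have hOx : O ≠ x := by
        intro he
        have : ε • u = 0 := by
          have := he.symm
          rw [hx] at this
          simpa using this
        rcases smul_eq_zero.1 this with h1 | h1
        · exact hε.ne' h1
        · exact hu0 h1
      obtain ⟨cx, hcx, hex⟩ := hfix x hεM
      have hhat : hat x = hat O + ε • (!₂[u 0, u 1, 0] : E3) := by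
        apply E3_ext <;> simp [hx]
      have hz0' : Φ x 0 = cx * ε * z 0 := by
        rw [hex, hhat, map_add, map_smul]
        have h1 : T (hat O) 0 = 0 := by
          have := hO01.1
          rw [heO] at this
          simpa [hcO] using this
        simp only [PiLp.smul_apply, PiLp.add_apply, smul_eq_mul, h1, ← hS0, hu]
        ring
      have hz1' : Φ x 1 = cx * ε * z 1 := by
        rw [hex, hhat, map_add, map_smul]
        have h1 : T (hat O) 1 = 0 := by
          have := hO01.2
          rw [heO] at this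
          simpa [hcO] using this
        simp only [PiLp.smul_apply, PiLp.add_apply, smul_eq_mul, h1, ← hS1, hu]
        ring
      obtain ⟨γ, hγ, h0, h1⟩ := hP.exists_line hO hεM hOx
      have hL := hm.pos hO hεM hOx
      set L := d O x with hLdef
      have hsL : 0 < Real.sinh L := Real.sinh_pos_iff.2 hL
      obtain ⟨A0, B0, hAB0⟩ := hΦ 0 γ hγ
      obtain ⟨A1, B1, hAB1⟩ := hΦ 1 γ hγ
      have hA0 : A0 = 0 := by
        have := hAB0 0
        simp only [h0, hO01.1, Real.cosh_zero, Real.sinh_zero] at this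
        linarith
      have hA1 : A1 = 0 := by
        have := hAB1 0
        simp only [h0, hO01.2, Real.cosh_zero, Real.sinh_zero] at this
        linarith
      have g0 : ∀ t, Φ (γ t) 0 = B0 * Real.sinh t := by
        intro t; have := hAB0 t; simp only [hA0] at this; linarith
      have g1 : ∀ t, Φ (γ t) 1 = B1 * Real.sinh t := by
        intro t; have := hAB1 t; simp only [hA1] at this; linarith
      have g2 : ∀ t, Φ (γ t) 2 = Real.cosh t := by
        intro t
        rw [hΦ2 _ (hγ.mem t), ← h0, hγ.isom, sub_zero, Real.cosh_abs]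
      have hB : B0 ^ 2 + B1 ^ 2 = 1 := by
        have h2 := hform _ (hγ.mem L) _ (hγ.mem L)
        rw [hm.self (hγ.mem L), Real.cosh_zero, g0, g1, g2] at h2
        have h3 := Real.cosh_sq L
        have h4 : (B0 ^ 2 + B1 ^ 2 - 1) * Real.sinh L ^ 2 = 0 := by
          linear_combination h2 + h3
        have := (mul_eq_zero.1 h4).resolve_right (by positivity)
        linarith
      set lam := cx * ε / Real.sinh L with hlam
      have hB0 : B0 = lam * z 0 := by
        have := g0 L
        rw [h1, hz0'] at this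
        rw [hlam]; field_simp; linarith
      have hB1 : B1 = lam * z 1 := by
        have := g1 L
        rw [h1, hz1'] at this
        rw [hlam]; field_simp; linarith
      have hlam0 : lam ≠ 0 := by
        rw [hlam]; exact div_ne_zero (mul_ne_zero hcx hε.ne') hsL.ne'
      have hzn : ‖z‖ ^ 2 = z 0 ^ 2 + z 1 ^ 2 := by
        rw [EuclideanSpace.norm_sq_eq, Fin.sum_univ_two, Real.norm_eq_abs, Real.norm_eq_abs,
          sq_abs, sq_abs]
      have hlz : (1 / lam) ^ 2 = ‖z‖ ^ 2 := by
        rw [hB0, hB1] at hB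
        rw [hzn]
        field_simp
        linarith
      have habs : |1 / lam| < 1 := by
        rw [← sq_lt_one_iff_abs_lt_one, hlz]
        nlinarith [norm_nonneg z]
      have htanh : Real.tanh (Real.artanh (1 / lam)) = 1 / lam := by
        apply Real.tanh_artanh
        exact ⟨(abs_lt.1 habs).1, (abs_lt.1 habs).2⟩
      refine ⟨γ (Real.artanh (1 / lam)), hγ.mem _, ?_⟩
      show dehom (T (hat _)) = z
      rw [hK _ (hγ.mem _)]
      rw [Real.tanh_eq_sinh_div_cosh] at htanh
      apply E2_ext
      · show Φ (γ (Real.artanh (1 / lam))) 0 / Φ (γ (Real.artanh (1 / lam))) 2 = z 0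
        rw [g0, g2, mul_div_assoc, htanh, hB0]
        field_simp
      · show Φ (γ (Real.artanh (1 / lam))) 1 / Φ (γ (Real.artanh (1 / lam))) 2 = z 1
        rw [g1, g2, mul_div_assoc, htanh, hB1]
        field_simp
  · intro x hx y hy
    show d x y = kleinDist (dehom (T (hat x))) (dehom (T (hat y)))
    have h1 := hpos x hx
    have h2 := hpos y hy
    rw [hK x hx, hK y hy, kleinDist, hinner x hx y hy, hnorm x hx, hnorm y hy]
    have e1 : √(1 / Φ x 2 ^ 2) = 1 / Φ x 2 := by
      rw [Real.sqrt_div zero_le_one, Real.sqrt_one, Real.sqrt_sq h1.le]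
    have e2 : √(1 / Φ y 2 ^ 2) = 1 / Φ y 2 := by
      rw [Real.sqrt_div zero_le_one, Real.sqrt_one, Real.sqrt_sq h2.le]
    rw [e1, e2]
    have e3 : Real.cosh (d x y) / (Φ x 2 * Φ y 2) / (1 / Φ x 2 * (1 / Φ y 2)) =
        Real.cosh (d x y) := by field_simp
    rw [e3, Real.arcosh_cosh (hm.nonneg hx hy)]

end Pool.Agent.MP_7a5b4a_gt
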