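import Mathlib

/-!
# One–dimensional lemmas: functions with a mean value property on the line
-/

open Filter Topology Set

namespace Pool.Agent.MP_7a5b4a_gt

/-- A function with a weighted mean value property: minima propagate in both directions. -/
theorem min_propagates {ψ r w : ℝ → ℝ} {δ : ℝ} (hδ : 0 < δ) (hr : ∀ s, δ ≤ r s)
    (hw0 : ∀ s, 0 < w s) (hw1 : ∀ s, w s < 1)
    (h : ∀ s, ψ s = w s * ψ (s + r s) + (1 - w s) * ψ (s - r s))
    {m s₀ : ℝ} (hm : ∀ t, m ≤ ψ t) (h0 : ψ s₀ = m) :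
    (∃ᶠ t in atTop, ψ t = m) ∧ (∃ᶠ t in atBot, ψ t = m) := by
  have step : ∀ s, ψ s = m → ψ (s + r s) = m ∧ ψ (s - r s) = m := by
    intro s hs
    have h1 := h s
    have ha := hm (s + r s)
    have hb := hm (s - r s)
    have hw := hw0 s
    have hw' : 0 < 1 - w s := by linarith [hw1 s]
    rw [hs] at h1
    constructor
    · by_contra hne
      have hlt : m < ψ (s + r s) := lt_of_le_of_ne ha (Ne.symm hne)
      nlinarith [mul_pos hw (sub_pos.2 hlt), mul_nonneg hw'.le (sub_nonneg.2 hb)]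
    · by_contra hne
      have hlt : m < ψ (s - r s) := lt_of_le_of_ne hb (Ne.symm hne)
      nlinarith [mul_pos hw' (sub_pos.2 hlt), mul_nonneg hw.le (sub_nonneg.2 ha)]
  constructor
  · have key : ∀ n : ℕ, ∃ t, s₀ + n * δ ≤ t ∧ ψ t = m := by
      intro n
      induction n with
      | zero => exact ⟨s₀, by simp, h0⟩
      | succ n ih =>
        obtain ⟨t, ht, hψ⟩ := ih
        refine ⟨t + r t, ?_, (step t hψ).1⟩
        push_cast
        linarith [hr t]
    rw [frequently_atTop]
    intro a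
    obtain ⟨n, hn⟩ := exists_nat_gt ((a - s₀) / δ)
    obtain ⟨t, ht, hψ⟩ := key n
    refine ⟨t, ?_, hψ⟩
    rw [div_lt_iff₀ hδ] at hn
    linarith
  · have key : ∀ n : ℕ, ∃ t, t ≤ s₀ - n * δ ∧ ψ t = m := by
      intro n
      induction n with
      | zero => exact ⟨s₀, by simp, h0⟩
      | succ n ih =>
        obtain ⟨t, ht, hψ⟩ := ih
        refine ⟨t - r t, ?_, (step t hψ).2⟩
        push_cast
        linarith [hr t]
    rw [frequently_atBot]
    intro a
    obtain ⟨n, hn⟩ := exists_nat_gt ((s₀ - a) / δ)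
    obtain ⟨t, ht, hψ⟩ := key n
    refine ⟨t, ?_, hψ⟩
    rw [div_lt_iff₀ hδ] at hn
    linarith

theorem nonneg_of_mvp {ψ r w : ℝ → ℝ} {δ : ℝ} (hδ : 0 < δ) (hr : ∀ s, δ ≤ r s)
    (hw0 : ∀ s, 0 < w s) (hw1 : ∀ s, w s < 1)
    (h : ∀ s, ψ s = w s * ψ (s + r s) + (1 - w s) * ψ (s - r s))
    (hc : Continuous ψ) (htop : Tendsto ψ atTop (𝓝 0))
    (hbot : ∀ ε > 0, ∀ᶠ t in atBot, -ε ≤ ψ t) (t : ℝ) : 0 ≤ ψ t := by
  by_contra hneg
  push Not at hneg
  obtain ⟨s, hs⟩ := hc.exists_forall_le' t (by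
    rw [cocompact_eq_atBot_atTop, eventually_sup]
    refine ⟨?_, ?_⟩
    · filter_upwards [hbot (-ψ t) (by linarith)] with u hu
      linarith
    · have := htop.eventually (lt_mem_nhds hneg)
      filter_upwards [this] with u hu
      exact hu.le)
  have hfr := (min_propagates hδ hr hw0 hw1 h hs rfl).1
  have hlt : ψ s < 0 := lt_of_le_of_lt (hs t) hneg
  have := htop.eventually (lt_mem_nhds hlt)
  obtain ⟨u, hu1, hu2⟩ := (hfr.and_eventually this).exists
  linarith

theorem eq_zero_of_mvp {ψ r w : ℝ → ℝ} {δ : ℝ} (hδ : 0 < δ) (hr : ∀ s, δ ≤ r s)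
    (hw0 : ∀ s, 0 < w s) (hw1 : ∀ s, w s < 1)
    (h : ∀ s, ψ s = w s * ψ (s + r s) + (1 - w s) * ψ (s - r s))
    (hc : Continuous ψ) (htop : Tendsto ψ atTop (𝓝 0)) (hbot : Tendsto ψ atBot (𝓝 0)) (t : ℝ) :
    ψ t = 0 := by
  have h1 : 0 ≤ ψ t := nonneg_of_mvp hδ hr hw0 hw1 h hc htop (by
    intro ε hε
    have := hbot.eventually (lt_mem_nhds (show -ε < 0 by linarith))
    filter_upwards [this] with u hu
    exact hu.le) t
  have h2 : 0 ≤ (fun s => -ψ s) t := by
    refine nonneg_of_mvp (ψ := fun s => -ψ s) hδ hr hw0 hw1 ?_ hc.neg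
      (by simpa using htop.neg) ?_ t
    · intro s
      have := h s
      linarith
    · intro ε hε
      have := hbot.eventually (gt_mem_nhds (show (0:ℝ) < ε by linarith))
      filter_upwards [this] with u hu
      linarith
  simp only at h2
  linarith

/-- Basic data: a distance-like function on the line. -/
structure DistLike (ρ : ℝ → ℝ) : Prop where
  pos : ∀ t, 0 < ρ t
  lip : ∀ s t, |ρ s - ρ t| ≤ |s - t|
  tri : ∀ s t, |s - t| ≤ ρ s + ρ t

namespace DistLike

variable {ρ : ℝ → ℝ}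

theorem continuous (h : DistLike ρ) : Continuous ρ := by
  have : LipschitzWith 1 ρ := by
    refine LipschitzWith.of_dist_le_mul ?_
    intro x y
    simp only [Real.dist_eq, NNReal.coe_one, one_mul]
    exact h.lip x y
  exact this.continuous

theorem neg (h : DistLike ρ) : DistLike (fun t => ρ (-t)) where
  pos t := h.pos _
  lip s t := by
    have := h.lip (-s) (-t)
    rwa [show -s - -t = -(s - t) by ring, abs_neg] at this
  tri s t := by
    have := h.tri (-s) (-t)
    rwa [show -s - -t = -(s - t) by ring, abs_neg] at this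

theorem exists_delta (h : DistLike ρ) : ∃ δ > 0, ∀ t, δ ≤ ρ t := by
  obtain ⟨s, hs⟩ := h.continuous.exists_forall_le' 0 (by
    rw [cocompact_eq_atBot_atTop, eventually_sup]
    refine ⟨?_, ?_⟩
    · filter_upwards [eventually_le_atBot (-(2 * ρ 0))] with u hu
      have h1 := h.tri u 0
      have h2 : -u ≤ |u - 0| := by rw [sub_zero]; exact neg_le_abs u
      linarith
    · filter_upwards [eventually_ge_atTop (2 * ρ 0)] with u hu
      have h1 := h.tri u 0
      have h2 : u ≤ |u - 0| := by rw [sub_zero]; exact le_abs_self u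
      linarith)
  exact ⟨ρ s, h.pos s, hs⟩

theorem antitone_sub (h : DistLike ρ) : Antitone (fun t => ρ t - t) := by
  intro s t hst
  have := h.lip t s
  rw [abs_of_nonneg (sub_nonneg.2 hst)] at this
  have := le_abs_self (ρ t - ρ s)
  show ρ t - t ≤ ρ s - s
  linarith

theorem exists_busemann (h : DistLike ρ) :
    ∃ b, Tendsto (fun t => ρ t - t) atTop (𝓝 b) ∧ ∀ t, b ≤ ρ t - t := by
  have hbdd : BddBelow (range fun t => ρ t - t) := by
    refine ⟨-ρ 0, ?_⟩
    rintro _ ⟨t, rfl⟩
    have h1 := h.tri t 0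
    have h2 : t ≤ |t - 0| := by rw [sub_zero]; exact le_abs_self t
    show -ρ 0 ≤ ρ t - t
    linarith
  exact ⟨_, tendsto_atTop_ciInf h.antitone_sub hbdd, fun t => ciInf_le hbdd t⟩

end DistLike

/-- The hyperbolic case. -/
theorem hyp_line {ρ : ℝ → ℝ} (h : DistLike ρ)
    (hmv : ∀ s, Real.cosh (ρ (s + ρ s)) + Real.cosh (ρ (s - ρ s)) = 2 * Real.cosh (ρ s) ^ 2) :
    ∃ a b, ∀ t, Real.cosh (ρ t) = a * Real.cosh t + b * Real.sinh t := by
  obtain ⟨δ, hδ, hδ'⟩ := h.exists_delta
  obtain ⟨bp, hbp, -⟩ := h.exists_busemann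
  obtain ⟨bm, hbm, -⟩ := h.neg.exists_busemann
  set a := (Real.exp bp + Real.exp bm) / 2 with ha
  set b := (Real.exp bp - Real.exp bm) / 2 with hb
  -- the deviation
  set F : ℝ → ℝ := fun t => Real.cosh (ρ t) - (a * Real.cosh t + b * Real.sinh t) with hF
  have hFmv : ∀ s, F (s + ρ s) + F (s - ρ s) = 2 * Real.cosh (ρ s) * F s := by
    intro s
    simp only [hF]
    have := hmv s
    rw [Real.cosh_add, Real.sinh_add, Real.cosh_sub, Real.sinh_sub]
    linear_combination this
  set ψ : ℝ → ℝ := fun t => F t / Real.cosh t with hψ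
  have hcosh : ∀ t, 0 < Real.cosh t := Real.cosh_pos
  set w : ℝ → ℝ := fun s => Real.cosh (s + ρ s) / (2 * Real.cosh s * Real.cosh (ρ s)) with hw
  have hden : ∀ s, 0 < 2 * Real.cosh s * Real.cosh (ρ s) := fun s => by
    have := hcosh s; have := hcosh (ρ s); positivity
  have hsum : ∀ s, Real.cosh (s + ρ s) + Real.cosh (s - ρ s) =
      2 * Real.cosh s * Real.cosh (ρ s) := by
    intro s; rw [Real.cosh_add, Real.cosh_sub]; ring
  have hw0 : ∀ s, 0 < w s := fun s => div_pos (hcosh _) (hden s)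
  have hw1' : ∀ s, 1 - w s = Real.cosh (s - ρ s) / (2 * Real.cosh s * Real.cosh (ρ s)) := by
    intro s
    have hd := (hden s).ne'
    simp only [hw]
    rw [eq_div_iff hd, sub_mul, div_mul_cancel₀ _ hd, one_mul]
    linarith [hsum s]
  have hw1 : ∀ s, w s < 1 := by
    intro s
    have : 0 < 1 - w s := by
      rw [hw1' s]; exact div_pos (hcosh _) (hden s)
    linarith
  have hψmv : ∀ s, ψ s = w s * ψ (s + ρ s) + (1 - w s) * ψ (s - ρ s) := by
    intro s
    rw [hw1' s]
    simp only [hw, hψ]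
    have h1 := (hcosh (s + ρ s)).ne'
    have h2 := (hcosh (s - ρ s)).ne'
    have h3 := (hcosh s).ne'
    have h4 := (hcosh (ρ s)).ne'
    have := hFmv s
    field_simp
    linarith
  have hcρ := h.continuous
  have hψc : Continuous ψ := by
    have : Continuous F := by
      simp only [hF]
      exact (Real.continuous_cosh.comp hcρ).sub ((continuous_const.mul Real.continuous_cosh).add
        (continuous_const.mul Real.continuous_sinh))
    exact this.div Real.continuous_cosh (fun t => (hcosh t).ne')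
  -- limits
  have hlim : ∀ (ρ' : ℝ → ℝ) (c c' B : ℝ), Tendsto (fun t => ρ' t - t) atTop (𝓝 B) →
      c = Real.exp B → Tendsto (fun t => ρ' t) atTop atTop →
      Tendsto (fun t => (Real.cosh (ρ' t) - (c * Real.exp t + c' * Real.exp (-t)) / 2) /
        Real.cosh t) atTop (𝓝 0) := by
    intro ρ' c c' B hB hc hρ'
    have h1 : Tendsto (fun t => (Real.exp (ρ' t - t) + Real.exp (-ρ' t) * Real.exp (-t) -
        c - c' * (Real.exp (-t) * Real.exp (-t))) / (1 + Real.exp (-t) * Real.exp (-t))) atTop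
        (𝓝 ((Real.exp B + 0 * 0 - c - c' * (0 * 0)) / (1 + 0 * 0))) := by
      have e1 : Tendsto (fun t => Real.exp (ρ' t - t)) atTop (𝓝 (Real.exp B)) :=
        (Real.continuous_exp.tendsto _).comp hB
      have e2 : Tendsto (fun t : ℝ => Real.exp (-t)) atTop (𝓝 0) := by
        simpa using Real.tendsto_exp_neg_atTop_nhds_zero
      have e3 : Tendsto (fun t : ℝ => Real.exp (-ρ' t)) atTop (𝓝 0) := e2.comp hρ'
      refine Tendsto.div ?_ ?_ (by norm_num)
      · exact ((e1.add (e3.mul e2)).sub_const c).sub ((e2.mul e2).const_mul c')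
      · exact (e2.mul e2).const_add 1
    have h2 : (Real.exp B + 0 * 0 - c - c' * (0 * 0)) / (1 + 0 * 0) = 0 := by
      rw [hc]; ring
    rw [h2] at h1
    refine h1.congr ?_
    intro t
    rw [Real.cosh_eq, Real.cosh_eq]
    have e4 : Real.exp (ρ' t - t) = Real.exp (ρ' t) * Real.exp (-t) := by
      rw [← Real.exp_add]; ring_nf
    have e5 : Real.exp t * Real.exp (-t) = 1 := by
      rw [← Real.exp_add]; simp
    have e6 : 0 < Real.exp t := Real.exp_pos _
    have e7 : 0 < Real.exp (-t) := Real.exp_pos _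
    rw [e4, div_eq_div_iff (by positivity) (by positivity)]
    generalize Real.exp t = x at *
    generalize Real.exp (-t) = y at *
    linear_combination (Real.exp (ρ' t) + Real.exp (-ρ' t) - c' * y + c * y) / 2 * e5
  -- both ends
  have hρtop : ∀ {ρ' : ℝ → ℝ}, DistLike ρ' → Tendsto (fun t => ρ' t) atTop atTop := by
    intro ρ' h'
    refine tendsto_atTop_mono (f := fun t => t - ρ' 0) ?_ (tendsto_atTop_add_const_right _ _ tendsto_id)
    intro t
    have h1 := h'.tri t 0
    have h2 : t ≤ |t - 0| := by rw [sub_zero]; exact le_abs_self t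
    show t - ρ' 0 ≤ ρ' t
    linarith
  have htop : Tendsto ψ atTop (𝓝 0) := by
    refine (hlim ρ (a + b) (a - b) bp hbp (by rw [ha, hb]; ring) (hρtop h)).congr ?_
    intro t
    simp only [hψ, hF]
    congr 1
    rw [Real.cosh_eq t, Real.sinh_eq t]
    ring
  have hbot : Tendsto ψ atBot (𝓝 0) := by
    have h1 := hlim (fun t => ρ (-t)) (a - b) (a + b) bm hbm (by rw [ha, hb]; ring) (hρtop h.neg)
    have h2 : Tendsto (fun t : ℝ => -t) atBot atTop := tendsto_neg_atBot_atTop
    refine (h1.comp h2).congr ?_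
    intro t
    simp only [hψ, hF, Function.comp, neg_neg]
    rw [Real.cosh_neg]
    congr 1
    rw [Real.cosh_eq t, Real.sinh_eq t]
    ring
  refine ⟨a, b, fun t => ?_⟩
  have h0 := eq_zero_of_mvp hδ hδ' hw0 hw1 hψmv hψc htop hbot t
  simp only [hψ, hF] at h0
  rw [div_eq_zero_iff] at h0
  rcases h0 with h0 | h0
  · linarith
  · exact absurd h0 (hcosh t).ne'

/-- A quantity that (essentially) doubles when the argument doubles and is `o(t)` is bounded by the
error. -/
theorem growth_bound {χ g : ℝ → ℝ} {S η C δ : ℝ} (hδ : 0 < δ) (hC : 0 < C) (hS : 0 ≤ S)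
    (hη : 0 ≤ η)
    (hg1 : ∀ s, S ≤ s → s + δ ≤ g s) (hg2 : ∀ s, S ≤ s → g s ≤ 2 * s + C)
    (hχ : ∀ s, S ≤ s → 2 * |χ s| - η ≤ |χ (g s)|)
    (hlim : Tendsto (fun t => χ t / t) atTop (𝓝 0)) (s : ℝ) (hs : S ≤ s) : |χ s| ≤ η := by
  by_contra hcon
  push Not at hcon
  set a := |χ s| - η with ha
  have ha0 : 0 < a := by linarith
  have key : ∀ n : ℕ, ∃ u, S ≤ u ∧ s + n * δ ≤ u ∧ u + C ≤ 2 ^ n * (s + C) ∧
      2 ^ n * a ≤ |χ u| - η := by
    intro n
    induction n with
    | zero => exact ⟨s, hs, by simp, by simp, by simp [ha]⟩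
    | succ n ih =>
      obtain ⟨u, hu1, hu2, hu3, hu4⟩ := ih
      refine ⟨g u, ?_, ?_, ?_, ?_⟩
      · linarith [hg1 u hu1]
      · push_cast
        linarith [hg1 u hu1]
      · rw [pow_succ]
        linarith [hg2 u hu1]
      · rw [pow_succ]
        linarith [hχ u hu1]
  have hsC : 0 < s + C := by linarith
  set ε := a / (2 * (s + C)) with hε
  have hε0 : 0 < ε := by positivity
  have hev := (Metric.tendsto_nhds.1 hlim ε hε0).and (eventually_gt_atTop (0 : ℝ))
  rw [eventually_atTop] at hev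
  obtain ⟨T, hT⟩ := hev
  obtain ⟨n, hn⟩ := exists_nat_gt ((T - s) / δ)
  obtain ⟨u, hu1, hu2, hu3, hu4⟩ := key n
  rw [div_lt_iff₀ hδ] at hn
  obtain ⟨h1, h2⟩ := hT u (by linarith)
  rw [Real.dist_eq, sub_zero, abs_div, abs_of_pos h2, div_lt_iff₀ h2] at h1
  have h3 : ε * u ≤ 2 ^ n * a / 2 := by
    have : ε * u ≤ ε * (2 ^ n * (s + C)) := mul_le_mul_of_nonneg_left (by linarith) hε0.le
    have h4 : ε * (2 ^ n * (s + C)) = 2 ^ n * a / 2 := by
      rw [hε]; field_simp
    linarith
  have h5 : (0:ℝ) < 2 ^ n * a := by positivity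
  linarith

theorem par_asymp {ρ : ℝ → ℝ} (h : DistLike ρ)
    (hmv : ∀ s, ρ (s + ρ s) ^ 2 + ρ (s - ρ s) ^ 2 = 4 * ρ s ^ 2) :
    ∃ b κ, Tendsto (fun t => ρ t - t) atTop (𝓝 b) ∧
      Tendsto (fun t => (ρ t ^ 2 - t ^ 2) - 2 * b * t - κ) atTop (𝓝 0) ∧
      (ρ (-b) ^ 2 - (-b) ^ 2) - 2 * b * (-b) - κ = 0 := by
  obtain ⟨δ, hδ, hδ'⟩ := h.exists_delta
  obtain ⟨b, hb, hb'⟩ := h.exists_busemann
  set κ := (ρ (-b) ^ 2 - (-b) ^ 2) - 2 * b * (-b) with hκ
  refine ⟨b, κ, hb, ?_, by rw [hκ]; ring⟩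
  set χ : ℝ → ℝ := fun t => (ρ t ^ 2 - t ^ 2) - 2 * b * t - κ with hχ
  have hcρ := h.continuous
  have hχc : Continuous χ := by
    simp only [hχ]
    fun_prop
  have hχ0 : χ (-b) = 0 := by simp only [hχ, hκ]; ring
  have hχmv : ∀ s, χ (s + ρ s) + χ (s - ρ s) = 2 * χ s := by
    intro s
    simp only [hχ]
    linear_combination hmv s
  have hχlim : Tendsto (fun s => χ (s - ρ s)) atTop (𝓝 0) := by
    have h1 : Tendsto (fun s => s - ρ s) atTop (𝓝 (-b)) := by
      refine hb.neg.congr ?_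
      intro t; ring
    have h2 := (hχc.tendsto (-b)).comp h1
    rw [hχ0] at h2
    exact h2
  have hχo : Tendsto (fun t => χ t / t) atTop (𝓝 0) := by
    have hinv : Tendsto (fun t : ℝ => t⁻¹) atTop (𝓝 0) := tendsto_inv_atTop_zero
    have h1 : Tendsto (fun t => (ρ t - t) * (2 + (ρ t - t) * t⁻¹) - 2 * b - κ * t⁻¹) atTop
        (𝓝 (b * (2 + b * 0) - 2 * b - κ * 0)) :=
      ((hb.mul ((hb.mul hinv).const_add 2)).sub_const _).sub (hinv.const_mul κ)
    have h2 : b * (2 + b * 0) - 2 * b - κ * 0 = 0 := by ring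
    rw [h2] at h1
    refine h1.congr' ?_
    filter_upwards [eventually_gt_atTop (0:ℝ)] with t ht
    simp only [hχ]
    field_simp
    ring
  rw [Metric.tendsto_nhds]
  intro ε hε
  have hε2 : 0 < ε / 2 := by positivity
  have hev1 := Metric.tendsto_nhds.1 hχlim (ε / 2) hε2
  have hev2 := Metric.tendsto_nhds.1 hb 1 one_pos
  have hev := (hev1.and hev2).and (eventually_ge_atTop (0:ℝ))
  rw [eventually_atTop] at hev
  obtain ⟨S, hS⟩ := hev
  have hgb := growth_bound (χ := χ) (g := fun s => s + ρ s) (S := max S 0) (η := ε / 2)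
    (C := |b| + 1) hδ (by positivity) (le_max_right _ _) hε2.le
    (fun s _ => by simpa using hδ' s)
    (fun s hs => by
      obtain ⟨⟨-, h2⟩, -⟩ := hS s (le_trans (le_max_left _ _) hs)
      rw [Real.dist_eq] at h2
      have h3 := (abs_lt.1 h2).2
      have h4 := le_abs_self b
      show s + ρ s ≤ 2 * s + (|b| + 1)
      linarith)
    (fun s hs => by
      obtain ⟨⟨h1, -⟩, -⟩ := hS s (le_trans (le_max_left _ _) hs)
      rw [Real.dist_eq, sub_zero] at h1
      have h2 := hχmv s
      have h3 : 2 * |χ s| ≤ |χ (s + ρ s)| + |χ (s - ρ s)| := by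
        have : 2 * |χ s| = |χ (s + ρ s) + χ (s - ρ s)| := by
          rw [h2, abs_mul, abs_two]
        rw [this]
        exact abs_add_le _ _
      show 2 * |χ s| - ε / 2 ≤ |χ (s + ρ s)|
      linarith) hχo
  filter_upwards [eventually_ge_atTop (max S 0)] with t ht
  have := hgb t ht
  rw [Real.dist_eq, sub_zero]
  show |χ t| < ε
  linarith

/-- The parabolic case. -/
theorem par_line {ρ : ℝ → ℝ} (h : DistLike ρ)
    (hmv : ∀ s, ρ (s + ρ s) ^ 2 + ρ (s - ρ s) ^ 2 = 4 * ρ s ^ 2) :
    ∃ a b, ∀ t, ρ t ^ 2 = t ^ 2 + a * t + b := by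
  obtain ⟨δ, hδ, hδ'⟩ := h.exists_delta
  obtain ⟨bp, κp, hbp, hlp, h0⟩ := par_asymp h hmv
  obtain ⟨bm, κm, hbm, hlm, -⟩ := par_asymp (ρ := fun t => ρ (-t)) h.neg (by
    intro s
    have := hmv (-s)
    have e1 : -(s + ρ (-s)) = -s - ρ (-s) := by ring
    have e2 : -(s - ρ (-s)) = -s + ρ (-s) := by ring
    simp only [e1, e2]
    linarith)
  have hβ : 0 ≤ bp + bm := by
    refine ge_of_tendsto' (hbp.add hbm) ?_
    intro t
    have h1 := h.tri t (-t)
    have h2 := le_abs_self (t - -t)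
    linarith
  set ψ : ℝ → ℝ := fun t => (ρ t ^ 2 - t ^ 2) - 2 * bp * t - κp with hψ
  have hcρ := h.continuous
  have hψc : Continuous ψ := by
    simp only [hψ]
    fun_prop
  have hψ0 : ψ (-bp) = 0 := h0
  have hψmv : ∀ s, ψ s = (1/2 : ℝ) * ψ (s + ρ s) + (1 - (1/2 : ℝ)) * ψ (s - ρ s) := by
    intro s
    simp only [hψ]
    linear_combination (-1/2 : ℝ) * hmv s
  -- behaviour at -∞
  have hlm' : Tendsto (fun t => (ρ t ^ 2 - t ^ 2) + 2 * bm * t - κm) atBot (𝓝 0) := by
    refine (hlm.comp (tendsto_neg_atBot_atTop (G := ℝ))).congr ?_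
    intro t
    simp only [Function.comp, neg_neg]
    ring
  have hψbot : ∀ t, ψ t = ((ρ t ^ 2 - t ^ 2) + 2 * bm * t - κm) - 2 * (bp + bm) * t +
      (κm - κp) := by
    intro t; simp only [hψ]; ring
  have hall : ∀ t, ψ t = 0 := by
    rcases hβ.lt_or_eq with hβ | hβ
    · -- ψ → +∞ at -∞
      have htop : Tendsto ψ atBot atTop := by
        have h1 : Tendsto (fun t : ℝ => -(2 * (bp + bm)) * t + (κm - κp)) atBot atTop := by
          refine tendsto_atTop_add_const_right _ _ ?_
          exact (tendsto_id (α := ℝ)).const_mul_atBot_of_neg (by linarith)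
        refine (hlm'.add_atTop h1).congr ?_
        intro t
        rw [hψbot t]; ring
      have hnn := nonneg_of_mvp hδ hδ' (w := fun _ => 1/2) (by norm_num) (by norm_num) hψmv hψc
        hlp (by
          intro ε hε
          exact htop.eventually_ge_atTop (-ε))
      have hfr := (min_propagates hδ hδ' (w := fun _ => 1/2) (by norm_num) (by norm_num) hψmv hnn
        hψ0).2
      obtain ⟨u, hu1, hu2⟩ := (hfr.and_eventually (htop.eventually_gt_atTop 0)).exists
      linarith
    · have hlim : Tendsto ψ atBot (𝓝 (κm - κp)) := by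
        have h1 := hlm'.add_const (κm - κp)
        rw [zero_add] at h1
        refine h1.congr ?_
        intro t
        rw [hψbot t, ← hβ]; ring
      rcases lt_or_ge (κm - κp) 0 with hκ | hκ
      · -- consider -ψ
        have hmv' : ∀ s, -ψ s = (1/2 : ℝ) * -ψ (s + ρ s) + (1 - (1/2 : ℝ)) * -ψ (s - ρ s) := by
          intro s
          have := hψmv s
          linarith
        have hnn := nonneg_of_mvp hδ hδ' (ψ := fun t => -ψ t) (w := fun _ => 1/2) (by norm_num)
          (by norm_num) hmv' hψc.neg (by simpa using hlp.neg) (by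
            intro ε hε
            filter_upwards [hlim.eventually (gt_mem_nhds hκ)] with t ht
            linarith)
        have hfr := (min_propagates hδ hδ' (ψ := fun t => -ψ t) (w := fun _ => 1/2) (by norm_num)
          (by norm_num) hmv' hnn (m := 0) (s₀ := -bp) (by rw [hψ0, neg_zero])).2
        obtain ⟨u, hu1, hu2⟩ := (hfr.and_eventually (hlim.eventually (gt_mem_nhds hκ))).exists
        linarith
      · have hnn := nonneg_of_mvp hδ hδ' (w := fun _ => 1/2) (by norm_num) (by norm_num) hψmv hψc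
          hlp (by
            intro ε hε
            filter_upwards [hlim.eventually (lt_mem_nhds (show -ε < κm - κp by linarith))]
              with t ht
            exact ht.le)
        have hfr := (min_propagates hδ hδ' (w := fun _ => 1/2) (by norm_num) (by norm_num) hψmv
          hnn hψ0).2
        have hκ0 : κm - κp = 0 := by
          by_contra hne
          have hpos : 0 < κm - κp := lt_of_le_of_ne hκ (Ne.symm hne)
          obtain ⟨u, hu1, hu2⟩ := (hfr.and_eventually (hlim.eventually (lt_mem_nhds hpos))).exists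
          linarith
        rw [hκ0] at hlim
        exact eq_zero_of_mvp hδ hδ' (w := fun _ => 1/2) (by norm_num) (by norm_num) hψmv hψc hlp
          hlim
  refine ⟨2 * bp, κp, fun t => ?_⟩
  have := hall t
  simp only [hψ] at this
  linarith

end Pool.Agent.MP_7a5b4a_gt
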