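import Pool.Agent.MP_7a5b4a_gt.Straight

/-!
# Planes of parabolic type satisfying the circle identity are Euclidean
-/

open Filter Topology Set

namespace Pool.Agent.MP_7a5b4a_gt

variable {M : Set E2} {d : E2 → E2 → ℝ}

/-- Functions which are affine along every geodesic line. -/
def ParAff (M : Set E2) (d : E2 → E2 → ℝ) (f : E2 → ℝ) : Prop :=
  ∀ γ, IsLine M d γ → ∃ a b : ℝ, ∀ t, f (γ t) = a + b * t

theorem ParAff.add {f g : E2 → ℝ} (hf : ParAff M d f) (hg : ParAff M d g) :
    ParAff M d (fun x => f x + g x) := by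
  intro γ hγ
  obtain ⟨a, b, h1⟩ := hf γ hγ
  obtain ⟨a', b', h2⟩ := hg γ hγ
  exact ⟨a + a', b + b', fun t => by show f (γ t) + g (γ t) = _; rw [h1, h2]; ring⟩

theorem ParAff.mul {f : E2 → ℝ} (hf : ParAff M d f) (c : ℝ) :
    ParAff M d (fun x => c * f x) := by
  intro γ hγ
  obtain ⟨a, b, h1⟩ := hf γ hγ
  exact ⟨c * a, c * b, fun t => by show c * f (γ t) = _; rw [h1]; ring⟩

theorem ParAff.const (c : ℝ) : ParAff M d (fun _ => c) := by
  intro γ _
  exact ⟨c, 0, fun t => by ring⟩

theorem ParAff.congr {f g : E2 → ℝ} (hf : ParAff M d f) (h : ∀ x ∈ M, g x = f x) :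
    ParAff M d g := by
  intro γ hγ
  obtain ⟨a, b, h1⟩ := hf γ hγ
  exact ⟨a, b, fun t => by rw [h _ (hγ.mem t), h1]⟩

theorem par_law (hP : IsStraightPlane M d) (hσ : CircleIdentity id M d) {P : E2}
    (hPM : P ∈ M) {γ : ℝ → E2} (hγ : IsLine M d γ) :
    ∃ a b : ℝ, ∀ t, d P (γ t) ^ 2 = t ^ 2 + a * t + b := by
  by_cases hoff : P ∈ range γ
  · obtain ⟨t₀, rfl⟩ := hoff
    refine ⟨-2 * t₀, t₀ ^ 2, fun t => ?_⟩
    rw [hγ.isom, sq_abs]
    ring
  · refine par_line (hγ.distLike hP hPM hoff) ?_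
    intro s
    have h1 := hσ.line hP hγ hPM hoff s
    simp only [id] at h1
    linarith

theorem ParAff.sq_sub (hP : IsStraightPlane M d) (hσ : CircleIdentity id M d) {P Q : E2}
    (hPM : P ∈ M) (hQM : Q ∈ M) : ParAff M d (fun X => d P X ^ 2 - d Q X ^ 2) := by
  intro γ hγ
  obtain ⟨a, b, h1⟩ := par_law hP hσ hPM hγ
  obtain ⟨a', b', h2⟩ := par_law hP hσ hQM hγ
  exact ⟨b - b', a - a', fun t => by
    show d P (γ t) ^ 2 - d Q (γ t) ^ 2 = _
    rw [h1, h2]; ring⟩

theorem ParAff.eq_zero (hP : IsStraightPlane M d) {f : E2 → ℝ} (hf : ParAff M d f) {a b c : E2}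
    (ha : a ∈ M) (hb : b ∈ M) (hc : c ∈ M) (habc : area a b c ≠ 0) (fa : f a = 0) (fb : f b = 0)
    (fc : f c = 0) {z : E2} (hz : z ∈ M) : f z = 0 := by
  have := propagate hP.convex (S := {x | x ∈ M ∧ f x = 0}) (fun x hx => hx.1) ?_
    ⟨ha, fa⟩ ⟨hb, fb⟩ ⟨hc, fc⟩ habc hz
  · exact this.2
  · rintro x ⟨hx, fx⟩ y ⟨hy, fy⟩ hxy w hw α β hαβ hwe
    obtain ⟨γ, hγ, h0, h1⟩ := hP.exists_line hx hy hxy
    obtain ⟨u, hu⟩ := hγ.exists_of_comb (s := 0) (t := d x y) hw hαβ (by rw [h0, h1]; exact hwe)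
    obtain ⟨A, B, hAB⟩ := hf γ hγ
    have hpos := hP.metric.pos hx hy hxy
    have e1 := hAB 0
    have e2 := hAB (d x y)
    rw [h0, fx] at e1
    rw [h1, fy] at e2
    have hA : A = 0 := by linarith
    have hB : B = 0 := by
      rw [hA, zero_add] at e2
      exact (mul_eq_zero.1 e2.symm).resolve_right hpos.ne'
    refine ⟨hw, ?_⟩
    rw [hu, hAB, hA, hB]; ring

theorem par_coords (hP : IsStraightPlane M d) (hσ : CircleIdentity id M d) :
    ∃ (x1 x2 : E2 → ℝ), ParAff M d x1 ∧ ParAff M d x2 ∧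
      (∀ X ∈ M, ∀ Y ∈ M, d X Y ^ 2 = (x1 X - x1 Y) ^ 2 + (x2 X - x2 Y) ^ 2) ∧
      ContinuousOn x1 M ∧ ContinuousOn x2 M := by
  obtain ⟨γ, η, hγ, hη, h0, harea⟩ := hP.exists_axes
  have hm := hP.metric
  set O := γ 0 with hO
  have hOM : O ∈ M := hγ.mem 0
  have hγ1 : γ 1 ∈ M := hγ.mem 1
  have hη1 : η 1 ∈ M := hη.mem 1
  set x1 : E2 → ℝ := fun X => (d X O ^ 2 + 1 - d X (γ 1) ^ 2) / 2 with hx1
  set v : E2 → ℝ := fun X => (d X O ^ 2 + 1 - d X (η 1) ^ 2) / 2 with hv
  have dOγ : d O (γ 1) = 1 := by rw [hO, hγ.isom]; norm_num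
  have dOη : d O (η 1) = 1 := by rw [h0, hη.isom]; norm_num
  have dγO : d (γ 1) O = 1 := by rw [hm.symm _ hγ1 _ hOM, dOγ]
  have dηO : d (η 1) O = 1 := by rw [hm.symm _ hη1 _ hOM, dOη]
  have Hx1 : ParAff M d x1 := by
    refine (((ParAff.sq_sub hP hσ hOM hγ1).mul (1/2)).add (ParAff.const (1/2))).congr ?_
    intro X hX
    simp only [hx1]
    rw [hm.symm _ hX _ hOM, hm.symm _ hX _ hγ1]; ring
  have Hv : ParAff M d v := by
    refine (((ParAff.sq_sub hP hσ hOM hη1).mul (1/2)).add (ParAff.const (1/2))).congr ?_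
    intro X hX
    simp only [hv]
    rw [hm.symm _ hX _ hOM, hm.symm _ hX _ hη1]; ring
  have lawη : ∀ X ∈ M, ∀ t, d X (η t) ^ 2 = t ^ 2 - 2 * v X * t + d X O ^ 2 := by
    intro X hX t
    obtain ⟨a, b, hab⟩ := par_law hP hσ hX hη
    have e0 := hab 0
    have e1 := hab 1
    rw [← h0] at e0
    rw [hab t]
    simp only [hv]
    rw [e0, e1]; ring
  have vO : v O = 0 := by
    simp only [hv, hm.self hOM, dOη]; norm_num
  have x1O : x1 O = 0 := by
    simp only [hx1, hm.self hOM, dOγ]; norm_num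
  set κ := v (γ 1) with hκ
  have vγ : ∀ t, v (γ t) = κ * t := by
    intro t
    obtain ⟨a, b, hab⟩ := Hv γ hγ
    have e0 := hab 0
    have e1 := hab 1
    rw [← hO, vO] at e0
    have ha : a = 0 := by linarith
    rw [hab t, hκ, e1, ha]; ring
  have dγη : ∀ s t, d (γ s) (η t) ^ 2 = t ^ 2 - 2 * (κ * s) * t + s ^ 2 := by
    intro s t
    rw [lawη _ (hγ.mem s), vγ, hO, hγ.isom, sub_zero, sq_abs]
  have hne : ∀ s, s ≠ 0 → 0 < d (γ s) (η 1) ^ 2 := by
    intro s hs
    have hne : γ s ≠ η 1 := by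
      intro he
      apply harea s 1 hs one_ne_zero
      rw [he]; simp [area]; ring
    have := hm.pos (hγ.mem s) hη1 hne
    positivity
  have hκ1 : κ < 1 := by
    have h1 := hne 1 one_ne_zero
    rw [dγη] at h1
    linarith
  have hκ2 : -1 < κ := by
    have h1 := hne (-1) (by norm_num)
    rw [dγη] at h1
    linarith
  have hω2 : 0 < 1 - κ ^ 2 := by nlinarith
  set ω := Real.sqrt (1 - κ ^ 2) with hω
  have hω0 : 0 < ω := Real.sqrt_pos.2 hω2
  have hωsq : ω ^ 2 = 1 - κ ^ 2 := Real.sq_sqrt hω2.le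
  set x2 : E2 → ℝ := fun X => (v X - κ * x1 X) / ω with hx2
  have x2s : ∀ X, x2 X * ω = v X - κ * x1 X := by
    intro X; simp only [hx2]; field_simp
  have Hx2 : ParAff M d x2 := by
    refine ((Hv.mul (1 / ω)).add (Hx1.mul (-κ / ω))).congr ?_
    intro X _
    simp only [hx2]; field_simp; ring
  have x2O : x2 O = 0 := by
    have := x2s O
    rw [vO, x1O] at this
    simpa [hω0.ne'] using this
  have x1γ : x1 (γ 1) = 1 := by
    simp only [hx1, dγO, hm.self hγ1]; norm_num
  have vη : v (η 1) = 1 := by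
    simp only [hv, dηO, hm.self hη1]; norm_num
  have x1η : x1 (η 1) = κ := by
    simp only [hx1, dηO]
    rw [hm.symm _ hη1 _ hγ1, dγη]; ring
  have x2γ : x2 (γ 1) = 0 := by
    have := x2s (γ 1)
    rw [vγ, x1γ, sub_self] at this
    exact (mul_eq_zero.1 this).resolve_right hω0.ne'
  have x2η : x2 (η 1) = ω := by
    have := x2s (η 1)
    rw [vη, x1η] at this
    have h2 : (x2 (η 1) - ω) * ω = 0 := by
      rw [sub_mul, this]; linear_combination (-1 : ℝ) * hωsq
    have := (mul_eq_zero.1 h2).resolve_right hω0.ne'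
    linarith
  have main : ∀ X ∈ M, ∀ Y ∈ M,
      d X Y ^ 2 = d X O ^ 2 + d Y O ^ 2 - 2 * (x1 X * x1 Y) - 2 * (x2 X * x2 Y) := by
    intro X hX Y hY
    have Hf : ParAff M d (fun Y => (d X Y ^ 2 - d O Y ^ 2) + (-(d X O ^ 2)) +
        (2 * x1 X) * x1 Y + (2 * x2 X) * x2 Y) :=
      (((ParAff.sq_sub hP hσ hX hOM).add (ParAff.const _)).add (Hx1.mul _)).add (Hx2.mul _)
    have h3 := Hf.eq_zero hP hOM hγ1 hη1 (harea 1 1 one_ne_zero one_ne_zero) ?_ ?_ ?_ hY
    · rw [hm.symm _ hY _ hOM]
      linarith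
    · simp only [x1O, x2O, hm.self hOM]; ring
    · simp only [x1γ, x2γ, dOγ]
      simp only [hx1]; ring
    · simp only [x1η, x2η, dOη]
      have e1 := x2s X
      have e2 : v X = (d X O ^ 2 + 1 - d X (η 1) ^ 2) / 2 := rfl
      linear_combination 2 * e1 + 2 * e2
  have hq : ∀ X ∈ M, d X O ^ 2 = x1 X ^ 2 + x2 X ^ 2 := by
    intro X hX
    have := main X hX X hX
    rw [hm.self hX] at this
    linarith
  have hcont : ∀ P ∈ M, ContinuousOn (fun X => d X P) M := by
    intro P hPM
    exact hP.continuous.comp (f := fun X : E2 => ((X, P) : E2 × E2))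
      (by fun_prop) (fun X hX => ⟨hX, hPM⟩)
  have c1 : ContinuousOn x1 M :=
    ((((hcont O hOM).pow 2).add continuousOn_const).sub ((hcont _ hγ1).pow 2)).div_const _
  have cv : ContinuousOn v M :=
    ((((hcont O hOM).pow 2).add continuousOn_const).sub ((hcont _ hη1).pow 2)).div_const _
  have c2 : ContinuousOn x2 M := (cv.sub (continuousOn_const.mul c1)).div_const _
  refine ⟨x1, x2, Hx1, Hx2, ?_, c1, c2⟩
  intro X hX Y hY
  rw [main X hX Y hY, hq X hX, hq Y hY]
  ring

theorem par_collin (hP : IsStraightPlane M d) {x1 x2 : E2 → ℝ} (H1 : ParAff M d x1)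
    (H2 : ParAff M d x2)
    (hform : ∀ X ∈ M, ∀ Y ∈ M, d X Y ^ 2 = (x1 X - x1 Y) ^ 2 + (x2 X - x2 Y) ^ 2) :
    Collin M (fun X => (!₂[x1 X, x2 X, 1] : E3)) := by
  have hm := hP.metric
  constructor
  · intro x hx y hy z hz hxy a b ha hb hab hze
    obtain ⟨γ, hγ, h0, h1⟩ := hP.exists_line hx hy hxy
    have hL := hm.pos hx hy hxy
    set L := d x y with hLdef
    obtain ⟨u, hu⟩ := hγ.exists_of_comb (s := 0) (t := L) hz hab (by rw [h0, h1]; exact hze)
    have hu0 : u ≠ 0 := by
      rintro rfl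
      rw [h0] at hu
      rw [hu] at hze
      have : b • (y - x) = 0 := by
        have ha' : a = 1 - b := by linarith
        rw [ha'] at hze
        linear_combination (norm := module) -hze
      rcases smul_eq_zero.1 this with h2 | h2
      · exact hb h2
      · exact hxy (sub_eq_zero.1 h2).symm
    have huL : u ≠ L := by
      rintro rfl
      rw [h1] at hu
      rw [hu] at hze
      have : a • (x - y) = 0 := by
        have hb' : b = 1 - a := by linarith
        rw [hb'] at hze
        linear_combination (norm := module) -hze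
      rcases smul_eq_zero.1 this with h2 | h2
      · exact ha h2
      · exact hxy (sub_eq_zero.1 h2)
    refine ⟨(L - u) / L, u / L, div_ne_zero (sub_ne_zero.2 huL.symm) hL.ne',
      div_ne_zero hu0 hL.ne', ?_⟩
    have comp : ∀ f, ParAff M d f → f z = (L - u) / L * f x + u / L * f y := by
      intro f hf
      obtain ⟨A, B, hAB⟩ := hf γ hγ
      have e0 := hAB 0
      have e1 := hAB L
      have e2 := hAB u
      rw [h0] at e0
      rw [h1] at e1
      rw [← hu] at e2
      rw [e2, e1, e0]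
      field_simp
      ring
    apply E3_ext
    · simpa using comp x1 H1
    · simpa using comp x2 H2
    · show (1 : ℝ) = (L - u) / L * 1 + u / L * 1
      field_simp; ring
  · intro x hx y hy z hz harea a b c habc
    have e0 : a * x1 x + b * x1 y + c * x1 z = 0 := by
      have := congrArg (fun v : E3 => v 0) habc
      simpa using this
    have e1 : a * x2 x + b * x2 y + c * x2 z = 0 := by
      have := congrArg (fun v : E3 => v 1) habc
      simpa using this
    have e2 : a + b + c = 0 := by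
      have := congrArg (fun v : E3 => v 2) habc
      simpa using this
    have hxy : x ≠ y := by
      rintro rfl; simp [area] at harea
    have hL := hm.pos hx hy hxy
    obtain ⟨γ, hγ, h0, h1⟩ := hP.exists_line hx hy hxy
    have hf := hform x hx y hy
    set L := d x y with hLdef
    by_cases hc : c = 0
    · subst hc
      have hb : b = -a := by linarith
      subst hb
      have h2 : a * (x1 x - x1 y) = 0 := by linarith
      have h3 : a * (x2 x - x2 y) = 0 := by linarith
      have h4 : a ^ 2 * L ^ 2 = 0 := by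
        rw [hf]; linear_combination (a * (x1 x - x1 y)) * h2 + (a * (x2 x - x2 y)) * h3
      have h5 : a = 0 := by
        have := (mul_eq_zero.1 h4).resolve_right (by positivity)
        exact pow_eq_zero_iff (two_ne_zero) |>.1 this
      refine ⟨h5, by rw [h5]; simp, rfl⟩
    · exfalso
      set β := -b / c with hβ
      have comp : ∀ f, ParAff M d f → a * f x + b * f y + c * f z = 0 → f z = f (γ (β * L)) := by
        intro f hf h3
        obtain ⟨A, B, hAB⟩ := hf γ hγ
        have e0 := hAB 0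
        have e1 := hAB L
        rw [h0] at e0
        rw [h1] at e1
        rw [hAB, hβ]
        have ha : a = -b - c := by linarith
        rw [ha, e0, e1] at h3
        field_simp
        linear_combination h3
      have h2 := hform z hz _ (hγ.mem (β * L))
      rw [comp x1 H1 e0, comp x2 H2 e1] at h2
      have h3 : d z (γ (β * L)) = 0 := by
        have : d z (γ (β * L)) ^ 2 = 0 := by rw [h2]; ring
        exact pow_eq_zero_iff (two_ne_zero) |>.1 this
      have h5 : z = γ (β * L) := (hm.eq_zero_iff _ hz _ (hγ.mem _)).1 h3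
      obtain ⟨a', b', hab', he⟩ := hγ.comb hm (s := 0) (t := L) hL.ne (β * L)
      rw [← h5, h0, h1] at he
      exact harea (area_of_comb hab' he)

theorem par_model (hP : IsStraightPlane univ d) (hσ : CircleIdentity id univ d) :
    IsEuclideanModel d := by
  obtain ⟨x1, x2, H1, H2, hform, c1, c2⟩ := par_coords hP hσ
  have hm := hP.metric
  have hcol := par_collin hP H1 H2 hform
  have hcont : ContinuousOn (fun X => (!₂[x1 X, x2 X, 1] : E3)) univ := by
    refine (PiLp.continuous_toLp 2 _).comp_continuousOn (continuousOn_pi.2 ?_)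
    intro i
    fin_cases i
    · exact c1
    · exact c2
    · exact continuousOn_const
  obtain ⟨T, hT, hfix⟩ := hcol.exists_linear hP.isOpen hP.convex hP.nonempty (fun T hT =>
    fixClosed_of_continuousOn hcont (fun x hx h0 => by
      have := congrArg (fun v : E3 => v 2) h0
      simp at this) hT)
  -- the linear part
  set D : E2 → E3 := fun u => T (!₂[u 0, u 1, 0] : E3) with hD
  have hat_eq : ∀ x : E2, T (hat x) = T (hat 0) + D x := by
    intro x
    rw [hD]
    simp only
    rw [← map_add]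
    congr 1
    apply E3_ext <;> simp
  have D_add : ∀ u w, D (u + w) = D u + D w := by
    intro u w
    have : (!₂[(u + w) 0, (u + w) 1, 0] : E3) = !₂[u 0, u 1, 0] + !₂[w 0, w 1, 0] := by
      apply E3_ext <;> simp
    simp only [hD]
    rw [this, map_add]
  have D_smul : ∀ (c : ℝ) u, D (c • u) = c • D u := by
    intro c u
    have : (!₂[(c • u) 0, (c • u) 1, 0] : E3) = c • !₂[u 0, u 1, 0] := by
      apply E3_ext <;> simp
    simp only [hD]
    rw [this, map_smul]
  have hne : ∀ x : E2, T (hat x) 2 ≠ 0 := by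
    intro x h0
    obtain ⟨c, hc, he⟩ := hfix x (mem_univ x)
    have := congrArg (fun v : E3 => v 2) he
    simp [h0] at this
  have D2 : ∀ u, D u 2 = 0 := by
    intro u
    by_contra hu
    apply hne ((-(T (hat 0) 2) / D u 2) • u)
    rw [hat_eq, D_smul]
    simp only [PiLp.add_apply, PiLp.smul_apply, smul_eq_mul]
    field_simp
    ring
  set g := T (hat 0) 2 with hg
  have hg0 : g ≠ 0 := hne 0
  have hval : ∀ x, x1 x = g⁻¹ * T (hat x) 0 ∧ x2 x = g⁻¹ * T (hat x) 1 := by
    intro x
    obtain ⟨c, hc, he⟩ := hfix x (mem_univ x)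
    have e0 : x1 x = c * T (hat x) 0 := by
      have := congrArg (fun v : E3 => v 0) he; simpa using this
    have e1 : x2 x = c * T (hat x) 1 := by
      have := congrArg (fun v : E3 => v 1) he; simpa using this
    have e2 : 1 = c * T (hat x) 2 := by
      have := congrArg (fun v : E3 => v 2) he; simpa using this
    have e3 : T (hat x) 2 = g := by
      rw [hat_eq]; simp [D2, hg]
    rw [e3] at e2
    have : c = g⁻¹ := eq_inv_of_mul_eq_one_left e2.symm
    rw [this] at e0 e1
    exact ⟨e0, e1⟩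
  set S : E2 →ₗ[ℝ] E2 :=
    { toFun := fun u => !₂[g⁻¹ * D u 0, g⁻¹ * D u 1]
      map_add' := by
        intro u w
        apply E2_ext
        · simp [D_add]; ring
        · simp [D_add]; ring
      map_smul' := by
        intro c u
        apply E2_ext
        · simp [D_smul]; ring
        · simp [D_smul]; ring } with hS
  have hS0 : ∀ u, S u 0 = g⁻¹ * D u 0 := fun u => rfl
  have hS1 : ∀ u, S u 1 = g⁻¹ * D u 1 := fun u => rfl
  have hx1 : ∀ x y, x1 x - x1 y = S (x - y) 0 := by
    intro x y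
    rw [(hval x).1, (hval y).1, hS0, hat_eq x, hat_eq y]
    have : D x = D (x - y) + D y := by rw [← D_add, sub_add_cancel]
    rw [this]
    simp only [PiLp.add_apply]
    ring
  have hx2 : ∀ x y, x2 x - x2 y = S (x - y) 1 := by
    intro x y
    rw [(hval x).2, (hval y).2, hS1, hat_eq x, hat_eq y]
    have : D x = D (x - y) + D y := by rw [← D_add, sub_add_cancel]
    rw [this]
    simp only [PiLp.add_apply]
    ring
  have hd : ∀ x y, d x y = ‖S (x - y)‖ := by
    intro x y
    have h1 := hform x (mem_univ _) y (mem_univ _)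
    have h2 : ‖S (x - y)‖ ^ 2 = d x y ^ 2 := by
      rw [EuclideanSpace.norm_sq_eq, Fin.sum_univ_two, Real.norm_eq_abs, Real.norm_eq_abs,
        sq_abs, sq_abs, h1, hx1, hx2]
    exact (sq_eq_sq₀ (norm_nonneg _) (hm.nonneg (mem_univ x) (mem_univ y))).1 h2 |>.symm
  have hSinj : Function.Injective S := by
    rw [← LinearMap.ker_eq_bot, LinearMap.ker_eq_bot']
    intro u hu
    have := hd u 0
    rw [sub_zero, hu, norm_zero] at this
    exact (hm.eq_zero_iff _ (mem_univ _) _ (mem_univ _)).1 this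
  refine ⟨(LinearEquiv.ofInjectiveEndo S hSinj).toAffineEquiv, fun x y => ?_⟩
  rw [hd, dist_eq_norm]
  simp

end Pool.Agent.MP_7a5b4a_gt
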