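import Pool.Agent.MP_7a5b4a_gt.FT
import Pool.Agent.MP_7a5b4a_gt.Line1D

/-!
# Basic facts on planes of parabolic and hyperbolic type
-/

open Filter Topology Set

namespace Pool.Agent.MP_7a5b4a_gt

/-- A parametrised geodesic line. -/
structure IsLine (M : Set E2) (d : E2 → E2 → ℝ) (γ : ℝ → E2) : Prop where
  mem : ∀ t, γ t ∈ M
  isom : ∀ s t, d (γ s) (γ t) = |s - t|
  sect : ∃ p q : E2, p ≠ q ∧ Set.range γ = M ∩ (line[ℝ, p, q] : Set E2)

theorem mem_line_of_comb {x y z : E2} {a b : ℝ} (h : a + b = 1) (hz : z = a • x + b • y) :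
    z ∈ line[ℝ, x, y] := by
  have : z = AffineMap.lineMap x y b := by
    rw [AffineMap.lineMap_apply_module, hz, show a = 1 - b by linarith]
  rw [this]
  exact AffineMap.lineMap_mem_affineSpan_pair _ _ _

theorem comb_of_mem_line {x y z : E2} (h : z ∈ line[ℝ, x, y]) :
    ∃ a b : ℝ, a + b = 1 ∧ z = a • x + b • y := by
  rw [mem_affineSpan_pair_iff_exists_lineMap_eq] at h
  obtain ⟨r, rfl⟩ := h
  exact ⟨1 - r, r, by ring, by rw [AffineMap.lineMap_apply_module]⟩

theorem area_of_comb {x y z : E2} {a b : ℝ} (h : a + b = 1) (hz : z = a • x + b • y) :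
    area x y z = 0 := by
  subst hz
  have : a = 1 - b := by linarith
  subst this
  simp [area]; ring

variable {M : Set E2} {d : E2 → E2 → ℝ}

theorem IsMetric.self {X : Type*} {M : Set X} {d : X → X → ℝ} (h : IsMetric M d) {x : X}
    (hx : x ∈ M) : d x x = 0 := (h.eq_zero_iff x hx x hx).2 rfl

theorem IsMetric.nonneg {X : Type*} {M : Set X} {d : X → X → ℝ} (h : IsMetric M d) {x y : X}
    (hx : x ∈ M) (hy : y ∈ M) : 0 ≤ d x y := by
  have h1 := h.triangle x hx y hy x hx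
  rw [h.self hx, h.symm y hy x hx] at h1
  linarith

theorem IsMetric.pos {X : Type*} {M : Set X} {d : X → X → ℝ} (h : IsMetric M d) {x y : X}
    (hx : x ∈ M) (hy : y ∈ M) (hxy : x ≠ y) : 0 < d x y :=
  lt_of_le_of_ne (h.nonneg hx hy) (fun h0 => hxy ((h.eq_zero_iff x hx y hy).1 h0.symm))

theorem IsLine.shift {γ : ℝ → E2} (h : IsLine M d γ) (s : ℝ) : IsLine M d (fun u => γ (s + u)) where
  mem t := h.mem _
  isom u v := by rw [h.isom]; congr 1; ring
  sect := by
    obtain ⟨p, q, hpq, hr⟩ := h.sect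
    refine ⟨p, q, hpq, ?_⟩
    rw [← hr]
    ext x
    constructor
    · rintro ⟨t, rfl⟩; exact ⟨s + t, rfl⟩
    · rintro ⟨t, rfl⟩; exact ⟨t - s, by simp⟩

theorem IsLine.flip {γ : ℝ → E2} (h : IsLine M d γ) (s : ℝ) : IsLine M d (fun u => γ (s - u)) where
  mem t := h.mem _
  isom u v := by rw [h.isom, ← abs_neg]; congr 1; ring
  sect := by
    obtain ⟨p, q, hpq, hr⟩ := h.sect
    refine ⟨p, q, hpq, ?_⟩
    rw [← hr]
    ext x
    constructor
    · rintro ⟨t, rfl⟩; exact ⟨s - t, rfl⟩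
    · rintro ⟨t, rfl⟩; exact ⟨s - t, by simp⟩

theorem IsLine.inj (hm : IsMetric M d) {γ : ℝ → E2} (h : IsLine M d γ) {s t : ℝ} (hst : s ≠ t) :
    γ s ≠ γ t := by
  intro he
  have h1 := h.isom s t
  rw [he, hm.self (h.mem t)] at h1
  exact hst (sub_eq_zero.1 (abs_eq_zero.1 h1.symm))

theorem IsLine.exists_of_comb {γ : ℝ → E2} (h : IsLine M d γ) {s t : ℝ}
    {z : E2} (hz : z ∈ M) {a b : ℝ} (hab : a + b = 1) (hze : z = a • γ s + b • γ t) :
    ∃ u, z = γ u := by
  obtain ⟨p, q, hpq, hr⟩ := h.sect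
  have hs : γ s ∈ line[ℝ, p, q] := by
    have : γ s ∈ range γ := ⟨s, rfl⟩
    rw [hr] at this; exact this.2
  have ht : γ t ∈ line[ℝ, p, q] := by
    have : γ t ∈ range γ := ⟨t, rfl⟩
    rw [hr] at this; exact this.2
  have hz' : z ∈ line[ℝ, p, q] :=
    affineSpan_pair_le_of_mem_of_mem hs ht (mem_line_of_comb hab hze)
  have : z ∈ range γ := by rw [hr]; exact ⟨hz, hz'⟩
  obtain ⟨u, hu⟩ := this
  exact ⟨u, hu.symm⟩

theorem IsLine.comb (hm : IsMetric M d) {γ : ℝ → E2} (h : IsLine M d γ) {s t : ℝ} (hst : s ≠ t)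
    (u : ℝ) : ∃ a b : ℝ, a + b = 1 ∧ γ u = a • γ s + b • γ t := by
  obtain ⟨p, q, hpq, hr⟩ := h.sect
  have key : ∀ v, γ v ∈ line[ℝ, p, q] := by
    intro v
    have : γ v ∈ range γ := ⟨v, rfl⟩
    rw [hr] at this; exact this.2
  have hcol := collinear_triple_of_mem_affineSpan_pair (key s) (key t) (key u)
  exact comb_of_mem_line (hcol.mem_affineSpan_of_mem_of_ne (by simp) (by simp) (by simp)
    (h.inj hm hst))

theorem IsStraightPlane.exists_line (hP : IsStraightPlane M d) {x y : E2} (hx : x ∈ M)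
    (hy : y ∈ M) (hxy : x ≠ y) : ∃ γ, IsLine M d γ ∧ γ 0 = x ∧ γ (d x y) = y := by
  have hsec : IsLineSection M (M ∩ (line[ℝ, x, y] : Set E2)) :=
    ⟨⟨x, hx, left_mem_affineSpan_pair _ _ _⟩, x, y, hxy, rfl⟩
  obtain ⟨hsub, γ, hr, hiso⟩ := (hP.geodesic_iff _).2 hsec
  have hγ : IsLine M d γ := ⟨fun t => (hsub (by rw [← hr]; exact ⟨t, rfl⟩)), hiso, x, y, hxy, hr⟩
  have hx' : x ∈ range γ := by rw [hr]; exact ⟨hx, left_mem_affineSpan_pair _ _ _⟩
  have hy' : y ∈ range γ := by rw [hr]; exact ⟨hy, right_mem_affineSpan_pair _ _ _⟩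
  obtain ⟨s, hs⟩ := hx'
  obtain ⟨t, ht⟩ := hy'
  rcases le_total s t with hst | hst
  · refine ⟨fun u => γ (s + u), hγ.shift s, by simp [hs], ?_⟩
    have : d x y = t - s := by
      rw [← hs, ← ht, hiso, abs_sub_comm, abs_of_nonneg (by linarith)]
    simp only [this, add_sub_cancel, ht]
  · refine ⟨fun u => γ (s - u), hγ.flip s, by simp [hs], ?_⟩
    have : d x y = s - t := by
      rw [← hs, ← ht, hiso, abs_of_nonneg (by linarith)]
    simp only [this, sub_sub_cancel, ht]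

theorem IsLine.distLike (hP : IsStraightPlane M d) {γ : ℝ → E2} (h : IsLine M d γ) {P : E2}
    (hPM : P ∈ M) (hoff : P ∉ range γ) : DistLike (fun t => d P (γ t)) where
  pos t := hP.metric.pos hPM (h.mem t) (fun he => hoff ⟨t, he.symm⟩)
  lip s t := by
    have h1 := hP.metric.triangle P hPM (γ t) (h.mem t) (γ s) (h.mem s)
    have h2 := hP.metric.triangle P hPM (γ s) (h.mem s) (γ t) (h.mem t)
    rw [h.isom] at h1 h2
    rw [abs_sub_comm t s] at h1
    rw [abs_le]
    constructor <;> linarith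
  tri s t := by
    have h1 := hP.metric.triangle (γ s) (h.mem s) P hPM (γ t) (h.mem t)
    rw [h.isom, hP.metric.symm _ (h.mem s) _ hPM] at h1
    exact h1

/-- the circle identity along a line -/
theorem CircleIdentity.line {σ : ℝ → ℝ} (hσ : CircleIdentity σ M d) (hP : IsStraightPlane M d)
    {γ : ℝ → E2} (h : IsLine M d γ) {P : E2} (hPM : P ∈ M) (hoff : P ∉ range γ) (s : ℝ) :
    σ (d P (γ (s + d P (γ s))) / 2) ^ 2 + σ (d P (γ (s - d P (γ s))) / 2) ^ 2 =
      σ (d P (γ s)) ^ 2 := by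
  have hpos : 0 < d P (γ s) := (h.distLike hP hPM hoff).pos s
  set r := d P (γ s) with hr
  have e1 : d (γ s) (γ (s + r)) = r := by
    rw [h.isom, show s - (s + r) = -r by ring, abs_neg, abs_of_pos hpos]
  have e2 : d (γ s) (γ (s - r)) = r := by
    rw [h.isom, show s - (s - r) = r by ring, abs_of_pos hpos]
  have e3 : d (γ s) P = r := by rw [hr, hP.metric.symm _ (h.mem s) _ hPM]
  have hne : γ (s + r) ≠ γ (s - r) := h.inj hP.metric (by linarith)
  obtain ⟨p, q, hpq, hrange⟩ := h.sect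
  have key : ∀ v, γ v ∈ line[ℝ, p, q] := by
    intro v
    have : γ v ∈ range γ := ⟨v, rfl⟩
    rw [hrange] at this; exact this.2
  have hcol : Collinear ℝ {γ (s + r), γ s, γ (s - r)} :=
    collinear_triple_of_mem_affineSpan_pair (key _) (key _) (key _)
  have hncol : ¬ Collinear ℝ {γ (s + r), γ (s - r), P} := by
    intro hc
    apply hoff
    have h1 : P ∈ line[ℝ, γ (s + r), γ (s - r)] :=
      hc.mem_affineSpan_of_mem_of_ne (by simp) (by simp) (by simp) hne
    rw [hrange]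
    exact ⟨hPM, affineSpan_pair_le_of_mem_of_mem (key _) (key _) h1⟩
  have := hσ (γ s) (h.mem s) r hpos _ (h.mem _) _ (h.mem _) P hPM e1 e2 hne hcol e3 hncol
  rw [hP.metric.symm _ (h.mem _) _ hPM, hP.metric.symm _ (h.mem (s - r)) _ hPM] at this
  exact this

/-- A set closed under taking collinear points, containing a triangle, is everything. -/
theorem propagate (hM : Convex ℝ M) {S : Set E2} (hSM : S ⊆ M)
    (hS : ∀ x ∈ S, ∀ y ∈ S, x ≠ y → ∀ z ∈ M, ∀ a b : ℝ, a + b = 1 → z = a • x + b • y → z ∈ S)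
    {a b c : E2} (ha : a ∈ S) (hb : b ∈ S) (hc : c ∈ S) (habc : area a b c ≠ 0) {z : E2}
    (hz : z ∈ M) : z ∈ S := by
  have hbc : b ≠ c := by
    rintro rfl; exact habc (by simp [area]; ring)
  have tri : ∀ {x₁ x₂ x₃ : ℝ}, 0 < x₁ → 0 < x₂ → 0 < x₃ → x₁ + x₂ + x₃ = 1 →
      x₁ • a + x₂ • b + x₃ • c ∈ S := by
    intro x₁ x₂ x₃ h1 h2 h3 hs
    set w := (x₂ / (x₂ + x₃)) • b + (x₃ / (x₂ + x₃)) • c with hw
    have hsum : x₂ / (x₂ + x₃) + x₃ / (x₂ + x₃) = 1 := by field_simp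
    have hwM : w ∈ M := hM (hSM hb) (hSM hc) (by positivity) (by positivity) hsum
    have hwS : w ∈ S := hS b hb c hc hbc w hwM _ _ hsum hw
    have haw : a ≠ w := by
      intro haw
      apply habc
      have h4 : area b c a = 0 := area_of_comb hsum (haw.trans hw)
      rw [← area_rot]; exact h4
    have e : x₁ • a + x₂ • b + x₃ • c = x₁ • a + (x₂ + x₃) • w := by
      rw [hw, smul_add, smul_smul, smul_smul, mul_div_cancel₀ _ (by positivity : x₂ + x₃ ≠ 0),
        mul_div_cancel₀ _ (by positivity : x₂ + x₃ ≠ 0), add_assoc]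
    have hM' : x₁ • a + x₂ • b + x₃ • c ∈ M := by
      rw [e]; exact hM (hSM ha) hwM h1.le (by positivity) (by linarith)
    exact hS a ha w hwS haw _ hM' x₁ (x₂ + x₃) (by linarith) e
  set x₁ := area z b c / area a b c with hx1
  set x₂ := area a z c / area a b c with hx2
  set x₃ := area a b z / area a b c with hx3
  have hsum : x₁ + x₂ + x₃ = 1 := by
    rw [hx1, hx2, hx3, ← add_div, ← add_div, div_eq_one_iff_eq habc]
    simp [area]; ring
  have hxe : z = x₁ • a + x₂ • b + x₃ • c := by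
    apply E2_ext
    · simp only [PiLp.add_apply, PiLp.smul_apply, smul_eq_mul, hx1, hx2, hx3]
      rw [div_mul_eq_mul_div, div_mul_eq_mul_div, div_mul_eq_mul_div, ← add_div, ← add_div,
        eq_div_iff habc]
      simp only [area]; ring
    · simp only [PiLp.add_apply, PiLp.smul_apply, smul_eq_mul, hx1, hx2, hx3]
      rw [div_mul_eq_mul_div, div_mul_eq_mul_div, div_mul_eq_mul_div, ← add_div, ← add_div,
        eq_div_iff habc]
      simp only [area]; ring
  set N := |x₁| + |x₂| + |x₃| with hN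
  have hN0 : 0 ≤ N := by positivity
  have hN1 : -N ≤ x₁ := by
    have := neg_abs_le x₁; have := abs_nonneg x₂; have := abs_nonneg x₃; linarith
  have hN2 : -N ≤ x₂ := by
    have := neg_abs_le x₂; have := abs_nonneg x₁; have := abs_nonneg x₃; linarith
  have hN3 : -N ≤ x₃ := by
    have := neg_abs_le x₃; have := abs_nonneg x₂; have := abs_nonneg x₁; linarith
  set s := 1 / (2 + 3 * N) with hs
  have hs0 : 0 < s := by positivity
  have hs1 : s * (2 + 3 * N) = 1 := by rw [hs]; field_simp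
  have hpos : ∀ y : ℝ, -N ≤ y → 0 < (1 - s) * (1/3) + s * y := by
    intro y hy
    nlinarith [mul_nonneg hs0.le hN0, mul_le_mul_of_nonneg_left hy hs0.le]
  have hg := tri (x₁ := 1/3) (x₂ := 1/3) (x₃ := 1/3) (by norm_num) (by norm_num) (by norm_num)
    (by norm_num)
  set g : E2 := (1/3 : ℝ) • a + (1/3 : ℝ) • b + (1/3 : ℝ) • c with hgdef
  have hq := tri (hpos x₁ hN1) (hpos x₂ hN2) (hpos x₃ hN3) (by linear_combination s * hsum)
  have qe : ((1 - s) * (1/3) + s * x₁) • a + ((1 - s) * (1/3) + s * x₂) • b +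
      ((1 - s) * (1/3) + s * x₃) • c = (1 - s) • g + s • z := by
    rw [hxe, hgdef]; module
  rw [qe] at hq
  by_cases hzg : z = g
  · rw [hzg]; exact hg
  · refine hS g hg _ hq ?_ z hz (-(1 - s) / s) (1 / s) (by field_simp; ring) (recover hs0.ne' g z)
    intro he
    apply hzg
    have : s • (z - g) = 0 := by
      linear_combination (norm := module) -he
    rcases smul_eq_zero.1 this with h1 | h1
    · exact absurd h1 hs0.ne'
    · exact sub_eq_zero.1 h1

/-- There is a triangle. -/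
theorem IsStraightPlane.exists_triangle (hP : IsStraightPlane M d) :
    ∃ O ∈ M, ∃ A ∈ M, ∃ B ∈ M, area O A B ≠ 0 := by
  obtain ⟨a, ha⟩ := hP.nonempty
  obtain ⟨b, hb, hb'⟩ := exists_off hP.isOpen ha (q := a + !₂[1, 0]) (by
    intro he
    have := congrArg (fun w : E2 => w 0) he
    simp at this)
  have hab : a ≠ b := by
    rintro rfl; simp [area] at hb'
  obtain ⟨c, hc, habc⟩ := exists_off hP.isOpen ha hab
  exact ⟨a, ha, b, hb, c, hc, habc⟩

/-- Two geodesic lines through a common point. -/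
theorem IsStraightPlane.exists_axes (hP : IsStraightPlane M d) :
    ∃ (γ η : ℝ → E2), IsLine M d γ ∧ IsLine M d η ∧ γ 0 = η 0 ∧
      ∀ s t, s ≠ 0 → t ≠ 0 → area (γ 0) (γ s) (η t) ≠ 0 := by
  obtain ⟨O, hO, A, hA, B, hB, hOAB⟩ := hP.exists_triangle
  have hOA : O ≠ A := by
    rintro rfl; simp [area] at hOAB
  have hOB : O ≠ B := by
    rintro rfl; simp [area] at hOAB
  obtain ⟨γ, hγ, hγ0, hγ1⟩ := hP.exists_line hO hA hOA
  obtain ⟨η, hη, hη0, hη1⟩ := hP.exists_line hO hB hOB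
  refine ⟨γ, η, hγ, hη, by rw [hγ0, hη0], ?_⟩
  intro s t hs ht h0
  apply hOAB
  -- A = combination of O and γ s
  obtain ⟨a, b, hab, hAe⟩ := hγ.comb hP.metric hs.symm (d O A)
  obtain ⟨a', b', hab', hBe⟩ := hη.comb hP.metric ht.symm (d O B)
  rw [hγ1] at hAe
  rw [hη1] at hBe
  rw [hη0, ← hγ0] at hBe
  rw [← hγ0]
  have ha : a = 1 - b := by linarith
  have ha' : a' = 1 - b' := by linarith
  subst ha ha'
  have : area (γ 0) A B = b * b' * area (γ 0) (γ s) (η t) := by
    rw [hAe, hBe]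
    simp only [area, PiLp.add_apply, PiLp.smul_apply, smul_eq_mul]
    ring
  rw [this, h0, mul_zero]

end Pool.Agent.MP_7a5b4a_gt
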